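import Pool.Agent.Work.MP_0a826e_ag.G.Defs

/-!
Basic notions for the proof of the reduction principle (plan: team store, h95_0a826e_red.md).
-/

namespace Pool.Agent.Work.MP_0a826e_ag.G

open MvPolynomial

abbrev Pn (n : ℕ) (R : Type) [CommRing R] := MvPolynomial (Fin n) R

variable {n s : ℕ} {R R' : Type} [CommRing R] [CommRing R']

/-- finite forward orbit -/
def Pre {X : Type} (φ : X → X) (x : X) : Prop := (Set.range fun j : ℕ => φ^[j] x).Finite

/-- the iterates as polynomial maps -/
noncomputable def itr (F : Fin n → Pn n R) : ℕ → Fin n → Pn n R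
  | 0 => X
  | j + 1 => fun i => aeval (itr F j) (F i)

/-- homogeneous ideal -/
def HomI (I : Ideal (Pn n R)) : Prop := ∀ g ∈ I, ∀ e, homogeneousComponent e g ∈ I

/-- a certificate that the powers of the variables lie in the ideal of `g` modulo `Q` -/
def Cert (g : Fin s → Pn n R) (e M : ℕ) (H : Fin n → Fin s → Pn n R) (Q : Fin n → Pn n R) :
    Prop :=
  1 ≤ M ∧ (∀ i j, (H i j).totalDegree + e ≤ M) ∧ ∀ i, X i ^ M = ∑ j, g j * H i j + Q i

/-- the product `x ^ μ * g ^ β` -/
noncomputable def mon (μ : Fin n →₀ ℕ) (g : Fin s → Pn n R) (β : Fin s →₀ ℕ) : Pn n R :=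
  monomial μ 1 * aeval g (monomial β (1 : R))

/-- `β0` is the leading exponent of `p` for the degree lexicographic order, with coefficient one -/
def Lead (p : Pn s R) (β0 : Fin s →₀ ℕ) : Prop :=
  coeff β0 p = 1 ∧ ∀ β ∈ p.support, toDegLex β ≤ toDegLex β0

/-- the ideal of a set of points -/
noncomputable def van {K : Type} [Field K] (Z : Set (Fin n → K)) : Ideal (Pn n K) :=
  vanishingIdeal K Z

/-- the cone over the reduction -/
def redCone (O : ValuationSubring ℂ) (p0 : Ideal (Pn n ℂ)) :
    Set (Fin n → IsLocalRing.ResidueField O) :=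
  {v | ∀ g : Pn n O, map O.subtype g ∈ p0 → eval v (map (IsLocalRing.residue O) g) = 0}

theorem mem_van {K : Type} [Field K] {Z : Set (Fin n → K)} {g : Pn n K} :
    g ∈ van Z ↔ ∀ x ∈ Z, eval x g = 0 := by
  simp only [van, mem_vanishingIdeal_iff, aeval_eq_eval]

theorem eval_aeval (g : Fin s → Pn n R) (v : Fin n → R) (φ : Pn s R) :
    eval v (aeval g φ) = eval (fun j => eval v (g j)) φ := by
  induction φ using MvPolynomial.induction_on with
  | C a => simp
  | add p q hp hq => simp only [map_add, hp, hq]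
  | mul_X p i hp => simp only [map_mul, hp, aeval_X, eval_X]

theorem map_aeval' (f : R →+* R') (g : Fin s → Pn n R) (φ : Pn s R) :
    map f (aeval g φ) = aeval (fun j => map f (g j)) (map f φ) := by
  induction φ using MvPolynomial.induction_on with
  | C a => simp
  | add p q hp hq => simp only [map_add, hp, hq]
  | mul_X p i hp => simp only [map_mul, hp, aeval_X, map_X]

theorem eval_map_comp (f : R →+* R') (v : Fin n → R) (φ : Pn n R) :
    eval (f ∘ v) (map f φ) = f (eval v φ) := by
  exact (map_eval f v φ).symm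

theorem emap_itr (F : Fin n → Pn n R) (j : ℕ) (v : Fin n → R) :
    emap (itr F j) v = (emap F)^[j] v := by
  induction j with
  | zero => funext i; simp [emap, itr]
  | succ j ih =>
    funext i
    rw [Function.iterate_succ_apply', ← ih]
    exact eval_aeval _ _ _

theorem eval_aeval_itr (F : Fin n → Pn n R) (j : ℕ) (v : Fin n → R) (φ : Pn n R) :
    eval v (aeval (itr F j) φ) = eval ((emap F)^[j] v) φ := by
  rw [eval_aeval, ← emap_itr]
  rfl

theorem map_itr (f : R →+* R') (F : Fin n → Pn n R) (j : ℕ) (i : Fin n) :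
    map f (itr F j i) = itr (fun i => map f (F i)) j i := by
  induction j generalizing i with
  | zero => simp [itr]
  | succ j ih =>
    simp only [itr]
    rw [map_aeval', funext ih]

theorem itr_hom {F : Fin n → Pn n R} {d : ℕ} (hom : ∀ i, (F i).IsHomogeneous d) (j : ℕ)
    (i : Fin n) : (itr F j i).IsHomogeneous (d ^ j) := by
  induction j generalizing i with
  | zero => simpa [itr] using isHomogeneous_X R i
  | succ j ih =>
    rw [pow_succ]
    exact (hom i).aeval _ ih

theorem iterate_map (f : R →+* R') (F : Fin n → Pn n R) (j : ℕ) (v : Fin n → R) :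
    (emap fun i => map f (F i))^[j] (f ∘ v) = f ∘ (emap F)^[j] v := by
  induction j with
  | zero => rfl
  | succ j ih =>
    rw [Function.iterate_succ_apply', Function.iterate_succ_apply', ih]
    exact _root_.funext fun i => eval_map_comp f _ (F i)

theorem Pre.map (f : R →+* R') {F : Fin n → Pn n R} {v : Fin n → R} (h : Pre (emap F) v) :
    Pre (emap fun i => map f (F i)) (f ∘ v) := by
  refine (h.image fun u => f ∘ u).subset ?_
  rintro _ ⟨j, rfl⟩
  exact ⟨_, ⟨j, rfl⟩, (iterate_map f F j v).symm⟩

theorem Pre.of_map {f : R →+* R'} (hf : Function.Injective f) {F : Fin n → Pn n R}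
    {v : Fin n → R} (h : Pre (emap fun i => MvPolynomial.map f (F i)) (f ∘ v)) :
    Pre (emap F) v := by
  refine Set.Finite.of_finite_image (f := fun u : Fin n → R => f ∘ u) (h.subset ?_)
    (hf.comp_left).injOn
  rintro _ ⟨_, ⟨j, rfl⟩, rfl⟩
  exact ⟨j, iterate_map f F j v⟩

theorem Pre.iterate {X : Type} {φ : X → X} {x : X} (h : Pre φ x) (j : ℕ) : Pre φ (φ^[j] x) := by
  refine h.subset ?_
  rintro _ ⟨i, rfl⟩
  exact ⟨i + j, Function.iterate_add_apply φ i j x⟩

theorem eval_smul_hom {g : Pn n R} {e : ℕ} (hg : g.IsHomogeneous e) (c : R) (v : Fin n → R) :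
    eval (c • v) g = c ^ e * eval v g := by
  rw [eval_eq', eval_eq', Finset.mul_sum]
  refine Finset.sum_congr rfl fun m hm => ?_
  have hd : ∑ i, m i = e := by
    have := hg (mem_support_iff.1 hm)
    rw [← this, Finsupp.weight_apply, Finsupp.sum_fintype _ _ (by simp)]
    simp
  simp only [Pi.smul_apply, smul_eq_mul, mul_pow, Finset.prod_mul_distrib,
    Finset.prod_pow_eq_pow_sum, hd]
  ring

theorem iterate_smul {F : Fin n → Pn n R} {d : ℕ} (hom : ∀ i, (F i).IsHomogeneous d) (j : ℕ)
    (c : R) (v : Fin n → R) : (emap F)^[j] (c • v) = c ^ d ^ j • (emap F)^[j] v := by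
  rw [← emap_itr, ← emap_itr]
  exact _root_.funext fun i => eval_smul_hom (itr_hom hom j i) c v

theorem iterate_zero {F : Fin n → Pn n R} {d : ℕ} (hd : 1 ≤ d)
    (hom : ∀ i, (F i).IsHomogeneous d) (j : ℕ) : (emap F)^[j] 0 = 0 := by
  have := iterate_smul hom j 0 (0 : Fin n → R)
  rwa [zero_smul, zero_pow (pow_pos hd j).ne', zero_smul] at this

theorem iterate_ne_zero {F : Fin n → Pn n R} (hF : ∀ v, v ≠ 0 → emap F v ≠ 0) (j : ℕ)
    {v : Fin n → R} (hv : v ≠ 0) : (emap F)^[j] v ≠ 0 := by
  induction j with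
  | zero => exact hv
  | succ j ih =>
    rw [Function.iterate_succ_apply']
    exact hF _ ih

theorem hc_map (f : R →+* R') (e : ℕ) (g : Pn n R) :
    homogeneousComponent e (map f g) = map f (homogeneousComponent e g) := by
  ext m
  simp only [coeff_homogeneousComponent, coeff_map]
  split_ifs <;> simp

/-- write `φ` as the sum of its components (`sum_homogeneousComponent`) and use
`IsHomogeneous.aeval`, `homogeneousComponent_of_mem` -/
theorem hc_aeval {g : Fin s → Pn n R} {q : ℕ} (hq : 1 ≤ q) (hg : ∀ j, (g j).IsHomogeneous q)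
    (e : ℕ) (φ : Pn s R) :
    homogeneousComponent (q * e) (aeval g φ) = aeval g (homogeneousComponent e φ) := by
  have h : ∀ i, homogeneousComponent (q * e) (aeval g (homogeneousComponent i φ)) =
      if e = i then aeval g (homogeneousComponent i φ) else 0 := fun i => by
    rw [homogeneousComponent_of_mem (n := q * i)
      ((homogeneousComponent_isHomogeneous i φ).aeval g hg)]
    simp only [mul_right_inj' (show q ≠ 0 by omega)]
  conv_lhs => rw [← sum_homogeneousComponent φ, map_sum, map_sum]
  simp only [h, Finset.sum_ite_eq, Finset.mem_range]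
  split_ifs with he
  · rfl
  · rw [homogeneousComponent_eq_zero _ _ (by omega), map_zero]

theorem HomI.comap_aeval {I : Ideal (Pn n R)} (hI : HomI I) {g : Fin s → Pn n R} {q : ℕ}
    (hq : 1 ≤ q) (hg : ∀ j, (g j).IsHomogeneous q) :
    HomI (I.comap (aeval g : Pn s R →ₐ[R] Pn n R)) := by
  intro φ hφ e
  rw [Ideal.mem_comap] at hφ ⊢
  rw [← hc_aeval hq hg]
  exact hI _ hφ _

theorem HomI.comap_map {I : Ideal (Pn n R')} (hI : HomI I) (f : R →+* R') :
    HomI (I.comap (map f : Pn n R →+* Pn n R')) := by
  intro φ hφ e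
  rw [Ideal.mem_comap] at hφ ⊢
  rw [← hc_map]
  exact hI _ hφ _

theorem HomI.map_map {I : Ideal (Pn n R)} (hI : HomI I) {f : R →+* R'}
    (hf : Function.Surjective f) : HomI (I.map (map f : Pn n R →+* Pn n R')) := by
  intro φ hφ e
  obtain ⟨ψ, hψ, rfl⟩ := (Ideal.mem_map_iff_of_surjective _ (map_surjective f hf)).1 hφ
  rw [hc_map]
  exact Ideal.mem_map_of_mem _ (hI _ hψ _)

/-- `c ↦ g (c • v)` is a polynomial in `c` whose coefficients are the values of the components -/
theorem eval_hc_eq_zero {K : Type} [Field K] {g : Pn n K} {v : Fin n → K}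
    (h : {c : K | eval (c • v) g = 0}.Infinite) (e : ℕ) :
    eval v (homogeneousComponent e g) = 0 := by
  set P : Polynomial K := ∑ i ∈ Finset.range (g.totalDegree + 1),
    Polynomial.monomial i (eval v (homogeneousComponent i g)) with hP
  have h1 : ∀ c, P.eval c = eval (c • v) g := fun c => by
    conv_rhs => rw [← sum_homogeneousComponent g, map_sum]
    rw [hP, Polynomial.eval_finsetSum]
    refine Finset.sum_congr rfl fun i _ => ?_
    rw [Polynomial.eval_monomial, eval_smul_hom (homogeneousComponent_isHomogeneous i g), mul_comm]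
  have h2 : P = 0 := Polynomial.eq_zero_of_infinite_isRoot P (by
    simpa only [Polynomial.IsRoot, h1] using h)
  by_cases he : e < g.totalDegree + 1
  · have := congrArg (fun p => Polynomial.coeff p e) h2
    simpa [hP, Polynomial.coeff_monomial, he] using this
  · rw [homogeneousComponent_eq_zero _ _ (by omega), map_zero]

theorem eval_smul_eq_zero {K : Type} [Field K] {g : Pn n K} {v : Fin n → K}
    (h : {c : K | eval (c • v) g = 0}.Infinite) (c : K) : eval (c • v) g = 0 := by
  rw [← sum_homogeneousComponent g, map_sum]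
  refine Finset.sum_eq_zero fun i _ => ?_
  rw [eval_smul_hom (homogeneousComponent_isHomogeneous i g), eval_hc_eq_zero h, mul_zero]

theorem totalDegree_map_le (f : R →+* R') (g : Pn n R) :
    (map f g).totalDegree ≤ g.totalDegree := by
  exact Finset.sup_mono (support_map_subset f g)

theorem Cert.map {g : Fin s → Pn n R} {e M : ℕ} {H : Fin n → Fin s → Pn n R} {Q : Fin n → Pn n R}
    (h : Cert g e M H Q) (f : R →+* R') :
    Cert (fun j => map f (g j)) e M (fun i j => map f (H i j)) (fun i => map f (Q i)) := by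
  refine ⟨h.1, fun i j => (Nat.add_le_add_right (totalDegree_map_le f (H i j)) e).trans
    (h.2.1 i j), fun i => ?_⟩
  have := congrArg (MvPolynomial.map f) (h.2.2 i)
  simpa only [map_pow, map_X, map_add, map_sum, map_mul] using this

theorem Cert.of_map {g : Fin s → Pn n R} {e M : ℕ} {H : Fin n → Fin s → Pn n R}
    {Q : Fin n → Pn n R} {f : R →+* R'} (hf : Function.Injective f)
    (h : Cert (fun j => MvPolynomial.map f (g j)) e M (fun i j => MvPolynomial.map f (H i j))
      (fun i => MvPolynomial.map f (Q i))) : Cert g e M H Q := by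
  refine ⟨h.1, fun i j => ?_, fun i => map_injective f hf ?_⟩
  · have := h.2.1 i j
    rwa [totalDegree, support_map_of_injective _ hf] at this
  · simpa only [map_pow, map_X, map_add, map_sum, map_mul] using h.2.2 i

theorem map_mon (f : R →+* R') (μ : Fin n →₀ ℕ) (g : Fin s → Pn n R) (β : Fin s →₀ ℕ) :
    map f (mon μ g β) = mon μ (fun j => map f (g j)) β := by
  simp only [mon, map_mul, map_aeval', map_monomial, map_one]

theorem eval_mon (v : Fin n → R) (μ : Fin n →₀ ℕ) (g : Fin s → Pn n R) (β : Fin s →₀ ℕ) :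
    eval v (mon μ g β) = (∏ i, v i ^ μ i) * ∏ j, eval v (g j) ^ β j := by
  rw [mon, map_mul, eval_aeval, eval_monomial, eval_monomial, one_mul, one_mul,
    Finsupp.prod_fintype _ _ (by simp), Finsupp.prod_fintype _ _ (by simp)]

theorem totalDegree_mon_le (μ : Fin n →₀ ℕ) {g : Fin s → Pn n R} {q : ℕ}
    (hg : ∀ j, (g j).totalDegree ≤ q) (β : Fin s →₀ ℕ) :
    (mon μ g β).totalDegree ≤ μ.degree + q * β.degree := by
  refine (totalDegree_mul _ _).trans (add_le_add (totalDegree_monomial_le _ _) ?_)
  rw [aeval_monomial, map_one, one_mul, Finsupp.prod, Finsupp.degree_apply, Finset.mul_sum]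
  refine (totalDegree_finsetProd _ _).trans (Finset.sum_le_sum fun j _ => ?_)
  rw [mul_comm]
  exact (totalDegree_pow _ _).trans (Nat.mul_le_mul_left _ (hg j))

end Pool.Agent.Work.MP_0a826e_ag.G
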