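import Pool.Agent.Work.MP_0a826e_ag.Defs

/-!
Definitions for the reduction principle: polynomial and projective self-maps over any field, and
the reduction of a projective set at a valuation subring of the complex numbers.
-/

namespace Pool.Agent.Work.MP_0a826e_ag.G

open MvPolynomial
open scoped LinearAlgebra.Projectivization

variable {n : ℕ}

/-- The polynomial map `v ↦ (F_1(v), ..., F_n(v))`. -/
noncomputable def emap {R : Type} [CommRing R] (F : Fin n → MvPolynomial (Fin n) R)
    (v : Fin n → R) : Fin n → R :=
  fun i => eval v (F i)

/-- The self-map `[v] ↦ [F(v)]` of projective space over a field. -/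
noncomputable def pmap {K : Type} [Field K] (F : Fin n → MvPolynomial (Fin n) K)
    (hF : ∀ v, v ≠ 0 → emap F v ≠ 0) (p : ℙ K (Fin n → K)) : ℙ K (Fin n → K) :=
  Projectivization.mk K (emap F p.rep) (hF p.rep p.rep_nonzero)

/-- The reduction of `Y` at `O`: the common zeros, over the residue field, of the reductions of
all polynomials with coefficients in `O` that vanish on the cone over `Y`. -/
def redSet (O : ValuationSubring ℂ) (Y : Set (ℙ ℂ (Fin n → ℂ))) :
    Set (ℙ (IsLocalRing.ResidueField O) (Fin n → IsLocalRing.ResidueField O)) :=
  {p | ∀ g : MvPolynomial (Fin n) O, map O.subtype g ∈ idealOf Y →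
    eval p.rep (map (IsLocalRing.residue O) g) = 0}

end Pool.Agent.Work.MP_0a826e_ag.G
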