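import Pool.Agent.Work.MP_0a826e_ag.G.B
import Mathlib
import Pool.Agent.Work.MP_0a826e_ag.R.M5
import Pool.Agent.Work.MP_0a826e_ag.Closed

-- merged part: Pool.Agent.Work.MP_0a826e_ag.G.Dat0
section
/-!
The finite data describing an invariant tube, and the gain in the determinant.
-/

namespace Pool.Agent.Work.MP_0a826e_ag.G

open MvPolynomial

/-- the polynomials -/
@[ext] structure Dat (R : Type) [CommRing R] (n s t : ℕ) where
  d : ℕ
  M : ℕ
  M' : ℕ
  m0 : ℕ
  e : ℕ
  π : R
  F : Fin n → Pn n R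
  h : Fin n → Fin n → Pn n R
  l : Fin s → Pn n R
  H : Fin n → Fin s → Pn n R
  Q : Fin n → Pn n R
  p : Pn s R
  β0 : Fin s →₀ ℕ
  P : Fin t → Pn n R
  A : Fin t → Pn n R
  W : Fin t → Pn n R
  Hb : Fin t → Fin t → Pn n R
  Wb : Fin t → Pn n R
  Hc : Fin t → Pn n R
  Wc : Pn n R

variable {n s t : ℕ} {R R' : Type} [CommRing R] [CommRing R']

namespace Dat

/-- the identities -/
structure OK (D : Dat R n s t) : Prop where
  hd : 2 ≤ D.d
  he : 1 ≤ D.e
  hom : ∀ i, (D.F i).IsHomogeneous D.d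
  cF : Cert D.F D.d D.M D.h 0
  cl : Cert D.l 1 D.M' D.H D.Q
  lead : Lead D.p D.β0
  ia : ∀ i, aeval (itr D.F D.m0) (D.P i) ^ D.e = D.A i + C (D.π ^ D.e) * D.W i
  ib : ∀ i, aeval D.F (D.P i) = ∑ j, D.Hb i j * D.P j + C D.π * D.Wb i
  ic : aeval D.l D.p = ∑ j, D.Hc j * D.P j + C D.π * D.Wc

/-- change of coefficients -/
noncomputable def map (D : Dat R n s t) (f : R →+* R') : Dat R' n s t where
  d := D.d
  M := D.M
  M' := D.M'
  m0 := D.m0
  e := D.e
  π := f D.π
  F := fun i => MvPolynomial.map f (D.F i)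
  h := fun i j => MvPolynomial.map f (D.h i j)
  l := fun i => MvPolynomial.map f (D.l i)
  H := fun i j => MvPolynomial.map f (D.H i j)
  Q := fun i => MvPolynomial.map f (D.Q i)
  p := MvPolynomial.map f D.p
  β0 := D.β0
  P := fun i => MvPolynomial.map f (D.P i)
  A := fun i => MvPolynomial.map f (D.A i)
  W := fun i => MvPolynomial.map f (D.W i)
  Hb := fun i j => MvPolynomial.map f (D.Hb i j)
  Wb := fun i => MvPolynomial.map f (D.Wb i)
  Hc := fun i => MvPolynomial.map f (D.Hc i)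
  Wc := MvPolynomial.map f D.Wc

/-- the points used in the determinant -/
def Good (D : Dat R n s t) (x : Fin n → R) : Prop :=
  (∀ i, eval x (D.Q i) = 0) ∧ ∃ (y : Fin n → R) (j : ℕ), D.m0 ≤ j ∧ Pre (emap D.F) y ∧
    (∀ i, eval y (D.A i) = 0) ∧ x = (emap D.F)^[j] y

theorem map_map (D : Dat R n s t) {R'' : Type} [CommRing R''] (f : R →+* R') (g : R' →+* R'') :
    (D.map f).map g = D.map (g.comp f) := by
  simp only [Dat.map, MvPolynomial.map_map, RingHom.comp_apply]

theorem Dat0_zero (f : R →+* R') :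
    (fun i => MvPolynomial.map f ((0 : Fin n → Pn n R) i)) = (0 : Fin n → Pn n R') :=
  funext fun _ => map_zero _

theorem Dat0_ia (D : Dat R n s t) (f : R →+* R') (i : Fin t) :
    MvPolynomial.map f (aeval (itr D.F D.m0) (D.P i) ^ D.e) =
      aeval (itr (D.map f).F (D.map f).m0) ((D.map f).P i) ^ (D.map f).e ∧
    MvPolynomial.map f (D.A i + C (D.π ^ D.e) * D.W i) =
      (D.map f).A i + C ((D.map f).π ^ (D.map f).e) * (D.map f).W i := by
  simp only [Dat.map, map_pow, map_add, map_mul, map_aeval', map_itr, map_C, and_self]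

theorem Dat0_ib (D : Dat R n s t) (f : R →+* R') (i : Fin t) :
    MvPolynomial.map f (aeval D.F (D.P i)) = aeval (D.map f).F ((D.map f).P i) ∧
    MvPolynomial.map f (∑ j, D.Hb i j * D.P j + C D.π * D.Wb i) =
      ∑ j, (D.map f).Hb i j * (D.map f).P j + C (D.map f).π * (D.map f).Wb i := by
  simp only [Dat.map, map_sum, map_add, map_mul, map_aeval', map_C, and_self]

theorem Dat0_ic (D : Dat R n s t) (f : R →+* R') :
    MvPolynomial.map f (aeval D.l D.p) = aeval (D.map f).l (D.map f).p ∧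
    MvPolynomial.map f (∑ j, D.Hc j * D.P j + C D.π * D.Wc) =
      ∑ j, (D.map f).Hc j * (D.map f).P j + C (D.map f).π * (D.map f).Wc := by
  simp only [Dat.map, map_sum, map_add, map_mul, map_aeval', map_C, and_self]

theorem OK.map {D : Dat R n s t} (h : D.OK) (f : R →+* R') : (D.map f).OK := by
  refine ⟨h.hd, h.he, fun i => (h.hom i).map f, Dat0_zero f ▸ h.cF.map f, h.cl.map f,
    ⟨?_, fun β hβ => h.lead.2 β (support_map_subset f _ hβ)⟩, fun i => ?_, fun i => ?_, ?_⟩
  · exact (coeff_map f _ _).trans ((congrArg f h.lead.1).trans (map_one f))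
  · rw [← (Dat0_ia D f i).1, ← (Dat0_ia D f i).2, h.ia]
  · rw [← (Dat0_ib D f i).1, ← (Dat0_ib D f i).2, h.ib]
  · rw [← (Dat0_ic D f).1, ← (Dat0_ic D f).2, h.ic]

theorem OK.of_map {D : Dat R n s t} {f : R →+* R'} (hf : Function.Injective f)
    (h : (D.map f).OK) : D.OK := by
  refine ⟨h.hd, h.he, fun i => (h.hom i).of_map hf, Cert.of_map hf (by
      rw [Dat0_zero f]
      exact h.cF), Cert.of_map hf h.cl,
    ⟨hf ?_, fun β hβ => h.lead.2 β ((support_map_of_injective _ hf).ge hβ)⟩,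
    fun i => map_injective f hf ?_, fun i => map_injective f hf ?_, map_injective f hf ?_⟩
  · exact ((coeff_map f _ _).symm.trans h.lead.1).trans (map_one f).symm
  · rw [(Dat0_ia D f i).1, (Dat0_ia D f i).2, h.ia]
  · rw [(Dat0_ib D f i).1, (Dat0_ib D f i).2, h.ib]
  · rw [(Dat0_ic D f).1, (Dat0_ic D f).2, h.ic]

theorem Dat0_all (D : Dat R n s t) : ∃ T : Finset R, D.π ∈ T ∧ (∀ i, (D.F i).coeffs ⊆ T) ∧
    (∀ i j, (D.h i j).coeffs ⊆ T) ∧ (∀ i, (D.l i).coeffs ⊆ T) ∧ (∀ i j, (D.H i j).coeffs ⊆ T) ∧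
    (∀ i, (D.Q i).coeffs ⊆ T) ∧ D.p.coeffs ⊆ T ∧ (∀ i, (D.P i).coeffs ⊆ T) ∧
    (∀ i, (D.A i).coeffs ⊆ T) ∧ (∀ i, (D.W i).coeffs ⊆ T) ∧ (∀ i j, (D.Hb i j).coeffs ⊆ T) ∧
    (∀ i, (D.Wb i).coeffs ⊆ T) ∧ (∀ i, (D.Hc i).coeffs ⊆ T) ∧ D.Wc.coeffs ⊆ T := by
  have a : ∀ U : Finset R, ∀ᶠ T in Filter.atTop, U ⊆ T := fun U => Filter.eventually_ge_atTop U
  refine Filter.Eventually.exists (f := Filter.atTop) ?_
  simp only [Filter.eventually_and, Filter.eventually_all]
  exact ⟨(a {D.π}).mono fun _ => Finset.singleton_subset_iff.1, fun _ => a _, fun _ _ => a _,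
    fun _ => a _, fun _ _ => a _, fun _ => a _, a _, fun _ => a _, fun _ => a _, fun _ => a _,
    fun _ _ => a _, fun _ => a _, fun _ => a _, a _⟩

theorem Dat0_lift {S E σ : Type} [CommRing S] [CommRing E] {f : R →+* E} {ι : S →+* E}
    {T : Finset R} (hT : ∀ a ∈ T, f a ∈ Set.range ι) {g : MvPolynomial σ R} (hg : g.coeffs ⊆ T) :
    ∃ g', MvPolynomial.map ι g' = MvPolynomial.map f g := by
  classical
  refine mem_range_map_iff_coeffs_subset.2 fun c hc => ?_
  obtain ⟨a, ha, rfl⟩ := Finset.mem_image.1 (coeffs_map f g hc)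
  exact hT a (hg ha)

theorem Dat0_fix {σ : Type} {τ : R →+* R} {T : Finset R} (hT : ∀ a ∈ T, τ a = a)
    {g : MvPolynomial σ R} (hg : g.coeffs ⊆ T) : MvPolynomial.map τ g = g := by
  ext m
  rw [coeff_map]
  by_cases h : coeff m g = 0
  · rw [h, map_zero]
  · exact hT _ (hg (coeff_mem_coeffs m h))

/-- `T` is the set of all coefficients (`MvPolynomial.coeffs`) together with `π`; use
`MvPolynomial.mem_range_map_iff_coeffs_subset` -/
theorem exists_coeffs (D : Dat R n s t) : ∃ T : Finset R, D.π ∈ T ∧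
    ∀ (S E : Type) [CommRing S] [CommRing E] (f : R →+* E) (ι : S →+* E),
      (∀ a ∈ T, f a ∈ Set.range ι) → ∃ D' : Dat S n s t, D'.map ι = D.map f := by
  obtain ⟨T, h0, h1, h2, h3, h4, h5, h6, h7, h8, h9, h10, h11, h12, h13⟩ := Dat0_all D
  refine ⟨T, h0, fun S E _ _ f ι hT => ?_⟩
  obtain ⟨g0, e0⟩ := hT _ h0
  choose g1 e1 using fun i => Dat0_lift hT (h1 i)
  choose g2 e2 using fun i j => Dat0_lift hT (h2 i j)
  choose g3 e3 using fun i => Dat0_lift hT (h3 i)
  choose g4 e4 using fun i j => Dat0_lift hT (h4 i j)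
  choose g5 e5 using fun i => Dat0_lift hT (h5 i)
  obtain ⟨g6, e6⟩ := Dat0_lift hT h6
  choose g7 e7 using fun i => Dat0_lift hT (h7 i)
  choose g8 e8 using fun i => Dat0_lift hT (h8 i)
  choose g9 e9 using fun i => Dat0_lift hT (h9 i)
  choose g10 e10 using fun i j => Dat0_lift hT (h10 i j)
  choose g11 e11 using fun i => Dat0_lift hT (h11 i)
  choose g12 e12 using fun i => Dat0_lift hT (h12 i)
  obtain ⟨g13, e13⟩ := Dat0_lift hT h13
  refine ⟨⟨D.d, D.M, D.M', D.m0, D.e, g0, g1, g2, g3, g4, g5, g6, D.β0, g7, g8, g9, g10, g11, g12,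
    g13⟩, ?_⟩
  simp only [Dat.map, e0, e1, e2, e3, e4, e5, e6, e7, e8, e9, e10, e11, e12, e13]

/-- `T` is the set of all coefficients of `F`, `Q`, `A` -/
theorem exists_fix (D : Dat R n s t) : ∃ T : Finset R, ∀ τ : R →+* R, (∀ a ∈ T, τ a = a) →
    (∀ i, MvPolynomial.map τ (D.F i) = D.F i) ∧ ∀ x, D.Good x → D.Good (τ ∘ x) := by
  obtain ⟨T, -, h1, -, -, -, h5, -, -, h8, -⟩ := Dat0_all D
  refine ⟨T, fun τ hT => ⟨fun i => Dat0_fix hT (h1 i), ?_⟩⟩
  rintro x ⟨hx, y, j, hj, hp, hA, e⟩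
  have eF : (fun i => MvPolynomial.map τ (D.F i)) = D.F := funext fun i => Dat0_fix hT (h1 i)
  refine ⟨fun i => ?_, τ ∘ y, j, hj, eF ▸ hp.map τ, fun i => ?_, ?_⟩
  · rw [← Dat0_fix hT (h5 i), eval_map_comp, hx, map_zero]
  · rw [← Dat0_fix hT (h8 i), eval_map_comp, hA, map_zero]
  · rw [e, ← iterate_map, eF]

theorem Good.pre {D : Dat R n s t} {x : Fin n → R} (h : D.Good x) : Pre (emap D.F) x := by
  obtain ⟨-, y, j, -, hp, -, rfl⟩ := h
  exact hp.iterate j

theorem Good.of_map {D : Dat R n s t} {f : R →+* R'} (hf : Function.Injective f)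
    (hy : ∀ y, Pre (emap (D.map f).F) y → ∃ y', f ∘ y' = y) {x : Fin n → R'}
    (h : (D.map f).Good x) : ∃ x', D.Good x' ∧ f ∘ x' = x := by
  obtain ⟨hx, y, j, hj, hp, hA, e⟩ := h
  obtain ⟨y, rfl⟩ := hy y hp
  have e' : f ∘ (emap D.F)^[j] y = x := (iterate_map f D.F j y).symm.trans e.symm
  refine ⟨_, ⟨fun i => hf ?_, y, j, hj, Pre.of_map hf hp, fun i => hf ?_, rfl⟩, e'⟩
  · rw [← eval_map_comp, e', map_zero]
    exact hx i
  · rw [← eval_map_comp, map_zero]
    exact hA i

end Dat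

end Pool.Agent.Work.MP_0a826e_ag.G
end

-- merged part: Pool.Agent.Work.MP_0a826e_ag.G.Exp1
section
/-!
Expansion of polynomials along a certificate, and division by a polynomial with a leading monomial.
-/

namespace Pool.Agent.Work.MP_0a826e_ag.G

open MvPolynomial

variable {n s : ℕ} {R : Type} [CommRing R]

/-- the target submodule -/
noncomputable def Exp1_W (g : Fin s → Pn n R) (e M : ℕ) (Q : Fin n → Pn n R) (D : ℕ) :
    Submodule R (Pn n R) :=
  Submodule.span R {ψ | ∃ (μ : Fin n →₀ ℕ) (β : Fin s →₀ ℕ), (∀ i, μ i < M) ∧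
      μ.degree + e * β.degree ≤ D ∧ ψ = mon μ g β} ⊔
    (Ideal.span (Set.range Q)).restrictScalars R

theorem Exp1_mul {g : Fin s → Pn n R} {e M D : ℕ} {Q : Fin n → Pn n R} (j : Fin s) {φ : Pn n R}
    (h : φ ∈ Exp1_W g e M Q D) : g j * φ ∈ Exp1_W g e M Q (D + e) := by
  obtain ⟨a, ha, b, hb, rfl⟩ := Submodule.mem_sup.1 h
  rw [mul_add]
  refine add_mem ?_ (Submodule.mem_sup_right (Ideal.mul_mem_left _ _ hb))
  clear h
  induction ha using Submodule.span_induction with
  | mem x hx =>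
    obtain ⟨μ, β, h1, h2, rfl⟩ := hx
    refine Submodule.mem_sup_left (Submodule.subset_span ⟨μ, β + Finsupp.single j 1, h1, ?_, ?_⟩)
    · rw [map_add, Finsupp.degree_single, mul_add]
      omega
    · rw [mon, mon, monomial_add_single, map_mul, pow_one, aeval_X]
      ring
  | zero => rw [mul_zero]; exact zero_mem _
  | add x y _ _ hx hy => rw [mul_add]; exact add_mem hx hy
  | smul c x _ hx => rw [mul_smul_comm]; exact Submodule.smul_mem _ _ hx

theorem Exp1_expand {g : Fin s → Pn n R} {e M : ℕ} {H : Fin n → Fin s → Pn n R}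
    {Q : Fin n → Pn n R} (he : 1 ≤ e) (hc : Cert g e M H Q) (D : ℕ) :
    ∀ φ : Pn n R, φ.totalDegree ≤ D → φ ∈ Exp1_W g e M Q D := by
  induction D using Nat.strong_induction_on with
  | _ D ih =>
  intro φ hφ
  rw [φ.as_sum]
  refine Submodule.sum_mem _ fun γ hγ => ?_
  have hd : γ.degree ≤ D := (le_totalDegree hγ).trans hφ
  have e1 : monomial γ (coeff γ φ) = coeff γ φ • (monomial γ 1 : Pn n R) := by
    rw [smul_monomial, smul_eq_mul, mul_one]
  rw [e1]
  refine Submodule.smul_mem _ _ ?_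
  by_cases hM : ∀ i, γ i < M
  · refine Submodule.mem_sup_left (Submodule.subset_span ⟨γ, 0, hM, by simpa using hd, ?_⟩)
    simp [mon]
  · push Not at hM
    obtain ⟨i, hi⟩ := hM
    obtain ⟨γ', rfl⟩ : ∃ γ', γ = γ' + Finsupp.single i M :=
      ⟨γ - Finsupp.single i M, (tsub_add_cancel_of_le (Finsupp.single_le_iff.2 hi)).symm⟩
    rw [map_add, Finsupp.degree_single] at hd
    rw [monomial_add_single, hc.2.2 i, mul_add, Finset.mul_sum]
    refine add_mem (Submodule.sum_mem _ fun j _ => ?_)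
      (Submodule.mem_sup_right (Ideal.mul_mem_left _ _ (Ideal.subset_span ⟨i, rfl⟩)))
    have h1 := hc.2.1 i j
    have h2 : (monomial γ' (1 : R) * H i j).totalDegree ≤ D - e := by
      have h3 := totalDegree_mul (monomial γ' (1 : R)) (H i j)
      have h4 : (monomial γ' (1 : R)).totalDegree ≤ γ'.degree := totalDegree_monomial_le _ _
      omega
    have h5 := Exp1_mul j (ih (D - e) (by omega) _ h2)
    rw [Nat.sub_add_cancel (by omega)] at h5
    rw [mul_left_comm]
    exact h5

/-- Strong induction on `D`, for monomials `γ` of degree at most `D`.  If `γ i ≥ M`, then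
`X ^ γ = ∑ g j * (X ^ γ' * H i j) + X ^ γ' * Q i` with `γ = γ' + single i M`, and
`X ^ γ' * H i j` has degree at most `D - e`. -/
theorem expand {g : Fin s → Pn n R} {e M : ℕ} {H : Fin n → Fin s → Pn n R} {Q : Fin n → Pn n R}
    (he : 1 ≤ e) (hc : Cert g e M H Q) (D : ℕ) (φ : Pn n R) (hφ : φ.totalDegree ≤ D) :
    φ ∈ Submodule.span R {ψ | ∃ (μ : Fin n →₀ ℕ) (β : Fin s →₀ ℕ), (∀ i, μ i < M) ∧
        μ.degree + e * β.degree ≤ D ∧ ψ = mon μ g β} ⊔
      (Ideal.span (Set.range Q)).restrictScalars R :=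
  Exp1_expand he hc D φ hφ

/-- the images of the finitely many monomials with exponents less than `M` generate `S` -/
theorem finite_of_cert {g : Fin s → Pn n R} {e M : ℕ} {H : Fin n → Fin s → Pn n R}
    {Q : Fin n → Pn n R} (he : 1 ≤ e) (hc : Cert g e M H Q) {S : Type} [CommRing S]
    (ψ : Pn n R →+* S) (hψ : Function.Surjective ψ) (hQ : ∀ i, ψ (Q i) = 0) :
    (ψ.comp (aeval g : Pn s R →ₐ[R] Pn n R).toRingHom).Finite := by
  let _ := (ψ.comp (aeval g : Pn s R →ₐ[R] Pn n R).toRingHom).toAlgebra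
  have hs : ∀ (a : Pn s R) (x : S), a • x = ψ (aeval g a) * x := fun _ _ => rfl
  let v : (Fin n → Fin M) → S := fun f =>
    ψ (monomial (Finsupp.equivFunOnFinite.symm fun i => (f i : ℕ)) 1)
  have hv : Submodule.span (Pn s R) (Set.range v) = ⊤ := by
    refine eq_top_iff.2 fun x _ => ?_
    obtain ⟨φ, rfl⟩ := hψ x
    obtain ⟨a, ha, b, hb, rfl⟩ := Submodule.mem_sup.1 (expand he hc _ φ le_rfl)
    have hb' : ψ b = 0 := by
      have : Ideal.span (Set.range Q) ≤ RingHom.ker ψ :=
        Ideal.span_le.2 (by rintro _ ⟨i, rfl⟩; exact hQ i)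
      exact this hb
    rw [map_add, hb', add_zero]
    refine Submodule.span_induction (p := fun a _ => ψ a ∈ Submodule.span (Pn s R) (Set.range v))
      ?_ ?_ ?_ ?_ ha
    · rintro _ ⟨μ, β, h1, -, rfl⟩
      rw [mon, map_mul, mul_comm, ← hs]
      refine Submodule.smul_mem _ _ (Submodule.subset_span ⟨fun i => ⟨μ i, h1 i⟩, ?_⟩)
      simp [v]
    · rw [map_zero]
      exact zero_mem _
    · intro x y _ _ hx hy
      rw [map_add]
      exact add_mem hx hy
    · intro c x _ hx
      have : ψ (c • x) = (C c : Pn s R) • ψ x := by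
        rw [hs, aeval_C, ← map_mul, Algebra.smul_def]
      rw [this]
      exact Submodule.smul_mem _ _ hx
  exact ⟨hv ▸ Submodule.fg_span (Set.finite_range v)⟩

end Pool.Agent.Work.MP_0a826e_ag.G
end

-- merged part: Pool.Agent.Work.MP_0a826e_ag.G.Exp2
section
/-!
Expansion of polynomials along a certificate, and division by a polynomial with a leading monomial.
-/

namespace Pool.Agent.Work.MP_0a826e_ag.G

open MvPolynomial

variable {n s : ℕ} {R : Type} [CommRing R]

/-- the span appearing in `divide`, for a degree bound `d` -/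
noncomputable def Exp2_S (p : Pn s R) (β0 : Fin s →₀ ℕ) (d : ℕ) : Submodule R (Pn s R) :=
  Submodule.span R {ψ | ∃ (a : ℕ) (β' : Fin s →₀ ℕ), ¬ β0 ≤ β' ∧
    a + β'.degree ≤ d ∧ ψ = p ^ a * monomial β' 1}

theorem Exp2_mono (p : Pn s R) (β0 : Fin s →₀ ℕ) {d d' : ℕ} (h : d ≤ d') :
    Exp2_S p β0 d ≤ Exp2_S p β0 d' := by
  apply Submodule.span_mono
  rintro ψ ⟨a, β', h1, h2, h3⟩
  exact ⟨a, β', h1, h2.trans h, h3⟩

theorem Exp2_mul (p : Pn s R) (β0 : Fin s →₀ ℕ) {d : ℕ} {ψ : Pn s R} (h : ψ ∈ Exp2_S p β0 d) :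
    p * ψ ∈ Exp2_S p β0 (d + 1) := by
  induction h using Submodule.span_induction with
  | mem x hx =>
    obtain ⟨a, β', h1, h2, rfl⟩ := hx
    exact Submodule.subset_span ⟨a + 1, β', h1, by omega, by ring⟩
  | zero => rw [mul_zero]; exact Submodule.zero_mem _
  | add x y _ _ hx hy => rw [mul_add]; exact Submodule.add_mem _ hx hy
  | smul c x _ hx => rw [mul_smul_comm]; exact Submodule.smul_mem _ c hx

theorem Exp2_lt {p : Pn s R} {β0 : Fin s →₀ ℕ} (hp : Lead p β0) {β : Fin s →₀ ℕ}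
    (hβ : β ∈ (p - monomial β0 1).support) : toDegLex β < toDegLex β0 := by
  classical
  rw [mem_support_iff, coeff_sub, coeff_monomial] at hβ
  have hne : β0 ≠ β := by
    rintro rfl
    rw [if_pos rfl, hp.1, sub_self] at hβ
    exact hβ rfl
  rw [if_neg hne, sub_zero] at hβ
  exact lt_of_le_of_ne (hp.2 β (mem_support_iff.2 hβ))
    fun h => hne (toDegLex_injective h).symm

theorem Exp2_divide {p : Pn s R} {β0 : Fin s →₀ ℕ} (hp : Lead p β0) (h0 : β0 ≠ 0)
    (x : DegLex (Fin s →₀ ℕ)) :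
    (monomial (ofDegLex x) 1 : Pn s R) ∈ Exp2_S p β0 (ofDegLex x).degree := by
  induction x using WellFoundedLT.induction with
  | ind x ih =>
  by_cases hle : β0 ≤ ofDegLex x
  · obtain ⟨γ, hγ⟩ := exists_add_of_le hle
    have hd0 : 0 < β0.degree := Nat.pos_of_ne_zero fun h => h0 ((Finsupp.degree_eq_zero_iff _).1 h)
    have hdeg : (ofDegLex x).degree = β0.degree + γ.degree := by rw [hγ, map_add]
    have hx : x = toDegLex β0 + toDegLex γ := by
      rw [← toDegLex_add, ← hγ, toDegLex_ofDegLex]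
    have h1 : p * monomial γ 1 ∈ Exp2_S p β0 (ofDegLex x).degree := by
      have hlt : toDegLex γ < x := by
        rw [Finsupp.DegLex.lt_iff]
        left
        rw [ofDegLex_toDegLex]
        omega
      have h2 := ih _ hlt
      rw [ofDegLex_toDegLex] at h2
      exact Exp2_mono p β0 (by omega) (Exp2_mul p β0 h2)
    have h3 : (p - monomial β0 1) * monomial γ 1 ∈ Exp2_S p β0 (ofDegLex x).degree := by
      rw [MvPolynomial.as_sum (p - monomial β0 1), Finset.sum_mul]
      refine Submodule.sum_mem _ fun β' hβ' => ?_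
      have hlt : toDegLex (β' + γ) < x := by
        rw [hx, toDegLex_add]
        exact add_lt_add_left (Exp2_lt hp hβ') _
      have h4 := ih _ hlt
      rw [ofDegLex_toDegLex] at h4
      have h5 : (β' + γ).degree ≤ (ofDegLex x).degree :=
        Finsupp.DegLex.monotone_degree hlt.le
      have h6 : (monomial β' (coeff β' (p - monomial β0 1)) * monomial γ 1 : Pn s R) =
          coeff β' (p - monomial β0 1) • monomial (β' + γ) 1 := by
        rw [monomial_mul, smul_monomial, mul_one, smul_eq_mul, mul_one]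
      rw [h6]
      exact Submodule.smul_mem _ _ (Exp2_mono p β0 h5 h4)
    have h7 : (monomial (ofDegLex x) 1 : Pn s R) =
        p * monomial γ 1 - (p - monomial β0 1) * monomial γ 1 := by
      rw [hγ, ← sub_mul, sub_sub_cancel, monomial_mul, mul_one]
    rw [h7]
    exact Submodule.sub_mem _ h1 h3
  · exact Submodule.subset_span ⟨0, ofDegLex x, hle, by omega, by rw [pow_zero, one_mul]⟩

/-- Well founded induction on `toDegLex β`.  If `β = β0 + γ`, then `X ^ β = X ^ γ * p - ∑ c * X ^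
(γ + β')` over the other exponents `β'` of `p`; use `Finsupp.DegLex.monotone_degree`. -/
theorem divide {p : Pn s R} {β0 : Fin s →₀ ℕ} (hp : Lead p β0) (h0 : β0 ≠ 0) (β : Fin s →₀ ℕ) :
    (monomial β 1 : Pn s R) ∈ Submodule.span R {ψ | ∃ (a : ℕ) (β' : Fin s →₀ ℕ), ¬ β0 ≤ β' ∧
      a + β'.degree ≤ β.degree ∧ ψ = p ^ a * monomial β' 1} := by
  exact Exp2_divide hp h0 (toDegLex β)

theorem Lead.eq_one {p : Pn s R} (hp : Lead p 0) : p = 1 := by
  have h : (p - monomial 0 1).support = ∅ := by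
    refine Finset.eq_empty_of_forall_notMem fun β hβ => ?_
    exact absurd (Exp2_lt hp hβ) (not_lt.2 (bot_le (α := DegLex (Fin s →₀ ℕ))))
  rw [support_eq_empty, sub_eq_zero] at h
  rw [h]
  rfl

/-- `β0` is the maximum of the support for `toDegLex`; scale by the inverse of the coefficient,
lift the coefficient `1` to `1` and the others along the support -/
theorem exists_lead {K : Type} [Field K] {f : R →+* K} (hf : Function.Surjective f) {q : Pn s K}
    (hq : q ≠ 0) : ∃ (p : Pn s R) (β0 : Fin s →₀ ℕ) (c : K), Lead p β0 ∧ map f p = C c * q := by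
  classical
  obtain ⟨β0, hβ0, hmax⟩ := q.support.exists_max_image (fun β => toDegLex β)
    (support_nonempty.2 hq)
  have hc : coeff β0 q ≠ 0 := mem_support_iff.1 hβ0
  let g : (Fin s →₀ ℕ) → R := fun β =>
    if β = β0 then 1 else Function.surjInv hf ((coeff β0 q)⁻¹ * coeff β q)
  have hg : ∀ β, f (g β) = (coeff β0 q)⁻¹ * coeff β q := by
    intro β
    by_cases h : β = β0
    · simp only [g, if_pos h, map_one]
      rw [h, inv_mul_cancel₀ hc]
    · simp only [g, if_neg h]
      exact Function.surjInv_eq hf _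
  have hco : ∀ β, coeff β (∑ γ ∈ q.support, monomial γ (g γ) : Pn s R) =
      if β ∈ q.support then g β else 0 := by
    intro β
    rw [coeff_sum]
    simp only [coeff_monomial]
    rw [Finset.sum_ite_eq']
  refine ⟨∑ γ ∈ q.support, monomial γ (g γ), β0, (coeff β0 q)⁻¹, ⟨?_, fun β hβ => ?_⟩, ?_⟩
  · rw [hco, if_pos hβ0]
    simp only [g, if_true]
  · rw [mem_support_iff, hco] at hβ
    by_cases h : β ∈ q.support
    · exact hmax β h
    · rw [if_neg h] at hβ
      exact absurd rfl hβ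
  · ext β
    rw [coeff_map, hco, coeff_C_mul]
    by_cases h : β ∈ q.support
    · rw [if_pos h, hg]
    · rw [if_neg h, map_zero, notMem_support_iff.1 h, mul_zero]

end Pool.Agent.Work.MP_0a826e_ag.G
end

-- merged part: Pool.Agent.Work.MP_0a826e_ag.G.Exp
section
/-!
Expansion of polynomials along a certificate, and division by a polynomial with a leading monomial.
-/

namespace Pool.Agent.Work.MP_0a826e_ag.G

open MvPolynomial

variable {n s : ℕ} {R : Type} [CommRing R]

/-- the exponents of the variables and of the linear forms -/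
abbrev Idx (n s M D : ℕ) (β0 : Fin s →₀ ℕ) :=
  (Fin n → Fin M) × {β : Fin s → Fin (D + 1) // ∃ j, (β j : ℕ) < β0 j}

theorem Exp_card (s D : ℕ) (β0 : Fin s →₀ ℕ) :
    Fintype.card {β : Fin s → Fin (D + 1) // ∃ j, (β j : ℕ) < β0 j} * (D + 1) ≤
      β0.degree * (D + 1) ^ s := by
  classical
  let f : {β : Fin s → Fin (D + 1) // ∃ j, (β j : ℕ) < β0 j} × Fin (D + 1) →
      (Σ j : Fin s, Fin (β0 j)) × (Fin s → Fin (D + 1)) := fun z =>
    (⟨z.1.2.choose, ⟨z.1.1 z.1.2.choose, z.1.2.choose_spec⟩⟩,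
      Function.update z.1.1 z.1.2.choose z.2)
  have key : ∀ (j j' : Fin s) (β β' : Fin s → Fin (D + 1)) (t t' : Fin (D + 1))
      (h : (β j : ℕ) < β0 j) (h' : (β' j' : ℕ) < β0 j'),
      (⟨j, ⟨β j, h⟩⟩ : Σ j : Fin s, Fin (β0 j)) = ⟨j', ⟨β' j', h'⟩⟩ →
      Function.update β j t = Function.update β' j' t' → β = β' ∧ t = t' := by
    intro j j' β β' t t' h h' e1 e2
    have ej : j = j' := congrArg Sigma.fst e1
    subst ej
    have e3 : (⟨β j, h⟩ : Fin (β0 j)) = ⟨β' j, h'⟩ := eq_of_heq (Sigma.mk.inj e1).2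
    have e4 : β j = β' j := Fin.ext (Fin.mk.inj e3)
    refine ⟨funext fun k => ?_, ?_⟩
    · by_cases hk : k = j
      · rw [hk]; exact e4
      · have := congrFun e2 k
        rwa [Function.update_of_ne hk, Function.update_of_ne hk] at this
    · have := congrFun e2 j
      rwa [Function.update_self, Function.update_self] at this
  have hf : Function.Injective f := by
    intro z z' e
    obtain ⟨e1, e2⟩ := key _ _ _ _ _ _ _ _ (congrArg Prod.fst e) (congrArg Prod.snd e)
    exact Prod.ext (Subtype.ext e1) e2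
  have h := Fintype.card_le_of_injective f hf
  rw [Fintype.card_prod, Fintype.card_prod, Fintype.card_sigma, Fintype.card_fun,
    Fintype.card_fin, Fintype.card_fin] at h
  simp only [Fintype.card_fin] at h
  rw [Finsupp.degree_eq_sum]
  exact h

/-- the exponent vectors with `β j < β0 j` number at most `β0 j * (D + 1) ^ (s - 1)` -/
theorem card_idx (n s M D : ℕ) (β0 : Fin s →₀ ℕ) :
    Fintype.card (Idx n s M D β0) * (D + 1) ≤ M ^ n * β0.degree * (D + 1) ^ s := by
  have h := Exp_card s D β0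
  rw [Fintype.card_prod, Fintype.card_fun, Fintype.card_fin, Fintype.card_fin, mul_assoc,
    mul_assoc]
  exact Nat.mul_le_mul_left _ h

/-- `expand` with `e = 1`, then `divide` mapped by `aeval l`; finally
`Submodule.mem_span_range_iff_exists_fun` -/
theorem expand2 {l : Fin s → Pn n R} {M : ℕ} {H : Fin n → Fin s → Pn n R} {Q : Fin n → Pn n R}
    (hc : Cert l 1 M H Q) {p : Pn s R} {β0 : Fin s →₀ ℕ} (hp : Lead p β0) (h0 : β0 ≠ 0) (D : ℕ)
    (φ : Pn n R) (hφ : φ.totalDegree ≤ D) :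
    ∃ c : Fin (D + 1) × Idx n s M D β0 → R, ∀ x : Fin n → R, (∀ i, eval x (Q i) = 0) →
      eval x φ = ∑ a, c a * (eval x (aeval l p) ^ (a.1 : ℕ) *
        ((∏ i, x i ^ (a.2.1 i : ℕ)) * ∏ j, eval x (l j) ^ (a.2.2.1 j : ℕ))) := by
  classical
  let b : Fin (D + 1) × Idx n s M D β0 → (Fin n → R) → R := fun a x =>
    eval x (aeval l p) ^ (a.1 : ℕ) *
      ((∏ i, x i ^ (a.2.1 i : ℕ)) * ∏ j, eval x (l j) ^ (a.2.2.1 j : ℕ))
  let N : Submodule R (Pn n R) :=
    { carrier := {ψ | ∃ c : Fin (D + 1) × Idx n s M D β0 → R, ∀ x : Fin n → R,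
        (∀ i, eval x (Q i) = 0) → eval x ψ = ∑ a, c a * b a x}
      add_mem' := by
        rintro ψ ψ' ⟨c, h⟩ ⟨c', h'⟩
        refine ⟨c + c', fun x hx => ?_⟩
        rw [map_add, h x hx, h' x hx, ← Finset.sum_add_distrib]
        exact Finset.sum_congr rfl fun a _ => by rw [Pi.add_apply, add_mul]
      zero_mem' := ⟨0, fun x _ => by simp⟩
      smul_mem' := by
        rintro r ψ ⟨c, h⟩
        refine ⟨r • c, fun x hx => ?_⟩
        rw [smul_eval, h x hx, Finset.mul_sum]
        exact Finset.sum_congr rfl fun a _ => by rw [Pi.smul_apply, smul_eq_mul, mul_assoc] }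
  have hN : φ ∈ N := by
    refine (sup_le ?_ ?_ : _ ≤ N) (expand le_rfl hc D φ hφ)
    · rw [Submodule.span_le]
      rintro _ ⟨μ, β, hμ, hdeg, rfl⟩
      let L : Pn s R →ₗ[R] Pn n R :=
        (LinearMap.mulLeft R (monomial μ (1 : R))).comp (aeval l : Pn s R →ₐ[R] Pn n R).toLinearMap
      have hL : ∀ ψ, L ψ = monomial μ (1 : R) * aeval l ψ := fun ψ => rfl
      have hle : Submodule.span R {ψ | ∃ (a : ℕ) (β' : Fin s →₀ ℕ), ¬ β0 ≤ β' ∧
          a + β'.degree ≤ β.degree ∧ ψ = p ^ a * monomial β' 1} ≤ N.comap L := by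
        rw [Submodule.span_le]
        rintro _ ⟨a, β', hβ', hd, rfl⟩
        have ha : a < D + 1 := by omega
        have hb : ∀ j, β' j < D + 1 := fun j => by
          have := Finsupp.le_degree j β'
          omega
        have hj : ∃ j, β' j < β0 j := by
          by_contra hne
          exact hβ' fun j => not_lt.mp fun hlt => hne ⟨j, hlt⟩
        let a0 : Fin (D + 1) × Idx n s M D β0 :=
          (⟨a, ha⟩, (fun i => ⟨μ i, hμ i⟩, ⟨fun j => ⟨β' j, hb j⟩, hj⟩))
        refine ⟨Pi.single a0 1, fun x _ => ?_⟩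
        rw [Finset.sum_eq_single a0 (fun a' _ hne => by rw [Pi.single_eq_of_ne hne, zero_mul])
          (fun hna => absurd (Finset.mem_univ _) hna), Pi.single_eq_same, one_mul, hL]
        have e : monomial μ (1 : R) * aeval l (p ^ a * monomial β' (1 : R)) =
            aeval l p ^ a * mon μ l β' := by
          rw [map_mul, map_pow, mul_left_comm]
          rfl
        rw [e, map_mul, map_pow, eval_mon]
      exact hle (divide hp h0 β)
    · intro ψ hψ
      refine ⟨0, fun x hx => ?_⟩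
      have hk : Ideal.span (Set.range Q) ≤ RingHom.ker (eval x) := by
        rw [Ideal.span_le]
        rintro _ ⟨i, rfl⟩
        exact hx i
      have h1 : eval x ψ = 0 := hk hψ
      simp [h1]
  exact hN

end Pool.Agent.Work.MP_0a826e_ag.G
end

-- merged part: Pool.Agent.Work.MP_0a826e_ag.G.Det
section
/-!
Determinants: divisibility, nonzero minors, and the choice of the constants.
-/

namespace Pool.Agent.Work.MP_0a826e_ag.G

/-- Expand by multilinearity in the rows (`Matrix.detRowAlternating`, `MultilinearMap.map_sum`).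
A map `ι → κ` that is not injective contributes zero; for an injective map at least
`card ι - N` rows carry a factor `π ^ a s` with `A ≤ a s`. -/
theorem det_dvd {V ι κ : Type} [CommRing V] [Fintype ι] [DecidableEq ι] [Fintype κ] (π : V)
    (a : κ → ℕ) (c : ι → κ → V) (m : κ → ι → V) (A N : ℕ)
    (hN : (Finset.univ.filter fun s => a s < A).card ≤ N) :
    π ^ (A * (Fintype.card ι - N)) ∣
      (Matrix.of fun i l => ∑ s, c i s * (π ^ a s * m s l)).det := by
  classical
  have e : (Matrix.of fun i l => ∑ s, c i s * (π ^ a s * m s l)).det =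
      (Matrix.detRowAlternating (n := ι) (R := V)).toMultilinearMap
        fun i => ∑ s, (c i s * π ^ a s) • m s := by
    refine congrArg Matrix.det (Matrix.ext fun i l => ?_)
    simp [Finset.sum_apply, mul_assoc]
  rw [e, MultilinearMap.map_sum]
  refine Finset.dvd_sum fun p _ => ?_
  rw [MultilinearMap.map_smul_univ]
  by_cases hp : Function.Injective p
  · rw [smul_eq_mul, Finset.prod_mul_distrib, Finset.prod_pow_eq_pow_sum]
    refine ((pow_dvd_pow π ?_).mul_left _).mul_right _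
    have h1 : (Finset.univ.filter fun i => a (p i) < A).card ≤ N :=
      (Finset.card_le_card_of_injOn p (fun i hi => by simpa using hi) hp.injOn).trans hN
    have h2 := Finset.card_filter_add_card_filter_not (s := Finset.univ) fun i => a (p i) < A
    rw [Finset.card_univ] at h2
    have h3 := Finset.card_nsmul_le_sum (Finset.univ.filter fun i => ¬ a (p i) < A)
      (fun i => a (p i)) A fun i hi => not_lt.1 (Finset.mem_filter.1 hi).2
    refine le_trans ?_ (h3.trans (Finset.sum_le_sum_of_subset (Finset.filter_subset _ _)))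
    rw [smul_eq_mul, mul_comm]
    exact Nat.mul_le_mul_right _ (by omega)
  · obtain ⟨i, j, hij, ne⟩ := Function.not_injective_iff.1 hp
    have : (Matrix.detRowAlternating (n := ι) (R := V)).toMultilinearMap (fun i => m (p i)) = 0 :=
      AlternatingMap.map_eq_zero_of_eq _ _ (congrArg m hij) ne
    rw [this, smul_zero]
    exact dvd_zero _

theorem Det_span {K X ι : Type} [Field K] [Fintype ι] [DecidableEq ι] (v : X → ι → K)
    (h : Submodule.span K (Set.range v) = ⊤) :
    ∃ x : ι → X, (Matrix.of fun l i => v (x l) i).det ≠ 0 := by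
  obtain ⟨κ, a, -, h1, h2⟩ := exists_linearIndependent' K v
  let e := (Module.Basis.mk h2 (h1.trans h).ge).indexEquiv (Pi.basisFun K ι)
  refine ⟨a ∘ e.symm, isUnit_iff_ne_zero.1 ((Matrix.isUnit_iff_isUnit_det _).1
    (Matrix.linearIndependent_rows_iff_isUnit.1 ?_))⟩
  exact h2.comp e.symm e.symm.injective

/-- The vectors `(u i x)_i`, `x : X`, span `ι → K` (a linear functional killing them is a
relation between the `u i`), so a basis can be chosen among them. -/
theorem exists_points {K X ι : Type} [Field K] [Fintype ι] [DecidableEq ι] (u : ι → X → K)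
    (hu : LinearIndependent K u) :
    ∃ x : ι → X, (Matrix.of fun i l => u i (x l)).det ≠ 0 := by
  obtain ⟨x, hx⟩ := Det_span (fun (x : X) i => u i x) (by
    by_contra h
    obtain ⟨φ, h0, hφ⟩ := Submodule.exists_le_ker_of_lt_top _ (lt_top_iff_ne_top.2 h)
    have := Fintype.linearIndependent_iff.1 hu (fun i => φ (Pi.single i 1)) (funext fun x => by
      have := hφ (Submodule.subset_span ⟨x, rfl⟩)
      rw [LinearMap.mem_ker, LinearMap.pi_apply_eq_sum_univ] at this
      rw [Finset.sum_apply, Pi.zero_apply, ← this]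
      refine Finset.sum_congr rfl fun i _ => ?_
      rw [Pi.smul_apply, smul_eq_mul, smul_eq_mul, mul_comm]
      refine congrArg (fun v => u i x * φ v) (funext fun j => ?_)
      rw [Pi.single_apply]
      exact if_congr eq_comm rfl rfl)
    exact h0 ((Pi.basisFun K ι).ext fun i => by simpa using this i))
  exact ⟨x, by rwa [← Matrix.det_transpose]⟩

/-- With `x` from `exists_points`, the restrictions `l ↦ f a (x l)` span `ι → K`, so a basis can
be chosen among them. -/
theorem exists_minor {K X ι κ : Type} [Field K] [Fintype ι] [DecidableEq ι] (f : κ → X → K)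
    (u : ι → X → K) (hu : LinearIndependent K u)
    (hs : ∀ i, u i ∈ Submodule.span K (Set.range f)) :
    ∃ (e : ι → κ) (x : ι → X), (Matrix.of fun i l => f (e i) (x l)).det ≠ 0 := by
  obtain ⟨x, hx⟩ := exists_points u hu
  have h1 : LinearIndependent K (Matrix.of fun i l => u i (x l)).row :=
    Matrix.linearIndependent_rows_iff_isUnit.2
      ((Matrix.isUnit_iff_isUnit_det _).2 (isUnit_iff_ne_zero.2 hx))
  obtain ⟨e, he⟩ := Det_span (fun (a : κ) l => f a (x l)) (by
    rw [eq_top_iff, ← h1.span_eq_top_of_card_eq_finrank' (by simp), Submodule.span_le]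
    rintro _ ⟨i, rfl⟩
    have := Submodule.mem_map_of_mem (f := LinearMap.funLeft K K x) (hs i)
    rw [Submodule.map_span, ← Set.range_comp] at this
    exact this)
  exact ⟨e, x, he⟩

end Pool.Agent.Work.MP_0a826e_ag.G
end

-- merged part: Pool.Agent.Work.MP_0a826e_ag.G.Dat
section
/-!
The finite data describing an invariant tube, and the gain in the determinant.
-/

namespace Pool.Agent.Work.MP_0a826e_ag.G

open MvPolynomial

variable {n s t : ℕ}

namespace Dat

/-- In a valuation ring `π ^ e ∣ z ^ e` gives `π ∣ z`.  By `ia` the values of the `P i` at the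
`m0`-th image are divisible by `π`, by `ib` at all later images, and `ic` concludes. -/
theorem tube {V : Type} [CommRing V] [IsDomain V] [ValuationRing V] {D : Dat V n s t} (hD : D.OK)
    {x : Fin n → V} (hx : D.Good x) : D.π ∣ eval x (aeval D.l D.p) := by
  obtain ⟨-, y, j, hj, -, hA, rfl⟩ := hx
  have key : ∀ i, D.π ∣ eval ((emap D.F)^[j] y) (D.P i) := by
    induction j, hj using Nat.le_induction with
    | base =>
      intro i
      have := congrArg (eval y) (hD.ia i)
      rw [map_pow, eval_aeval_itr, map_add, hA, zero_add, map_mul, eval_C] at this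
      exact (IsIntegrallyClosed.pow_dvd_pow_iff (Nat.one_le_iff_ne_zero.1 hD.he)).1 ⟨_, this⟩
    | succ j _ ih =>
      intro i
      have := congrArg (eval ((emap D.F)^[j] y)) (hD.ib i)
      rw [eval_aeval, map_add, map_sum, map_mul, eval_C] at this
      rw [Function.iterate_succ_apply']
      refine Dvd.dvd.trans (dvd_add (Finset.dvd_sum fun k _ => ?_) (dvd_mul_right _ _))
        (dvd_of_eq this.symm)
      rw [map_mul]
      exact (ih k).mul_left _
  rw [hD.ic, map_add, map_sum, map_mul, eval_C]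
  refine dvd_add (Finset.dvd_sum fun k _ => ?_) (dvd_mul_right _ _)
  rw [map_mul]
  exact (key k).mul_left _

/-- `b` is the cardinality of `Idx n s D.M' N D.β0` (`card_idx`); `expand2`, `tube`, `det_dvd` with
`κ = Fin (N + 1) × Idx ..` and `a` the first coordinate -/
theorem gain {V : Type} [CommRing V] [IsDomain V] [ValuationRing V] {D : Dat V n s t} (hD : D.OK)
    (h0 : D.β0 ≠ 0) (N : ℕ) :
    ∃ b : ℕ, b * (N + 1) ≤ D.M' ^ n * D.β0.degree * (N + 1) ^ s ∧
      ∀ (ι : Type) [Fintype ι] [DecidableEq ι] (φ : ι → Pn n V) (x : ι → Fin n → V) (A : ℕ),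
        (∀ i, (φ i).totalDegree ≤ N) → (∀ l, D.Good (x l)) →
        D.π ^ (A * (Fintype.card ι - A * b)) ∣ (Matrix.of fun i l => eval (x l) (φ i)).det := by
  refine ⟨_, card_idx n s D.M' N D.β0, fun ι _ _ φ x A hφ hx => ?_⟩
  choose c hc using fun i => expand2 hD.cl hD.lead h0 N (φ i) (hφ i)
  choose w hw using fun l => tube hD (hx l)
  have e : (Matrix.of fun i l => eval (x l) (φ i)) = Matrix.of fun i l =>
      ∑ a : Fin (N + 1) × Idx n s D.M' N D.β0, c i a * (D.π ^ (a.1 : ℕ) * (w l ^ (a.1 : ℕ) *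
        ((∏ i, x l i ^ (a.2.1 i : ℕ)) * ∏ j, eval (x l) (D.l j) ^ (a.2.2.1 j : ℕ)))) := by
    ext i l
    simp only [Matrix.of_apply, hc i _ (hx l).1, hw l, mul_pow, mul_assoc]
  rw [e]
  refine det_dvd D.π (fun a : Fin (N + 1) × Idx n s D.M' N D.β0 => (a.1 : ℕ)) c _ A _ ?_
  have := Finset.filter_product_left (s := (Finset.univ : Finset (Fin (N + 1))))
    (t := (Finset.univ : Finset (Idx n s D.M' N D.β0))) fun a => (a : ℕ) < A
  rw [Finset.univ_product_univ] at this
  rw [this, Finset.card_product, Fin.card_filter_val_lt, Finset.card_univ]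
  exact Nat.mul_le_mul_right _ (min_le_right _ _)

end Dat

end Pool.Agent.Work.MP_0a826e_ag.G
end

-- merged part: Pool.Agent.Work.MP_0a826e_ag.G.LV0
section
/-!
Denominators and bounds over a field algebraic over a rational function field.
-/

namespace Pool.Agent.Work.MP_0a826e_ag.G

open MvPolynomial
open Pool.Agent.Work.MP_0a826e_ag.R (K0 AE)

abbrev Zt (r : ℕ) := MvPolynomial (Fin r) ℤ

/-- the structure map of the integer polynomials -/
noncomputable def jj (r : ℕ) (k : Type) [Field k] [Algebra (K0 r) k] : Zt r →+* k :=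
  (algebraMap (K0 r) k).comp (algebraMap (Zt r) (K0 r))

/-- `V` lies over the prime element `w` of the integer polynomials -/
structure Gen (r : ℕ) {k : Type} [Field k] [Algebra (K0 r) k] (V : ValuationSubring k) (w : Zt r) :
    Prop where
  prime : Prime w
  mem : ∀ a, jj r k a ∈ V
  non : ∀ a, jj r k a ∈ V.nonunits ↔ w ∣ a

variable {r : ℕ} {k : Type} [Field k] [Algebra (K0 r) k]

theorem jj_injective : Function.Injective (jj r k) := by
  exact (algebraMap (K0 r) k).injective.comp (IsFractionRing.injective (Zt r) (K0 r))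

theorem jj_fix (τ : k ≃ₐ[K0 r] k) (a : Zt r) : τ (jj r k a) = jj r k a := by
  exact τ.commutes _

theorem integral_conj (τ : k ≃ₐ[K0 r] k) {x : k} (hx : (jj r k).IsIntegralElem x) :
    (jj r k).IsIntegralElem (τ x) := by
  obtain ⟨p, hp, hx⟩ := hx
  have e : (τ : k →+* k).comp (jj r k) = jj r k := RingHom.ext (jj_fix τ)
  have := Polynomial.hom_eval₂ p (jj r k) (τ : k →+* k) x
  rw [hx, map_zero, e] at this
  exact ⟨p, hp, this.symm⟩

/-- a valuation subring is integrally closed in its field -/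
theorem Gen.mem_of_integral {V : ValuationSubring k} {w : Zt r} (hG : Gen r V w) {x : k}
    (hx : (jj r k).IsIntegralElem x) : x ∈ V := by
  obtain ⟨p, hp, hx⟩ := hx
  have : IsIntegral V x := ⟨p.map ((jj r k).codRestrict V hG.mem), hp.map _, by
    rw [Polynomial.eval₂_map]
    exact hx⟩
  obtain ⟨y, rfl⟩ := IsIntegrallyClosed.isIntegral_iff.1 this
  exact y.2

/-- a nonzero integer polynomial is `w ^ i * a'` with `a'` a unit of `V` -/
theorem Gen.val {V : ValuationSubring k} {w : Zt r} (hG : Gen r V w) {a : Zt r} (ha : a ≠ 0) :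
    ∃ i : ℕ, w ^ i ∣ a ∧ V.valuation (jj r k a) = V.valuation (jj r k w) ^ i := by
  obtain ⟨i, b, hb, rfl⟩ := WfDvdMonoid.max_power_factor' ha hG.prime.not_isUnit
  have e : V.valuation (jj r k b) = 1 := le_antisymm ((V.valuation_le_one_iff _).2 (hG.mem b))
    (not_lt.1 fun h => hb ((hG.non b).1 (V.mem_nonunits_iff.2 h)))
  exact ⟨i, dvd_mul_right _ _, by rw [map_mul, map_mul, e, mul_one, map_pow, map_pow]⟩

theorem LV0_alg [Algebra.IsAlgebraic (K0 r) k] (x : k) :
    ∃ p : Polynomial (Zt r), p ≠ 0 ∧ p.eval₂ (jj r k) x = 0 := by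
  let : Algebra (Zt r) k := (jj r k).toAlgebra
  have : IsScalarTower (Zt r) (K0 r) k := .of_algebraMap_eq' rfl
  have : Algebra.IsAlgebraic (Zt r) k :=
    (IsFractionRing.comap_isAlgebraic_iff (K := K0 r)).2 inferInstance
  exact this.isAlgebraic x

theorem LV0_mem {V : ValuationSubring k} {w : Zt r} (hG : Gen r V w) {π : k} (hπ : π ∈ V)
    (p : Polynomial (Zt r)) : p.eval₂ (jj r k) π ∈ V := by
  rw [Polynomial.eval₂_eq_sum_range]
  exact sum_mem fun i _ => mul_mem (hG.mem _) (pow_mem hπ i)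

theorem LV0_dvd {V : ValuationSubring k} {w : Zt r} (hG : Gen r V w) {π : k}
    (hπ : V.valuation π < 1) (h : ∀ e : ℕ, V.valuation (jj r k w) < V.valuation π ^ e)
    (p : Polynomial (Zt r)) : (∀ e : ℕ, V.valuation (p.eval₂ (jj r k) π) < V.valuation π ^ e) →
      Polynomial.C w ∣ p := by
  induction p using Polynomial.recOnHorner with
  | M0 => exact fun _ => dvd_zero _
  | MC p a h0 _ ih =>
    intro hp
    simp only [Polynomial.eval₂_add, Polynomial.eval₂_C] at hp
    have h1 : V.valuation (p.eval₂ (jj r k) π) < 1 := by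
      obtain ⟨q, rfl⟩ := Polynomial.X_dvd_iff.2 h0
      rw [Polynomial.eval₂_mul, Polynomial.eval₂_X, map_mul]
      exact (mul_le_of_le_one_right' ((V.valuation_le_one_iff _).2
        (LV0_mem hG ((V.valuation_le_one_iff _).1 hπ.le) q))).trans_lt hπ
    have h2 := V.valuation.map_sub_lt ((hp 0).trans_eq (pow_zero _)) h1
    rw [add_sub_cancel_left] at h2
    obtain ⟨b, rfl⟩ := (hG.non a).1 (V.mem_nonunits_iff.2 h2)
    refine dvd_add (ih fun e => ?_) (map_dvd _ (dvd_mul_right _ _))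
    have h3 : V.valuation (jj r k (w * b)) < V.valuation π ^ e := by
      rw [map_mul, map_mul]
      exact (mul_le_of_le_one_right' ((V.valuation_le_one_iff _).2 (hG.mem b))).trans_lt (h e)
    simpa only [add_sub_cancel_right] using V.valuation.map_sub_lt (hp e) h3
  | MX p _ ih =>
    intro hp
    refine (ih fun e => ?_).mul_right _
    have := hp (e + 1)
    rw [Polynomial.eval₂_mul, Polynomial.eval₂_X, map_mul, pow_succ] at this
    exact lt_of_mul_lt_mul_right' this

/-- Write `∑ a i * π ^ i = 0` with integer polynomials `a i`, not all zero.  Two of the nonzero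
terms have the same valuation, so `v π ^ e * v w ^ i = v w ^ j` with `1 ≤ e`; as `v π < 1` we get
`i < j`. -/
theorem Gen.pow_dvd [Algebra.IsAlgebraic (K0 r) k] {V : ValuationSubring k} {w : Zt r}
    (hG : Gen r V w) {π : k} (hπ : π ∈ V.nonunits) :
    ∃ e : ℕ, 1 ≤ e ∧ V.valuation π ^ e ≤ V.valuation (jj r k w) := by
  by_contra c
  have h1 := V.mem_nonunits_iff.1 hπ
  have h : ∀ e : ℕ, V.valuation (jj r k w) < V.valuation π ^ e := fun e => by
    refine (not_le.1 fun h => c ⟨e + 1, by omega, h⟩).trans_le ?_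
    rw [pow_succ]
    exact mul_le_of_le_one_right' h1.le
  obtain ⟨p, hp, hx⟩ := LV0_alg (r := r) π
  obtain ⟨i, q, hq, rfl⟩ := WfDvdMonoid.max_power_factor' hp
    (mt Polynomial.isUnit_C.1 hG.prime.not_isUnit)
  rw [Polynomial.eval₂_mul, Polynomial.eval₂_pow, Polynomial.eval₂_C, mul_eq_zero] at hx
  refine hq (LV0_dvd hG h1 h q fun e => ?_)
  rw [hx.resolve_left (pow_ne_zero _ ((map_ne_zero_iff _ jj_injective).2 hG.prime.ne_zero)),
    map_zero]
  exact zero_le.trans_lt (h e)

/-- `exists_integral_multiples` or `IsAlgebraic.exists_integral_multiple`, `R.M4_int`,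
`R.M4_bdd`, `R.M4_unif` -/
theorem den [Algebra.IsAlgebraic (K0 r) k] (T : Finset k) :
    ∃ (ρ : Zt r) (B : ℝ), ρ ≠ 0 ∧ 1 ≤ B ∧ (∀ t ∈ T, (jj r k).IsIntegralElem (jj r k ρ * t)) ∧
      ∀ φ : k →+* ℂ, AE r φ → ‖φ (jj r k ρ)‖ ≤ B ∧ ∀ t ∈ T, ‖φ (jj r k ρ * t)‖ ≤ B := by
  let : Algebra (Zt r) k := (jj r k).toAlgebra
  have : IsScalarTower (Zt r) (K0 r) k := .of_algebraMap_eq' rfl
  have : Algebra.IsAlgebraic (Zt r) k :=
    (IsFractionRing.comap_isAlgebraic_iff (K := K0 r)).2 inferInstance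
  obtain ⟨ρ, hρ, h⟩ := Algebra.IsAlgebraic.exists_integral_multiples (Zt r) T
  obtain ⟨c, hc, h1⟩ := R.M4_unif (r := r) T (fun t => jj r k ρ * t) fun t ht => by
    obtain ⟨p, hp, hx⟩ := h t ht
    exact (R.M4_int p hp hx).2
  obtain ⟨d, hd⟩ := R.M4_bdd (k := k) ρ
  exact ⟨ρ, max c d, hρ, hc.trans (le_max_left _ _), h, fun φ hφ =>
    ⟨(hd φ hφ).trans (le_max_right _ _), fun t ht => (h1 t ht φ hφ).trans (le_max_left _ _)⟩⟩

end Pool.Agent.Work.MP_0a826e_ag.G
end

-- merged part: Pool.Agent.Work.MP_0a826e_ag.G.Esc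
section
/-!
Points with a finite orbit are bounded at every place.
-/

namespace Pool.Agent.Work.MP_0a826e_ag.G

open MvPolynomial

variable {n d M : ℕ} {k : Type} [Field k] {F : Fin n → Pn n k} {h : Fin n → Fin n → Pn n k}

theorem Esc_max {L : Type} [LinearOrder L] (f : k → L) {x : Fin n → k} (hx : Pre (emap F) x)
    (i : Fin n) : ∃ (y : Fin n → k) (a : Fin n), f (x i) ≤ f (y a) ∧ (∀ b, f (y b) ≤ f (y a)) ∧
      ∀ b, f (emap F y b) ≤ f (y a) := by
  obtain ⟨⟨_, a⟩, ⟨⟨m, rfl⟩, -⟩, hm⟩ := Set.exists_max_image _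
    (fun p : (Fin n → k) × Fin n => f (p.1 p.2)) (hx.prod (Set.finite_univ (α := Fin n)))
    ⟨(x, i), ⟨0, rfl⟩, trivial⟩
  exact ⟨_, a, hm (x, i) ⟨⟨0, rfl⟩, trivial⟩, fun b => hm (_, b) ⟨⟨m, rfl⟩, trivial⟩,
    fun b => hm (_, b) ⟨⟨m + 1, Function.iterate_succ_apply' _ _ _⟩, trivial⟩⟩

theorem Esc_eq (hc : Cert F d M h 0) (y : Fin n → k) (a : Fin n) :
    y a ^ M = ∑ j, emap F y j * eval y (h a j) := by
  simpa [emap] using congrArg (eval y) (hc.2.2 a)

theorem Esc_prod {L : Type} [CommMonoidWithZero L] [PartialOrder L] [PosMulStrictMono L]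
    [MulPosMono L] [ZeroLEOneClass L] {g : Pn n k} {e : ℕ} (hg : g.totalDegree ≤ e) {N : L}
    (hN : 1 ≤ N) {f : Fin n → L} (h0 : ∀ b, 0 ≤ f b) (hf : ∀ b, f b ≤ N) {m : Fin n →₀ ℕ}
    (hm : m ∈ g.support) : ∏ b, f b ^ m b ≤ N ^ e := by
  refine (Finset.prod_le_prod (fun b _ => pow_nonneg (h0 b) _)
    fun b _ => pow_le_pow_left₀ (h0 b) (hf b) _).trans ?_
  rw [Finset.prod_pow_eq_pow_sum]
  refine pow_le_pow_right₀ hN (le_trans (le_of_eq ?_) ((le_totalDegree hm).trans hg))
  exact (Finsupp.sum_fintype m (fun _ e => e) fun _ => rfl).symm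

/-- Let `N` be the maximal valuation of a coordinate of a point of the orbit, attained at `(y, i)`.
If `1 < N` then `v ρ * N ^ M ≤ N ^ (M - d) * N`, so `v ρ * N ≤ v ρ * N ^ (d - 1) ≤ 1`. -/
theorem esc_val (W : ValuationSubring k) (hd : 2 ≤ d) (hc : Cert F d M h 0) {ρ : k} (hρ : ρ ∈ W)
    (hh : ∀ i j m, ρ * coeff m (h i j) ∈ W) {x : Fin n → k} (hx : Pre (emap F) x) (i : Fin n) :
    ρ * x i ∈ W := by
  simp only [← W.valuation_le_one_iff, map_mul] at hρ hh ⊢
  obtain ⟨y, a, h1, h2, h3⟩ := Esc_max W.valuation hx i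
  by_cases hN : W.valuation (y a) ≤ 1
  · exact mul_le_one' hρ (h1.trans hN)
  replace hN := not_le.1 hN
  obtain ⟨e, rfl⟩ := Nat.exists_eq_add_of_le' (Nat.le_of_add_left_le (hc.2.1 a a))
  have key : W.valuation (ρ * y a ^ (e + d)) ≤ W.valuation (y a) * W.valuation (y a) ^ e := by
    rw [Esc_eq hc, Finset.mul_sum]
    refine Valuation.map_sum_le _ fun j _ => ?_
    rw [mul_left_comm, map_mul, eval_eq', Finset.mul_sum]
    refine mul_le_mul' (h3 j) (Valuation.map_sum_le _ fun m hm => ?_)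
    rw [← mul_assoc, map_mul, map_mul, map_prod, ← one_mul (_ ^ e)]
    simp only [map_pow]
    exact mul_le_mul' (hh a j m) (Esc_prod (Nat.le_of_add_le_add_right (hc.2.1 a j)) hN.le
      (fun _ => zero_le) h2 hm)
  have h0 : 0 < W.valuation (y a) * W.valuation (y a) ^ e :=
    mul_pos (zero_lt_one.trans hN) (pow_pos (zero_lt_one.trans hN) _)
  refine (mul_le_mul_right h1 _).trans (le_of_mul_le_mul_right (le_trans ?_
    (key.trans_eq (one_mul _).symm)) h0)
  rw [map_mul, map_pow, mul_assoc, ← pow_succ', ← pow_succ']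
  exact mul_le_mul_right (pow_le_pow_right₀ hN.le (by omega)) _

/-- the same argument with the triangle inequality -/
theorem esc_abs (u : AbsoluteValue k ℝ) (hd : 2 ≤ d) (hc : Cert F d M h 0) {x : Fin n → k}
    (hx : Pre (emap F) x) (i : Fin n) :
    u (x i) ≤ max 1 (∑ i, ∑ j, ∑ m ∈ (h i j).support, u (coeff m (h i j))) := by
  obtain ⟨y, a, h1, h2, h3⟩ := Esc_max u hx i
  by_cases hN : u (y a) ≤ 1
  · exact le_max_of_le_left (h1.trans hN)
  replace hN := not_le.1 hN
  obtain ⟨e, rfl⟩ := Nat.exists_eq_add_of_le' (Nat.le_of_add_left_le (hc.2.1 a a))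
  have key : u (y a) ^ (e + d) ≤
      (∑ j, ∑ m ∈ (h a j).support, u (coeff m (h a j))) * (u (y a) * u (y a) ^ e) := by
    rw [← map_pow, Esc_eq hc, Finset.sum_mul]
    refine (u.sum_le _ _).trans (Finset.sum_le_sum fun j _ => ?_)
    rw [mul_left_comm, map_mul, eval_eq', Finset.sum_mul]
    refine mul_le_mul (h3 j) ((u.sum_le _ _).trans (Finset.sum_le_sum fun m hm => ?_))
      (u.nonneg _) (u.nonneg _)
    rw [map_mul, map_prod]
    simp only [map_pow]
    exact mul_le_mul_of_nonneg_left (Esc_prod (Nat.le_of_add_le_add_right (hc.2.1 a j)) hN.le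
      (fun _ => u.nonneg _) h2 hm) (u.nonneg _)
  have h0 : 0 < u (y a) * u (y a) ^ e := by positivity
  refine le_max_of_le_right (h1.trans ((le_of_mul_le_mul_right (le_trans ?_ key) h0).trans
    (Finset.single_le_sum (f := fun i => ∑ j, ∑ m ∈ (h i j).support, u (coeff m (h i j)))
      (fun _ _ => by positivity) (Finset.mem_univ a))))
  rw [← pow_succ', ← pow_succ']
  exact pow_le_pow_right₀ hN.le (by omega)

/-- The integral closure of the image of `j` is integrally closed in `k`; use `esc_val` and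
`Subring.exists_le_valuationSubring_of_isIntegrallyClosedIn`. -/
theorem esc_int {A : Type} [CommRing A] (j : A →+* k) (hd : 2 ≤ d) (hc : Cert F d M h 0) {ρ : k}
    (hρ : j.IsIntegralElem ρ) (hh : ∀ a b m, j.IsIntegralElem (ρ * coeff m (h a b)))
    {x : Fin n → k} (hx : Pre (emap F) x) (i : Fin n) : j.IsIntegralElem (ρ * x i) := by
  let _ := j.toAlgebra
  by_contra q
  obtain ⟨W, h1, h2⟩ := Subring.exists_le_valuationSubring_of_isIntegrallyClosedIn
    (R := (integralClosure A k).toSubring) q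
  exact h2 (esc_val W hd hc (h1 hρ) (fun a b m => h1 (hh a b m)) hx i)

/-- `esc_int` with `ρ = 1` for the mapped certificate (`Cert.map`); an element integral over an
algebraically closed field lies in it -/
theorem esc_alg [IsAlgClosed k] {E : Type} [Field E] (ι : k →+* E) (hd : 2 ≤ d)
    (hc : Cert F d M h 0) {x : Fin n → E} (hx : Pre (emap fun i => map ι (F i)) x) :
    ∃ y : Fin n → k, ι ∘ y = x := by
  let _ := ι.toAlgebra
  have h1 := fun i => esc_int ι hd (d := d) (M := M) (h := fun i j => map ι (h i j))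
    (by simpa [Pi.zero_def] using hc.map ι) ι.isIntegralElem_one
    (fun a b m => by rw [one_mul, coeff_map]; exact ι.isIntegralElem_map) hx i
  choose y hy using fun i => (IsAlgClosed.algebraMap_bijective_of_isIntegral (k := k)
    (K := integralClosure k E)).2 ⟨_, h1 i⟩
  exact ⟨y, funext fun i => (congrArg Subtype.val (hy i)).trans (one_mul _)⟩

/-- `esc_val` with `ρ = 1` for the mapped certificate -/
theorem esc_sub (W : ValuationSubring k) {F : Fin n → Pn n W} {h : Fin n → Fin n → Pn n W}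
    (hd : 2 ≤ d) (hc : Cert F d M h 0) {x : Fin n → k}
    (hx : Pre (emap fun i => map W.subtype (F i)) x) : ∃ y : Fin n → W, W.subtype ∘ y = x := by
  have h1 := fun i => esc_val W hd (d := d) (M := M) (h := fun i j => map W.subtype (h i j))
    (by simpa [Pi.zero_def] using hc.map W.subtype) W.one_mem
    (fun a b m => by rw [one_mul, coeff_map]; exact (coeff m (h a b)).2) hx i
  exact ⟨fun i => ⟨_, h1 i⟩, funext fun i => one_mul _⟩

end Pool.Agent.Work.MP_0a826e_ag.G
end

-- merged part: Pool.Agent.Work.MP_0a826e_ag.G.LV1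
section
/-!
Denominators and bounds over a field algebraic over a rational function field.
-/

namespace Pool.Agent.Work.MP_0a826e_ag.G

open MvPolynomial
open Pool.Agent.Work.MP_0a826e_ag.R (K0 AE)

variable {r : ℕ} {k : Type} [Field k] [Algebra (K0 r) k]

/-- `den` for the coefficients of `h`, `esc_int`, `esc_abs` with `R.M4_abs φ` -/
theorem tame [Algebra.IsAlgebraic (K0 r) k] {n d M : ℕ} {F : Fin n → Pn n k}
    {h : Fin n → Fin n → Pn n k} (hd : 2 ≤ d) (hc : Cert F d M h 0) :
    ∃ (ρ : Zt r) (B : ℝ), ρ ≠ 0 ∧ 2 ≤ B ∧ (∀ φ : k →+* ℂ, AE r φ → ‖φ (jj r k ρ)‖ ≤ B) ∧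
      ∀ x, Pre (emap F) x → ∀ i, (jj r k).IsIntegralElem (jj r k ρ * x i) ∧
        ∀ φ : k →+* ℂ, AE r φ → ‖φ (jj r k ρ * x i)‖ ≤ B := by
  classical
  obtain ⟨ρ, B, h0, h1, h2, h3⟩ := den (r := r) (Finset.univ.biUnion fun p : Fin n × Fin n =>
    (h p.1 p.2).support.image fun m => coeff m (h p.1 p.2))
  have hT : ∀ a b, ∀ m ∈ (h a b).support, coeff m (h a b) ∈ Finset.univ.biUnion
      fun p : Fin n × Fin n => (h p.1 p.2).support.image fun m => coeff m (h p.1 p.2) :=
    fun a b m hm => Finset.mem_biUnion.2 ⟨(a, b), Finset.mem_univ _, Finset.mem_image_of_mem _ hm⟩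
  have hS : 0 ≤ ∑ a, ∑ b, ∑ _m ∈ (h a b).support, B := by positivity
  refine ⟨ρ, 1 + B + ∑ a, ∑ b, ∑ _m ∈ (h a b).support, B, h0, by linarith,
    fun φ hφ => by linarith [(h3 φ hφ).1], fun x hx i => ⟨esc_int (jj r k) hd hc
      (jj r k).isIntegralElem_map (fun a b m => ?_) hx i, fun φ hφ => ?_⟩⟩
  · by_cases hm : m ∈ (h a b).support
    · exact h2 _ (hT a b m hm)
    · rw [notMem_support_iff.1 hm, mul_zero]
      exact (jj r k).isIntegralElem_zero
  · have k1 := esc_abs (R.M4_abs φ) hd hc hx i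
    simp only [R.M4_abs_apply] at k1
    rw [map_mul, norm_mul]
    refine (mul_le_mul_of_nonneg_left k1 (norm_nonneg _)).trans ?_
    rw [mul_max_of_nonneg _ _ (norm_nonneg _), mul_one]
    refine max_le (by linarith [(h3 φ hφ).1]) (le_trans ?_ (le_add_of_nonneg_left (by linarith)))
    simp only [Finset.mul_sum]
    refine Finset.sum_le_sum fun a _ => Finset.sum_le_sum fun b _ => Finset.sum_le_sum fun m hm => ?_
    rw [← norm_mul, ← map_mul]
    exact (h3 φ hφ).2 _ (hT a b m hm)

theorem LV1_prod {n : ℕ} (c : k) (y : Fin n → k) (μ : Fin n →₀ ℕ) :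
    c ^ μ.degree * ∏ i, y i ^ μ i = ∏ i, (c * y i) ^ μ i := by
  simp only [mul_pow, Finset.prod_mul_distrib, Finset.prod_pow_eq_pow_sum, Finsupp.degree_eq_sum]

theorem LV1_norm {n : ℕ} (φ : k →+* ℂ) {B : ℝ} {y : Fin n → k} (h : ∀ i, ‖φ (y i)‖ ≤ B)
    (μ : Fin n →₀ ℕ) : ‖φ (∏ i, y i ^ μ i)‖ ≤ B ^ μ.degree := by
  rw [map_prod, norm_prod, Finsupp.degree_eq_sum, ← Finset.prod_pow_eq_pow_sum]
  refine Finset.prod_le_prod (fun i _ => norm_nonneg _) fun i _ => ?_
  rw [map_pow, norm_pow]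
  exact pow_le_pow_left₀ (norm_nonneg _) (h i) _

/-- Multiply every row by `ρ ^ E1` (`Matrix.det_mul_column` or `Matrix.det_smul`); by `eval_mon`,
`emap_itr` and `Pre.iterate` every entry becomes a product of `E1` factors `ρ * (coordinate of a
point with finite orbit)` or `ρ`.  Use `Matrix.det_le` and `card ι ! ≤ (2 ^ q) ^ card ι`. -/
theorem size {n : ℕ} {F : Fin n → Pn n k} {ρ : Zt r} {B : ℝ} (hB : 2 ≤ B)
    (h1 : ∀ φ : k →+* ℂ, AE r φ → ‖φ (jj r k ρ)‖ ≤ B)
    (h2 : ∀ x, Pre (emap F) x → ∀ i, (jj r k).IsIntegralElem (jj r k ρ * x i) ∧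
      ∀ φ : k →+* ℂ, AE r φ → ‖φ (jj r k ρ * x i)‖ ≤ B)
    {ι : Type} [Fintype ι] [DecidableEq ι] (n0 E1 q : ℕ) (hq : Fintype.card ι ≤ 2 ^ q)
    (μ α : ι → Fin n →₀ ℕ) (hE : ∀ i, (μ i).degree + (α i).degree ≤ E1) (x : ι → Fin n → k)
    (hx : ∀ l, Pre (emap F) (x l)) :
    (jj r k).IsIntegralElem (jj r k ρ ^ (E1 * Fintype.card ι) *
      (Matrix.of fun i l => eval (x l) (mon (μ i) (itr F n0) (α i))).det) ∧
    ∀ φ : k →+* ℂ, AE r φ → ‖φ (jj r k ρ ^ (E1 * Fintype.card ι) *
      (Matrix.of fun i l => eval (x l) (mon (μ i) (itr F n0) (α i))).det)‖ ≤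
        B ^ (Fintype.card ι * (E1 + q)) := by
  let _ := (jj r k).toAlgebra
  have e : ∀ i l, jj r k ρ ^ E1 * eval (x l) (mon (μ i) (itr F n0) (α i)) =
      jj r k ρ ^ (E1 - ((μ i).degree + (α i).degree)) * ((∏ a, (jj r k ρ * x l a) ^ μ i a) *
        ∏ a, (jj r k ρ * (emap F)^[n0] (x l) a) ^ α i a) := fun i l => by
    rw [eval_mon, ← LV1_prod, ← LV1_prod, ← emap_itr]
    conv_lhs => rw [← Nat.sub_add_cancel (hE i), pow_add, pow_add]
    simp only [emap]
    ring
  rw [pow_mul, ← Matrix.det_smul]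
  refine ⟨IsIntegral.det (R := Zt r) fun i l => ?_, fun φ hφ => ?_⟩
  · rw [Matrix.smul_apply, Matrix.of_apply, smul_eq_mul, e]
    exact (IsIntegral.pow (jj r k).isIntegralElem_map _).mul
      ((IsIntegral.prod _ fun a _ => IsIntegral.pow (h2 _ (hx l) a).1 _).mul
        (IsIntegral.prod _ fun a _ => IsIntegral.pow (h2 _ ((hx l).iterate n0) a).1 _))
  · have hB0 : (0 : ℝ) ≤ B := by linarith
    refine (Matrix.det_le (abv := R.M4_abs φ) (x := B ^ E1) fun i l => ?_).trans ?_
    · rw [Matrix.smul_apply, Matrix.of_apply, smul_eq_mul, e, R.M4_abs_apply, map_mul, map_mul,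
        norm_mul, norm_mul, map_pow, norm_pow]
      conv_rhs => rw [← Nat.sub_add_cancel (hE i), pow_add, pow_add]
      exact mul_le_mul (pow_le_pow_left₀ (norm_nonneg _) (h1 φ hφ) _)
        (mul_le_mul (LV1_norm φ (fun a => (h2 _ (hx l) a).2 φ hφ) _)
          (LV1_norm φ (fun a => (h2 _ ((hx l).iterate n0) a).2 φ hφ) _) (norm_nonneg _)
          (pow_nonneg hB0 _)) (by positivity) (pow_nonneg hB0 _)
    · rw [nsmul_eq_mul, mul_comm (Fintype.card ι), pow_mul, pow_add, mul_pow, mul_comm]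
      refine mul_le_mul_of_nonneg_left ?_ (by positivity)
      have k1 : ((Fintype.card ι).factorial : ℝ) ≤ ((2 : ℝ) ^ q) ^ Fintype.card ι := by
        exact_mod_cast (Nat.factorial_le_pow _).trans (Nat.pow_le_pow_left hq _)
      exact k1.trans (by gcongr)

end Pool.Agent.Work.MP_0a826e_ag.G
end

-- merged part: Pool.Agent.Work.MP_0a826e_ag.G.LV2
section
/-!
The Liouville inequality at a place over a prime element of the integer polynomials.
-/

namespace Pool.Agent.Work.MP_0a826e_ag.G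

open MvPolynomial
open Pool.Agent.Work.MP_0a826e_ag.R (K0 AE)

variable {r : ℕ} {k : Type} [Field k] [Algebra (K0 r) k]

/-- With `m` from `R.exists_mahler`: `m 1 = 0`, and `0 < m w` since the powers of `w` are distinct
and sets of bounded measure are finite.  If `w ^ i ∣ a` then `i * m w ≤ m a ≤ E * log B`
(`R.M4_ext` extends an injective evaluation to `k`). -/
theorem lv_base [Algebra.IsAlgebraic (K0 r) k] {w : Zt r} (hw : Prime w) {B : ℝ} (hB : 1 ≤ B) :
    ∃ c : ℕ, ∀ (a : Zt r) (E i : ℕ), a ≠ 0 → w ^ i ∣ a →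
      (∀ φ : k →+* ℂ, AE r φ → ‖φ (jj r k a)‖ ≤ B ^ E) → i ≤ c * E := by
  obtain ⟨m, hmul, hpos, hfin, hle⟩ := R.exists_mahler r
  have h1 : m 1 = 0 := by
    have := hmul 1 1 one_ne_zero one_ne_zero
    rw [one_mul] at this
    linarith
  have hpow : ∀ s : ℕ, m (w ^ s) = s * m w := by
    intro s
    induction s with
    | zero => simp [h1]
    | succ s ih => rw [pow_succ, hmul _ _ (pow_ne_zero _ hw.ne_zero) hw.ne_zero, ih]; push_cast; ring
  have hup : ∀ (g : Zt r) (s : ℕ), g ≠ 0 →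
      (∀ φ : k →+* ℂ, AE r φ → ‖φ (jj r k g)‖ ≤ B ^ s) → m g ≤ s * Real.log B := by
    intro g s hg h
    have := hle g 1 (s * Real.log B) hg one_ne_zero fun t ht hinj => by
      obtain ⟨φ, hφ⟩ := R.M4_ext (k := k) t hinj
      rw [map_one, norm_one, mul_one, ← hφ, ← Real.log_pow,
        Real.exp_log (pow_pos (zero_lt_one.trans_le hB) s)]
      refine h φ fun i => ?_
      rw [hφ, eval₂Hom_X', ht]
    rwa [h1, add_zero] at this
  have hw0 : 0 < m w := by
    refine (hpos w hw.ne_zero).lt_of_ne fun e => ?_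
    refine Set.infinite_of_injective_forall_mem (f := fun n : ℕ => w ^ n)
      (pow_injective_of_not_isUnit hw.not_isUnit hw.ne_zero) (fun n => ?_) (hfin 0)
    exact ⟨pow_ne_zero _ hw.ne_zero, by rw [hpow, ← e, mul_zero]⟩
  refine ⟨⌈Real.log B / m w⌉₊, ?_⟩
  rintro _ E i ha ⟨b, rfl⟩ h
  have a1 := hup _ E ha h
  have hb : b ≠ 0 := right_ne_zero_of_mul ha
  rw [hmul _ _ (pow_ne_zero _ hw.ne_zero) hb, hpow] at a1
  have a2 := hpos b hb
  have a3 : Real.log B ≤ ⌈Real.log B / m w⌉₊ * m w := (div_le_iff₀ hw0).1 (Nat.le_ceil _)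
  have a4 : (i : ℝ) * m w ≤ (⌈Real.log B / m w⌉₊ * E) * m w := by
    have := mul_le_mul_of_nonneg_left a3 (Nat.cast_nonneg (α := ℝ) E)
    linarith
  exact_mod_cast le_of_mul_le_mul_right a4 hw0

/-- the constant coefficient of a minimal polynomial is, up to sign, a product of conjugates -/
theorem LV2_root {F : Type} [Field F] [Algebra F k] [Normal F k] (g : k) (P : ℕ → k → Prop)
    (h0 : P 0 1) (hn : ∀ n x, P n x → P n (-x))
    (hs : ∀ n x (σ : k ≃ₐ[F] k), P n x → P (n + 1) (σ g * x)) :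
    P (minpoly F g).natDegree (algebraMap F k ((minpoly F g).coeff 0)) := by
  have gi : IsIntegral F g := Normal.isIntegral inferInstance g
  have sp : ((minpoly F g).map (algebraMap F k)).Splits := Normal.splits inferInstance g
  have mo := (minpoly.monic gi).map (algebraMap F k)
  have all : ∀ m : Multiset k, (∀ x ∈ m, ∃ σ : k ≃ₐ[F] k, σ g = x) → P m.card m.prod := by
    intro m
    induction m using Multiset.induction_on with
    | empty => exact fun _ => h0
    | cons a m ih =>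
      intro hm
      obtain ⟨σ, rfl⟩ := hm a (Multiset.mem_cons_self _ _)
      rw [Multiset.prod_cons, Multiset.card_cons]
      exact hs _ _ σ (ih fun x hx => hm x (Multiset.mem_cons_of_mem hx))
  have := all ((minpoly F g).map (algebraMap F k)).roots fun x hx =>
    minpoly.exists_algEquiv_of_root' gi.isAlgebraic (by
      rw [Polynomial.aeval_def, Polynomial.eval₂_eq_eval_map]
      exact (Polynomial.mem_roots mo.ne_zero).1 hx)
  rw [← sp.natDegree_eq_card_roots, Polynomial.natDegree_map] at this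
  rw [← Polynomial.coeff_map, sp.coeff_zero_eq_prod_roots_of_monic mo]
  rcases neg_one_pow_eq_or k ((minpoly F g).map (algebraMap F k)).natDegree with e | e
  · rwa [e, one_mul]
  · rw [e, neg_one_mul]
    exact hn _ _ this

/-- As in `R.M5_key`.  Let `K` be a finite Galois extension containing `T` (proof of
`R.exists_galois`), `N` the order of its group, `g = ∏ τ, τ.liftNormal k γ` and `a` the constant
coefficient of the minimal polynomial of `g`, an integer polynomial as `g` is integral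
(`minpoly.isIntegrallyClosed_eq_field_fractions`), of degree `m`.  For every automorphism `σ` of
`k` the factor of `σ g` with `τ = (σ.restrictNormal K)⁻¹` is the image of `γ` by an automorphism
fixing `T`, and the other factors lie in `V`. -/
theorem lv_norm [IsAlgClosed k] [CharZero k] [Algebra.IsAlgebraic (K0 r) k]
    {V : ValuationSubring k} {w : Zt r} (hG : Gen r V w) (T : Finset k) :
    ∃ N : ℕ, ∀ γ : k, γ ≠ 0 → (jj r k).IsIntegralElem γ → ∃ (a : Zt r) (m : ℕ), a ≠ 0 ∧ 1 ≤ m ∧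
      (∀ C : ℝ, (∀ φ : k →+* ℂ, AE r φ → ‖φ γ‖ ≤ C) →
        ∀ φ : k →+* ℂ, AE r φ → ‖φ (jj r k a)‖ ≤ C ^ (N * m)) ∧
      ∀ z : V.ValueGroup, (∀ τ : k ≃ₐ[K0 r] k, (∀ t ∈ T, τ t = t) → V.valuation (τ γ) ≤ z) →
        V.valuation (jj r k a) ≤ z ^ m := by
  classical
  have := R.M5_galois (r := r) (k := k)
  let K := (FiniteGaloisIntermediateField.adjoin (K0 r) (T : Set k)).toIntermediateField
  have hK : ∀ t ∈ T, t ∈ K := fun t ht =>
    FiniteGaloisIntermediateField.subset_adjoin (K0 r) (T : Set k) ht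
  have : FiniteDimensional (K0 r) K := inferInstance
  have : IsGalois (K0 r) K := inferInstance
  clear_value K
  let _ : Algebra (Zt r) k := (jj r k).toAlgebra
  have : IsScalarTower (Zt r) (K0 r) k := .of_algebraMap_eq' rfl
  refine ⟨Fintype.card (K ≃ₐ[K0 r] K), fun γ hγ hi => ?_⟩
  obtain ⟨g, hg⟩ : ∃ g : k, g = ∏ τ : K ≃ₐ[K0 r] K, τ.liftNormal k γ := ⟨_, rfl⟩
  have g0 : g ≠ 0 := hg ▸ Finset.prod_ne_zero_iff.2 fun τ _ => by simpa using hγ
  have gz : IsIntegral (Zt r) g := hg ▸ IsIntegral.prod _ fun τ _ => integral_conj _ hi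
  have gi : IsIntegral (K0 r) g := gz.tower_top
  have e : jj r k ((minpoly (Zt r) g).coeff 0) =
      algebraMap (K0 r) k ((minpoly (K0 r) g).coeff 0) := by
    rw [minpoly.isIntegrallyClosed_eq_field_fractions' (K0 r) gz, Polynomial.coeff_map]
    rfl
  refine ⟨(minpoly (Zt r) g).coeff 0, (minpoly (K0 r) g).natDegree, fun c => ?_,
    minpoly.natDegree_pos gi, fun C h φ hφ => ?_, fun z h => ?_⟩
  · rw [c, map_zero, eq_comm, map_eq_zero] at e
    exact minpoly.coeff_zero_ne_zero gi g0 e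
  · have one : ∀ σ : k ≃ₐ[K0 r] k, ‖φ (σ g)‖ ≤ C ^ Fintype.card (K ≃ₐ[K0 r] K) := fun σ => by
      rw [hg, map_prod, map_prod, norm_prod, ← Finset.card_univ, ← Finset.prod_const]
      refine Finset.prod_le_prod (fun _ _ => norm_nonneg _) fun τ _ => ?_
      refine h (φ.comp (σ * τ.liftNormal k).toRingEquiv.toRingHom) fun i => ?_
      change ‖φ ((σ * τ.liftNormal k) _)‖ = 2
      rw [AlgEquiv.commutes]
      exact hφ i
    rw [e, pow_mul]
    refine LV2_root g (fun n x => ‖φ x‖ ≤ (C ^ Fintype.card (K ≃ₐ[K0 r] K)) ^ n) (by simp)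
      (fun n x a => by rwa [map_neg, norm_neg]) fun n x σ a => ?_
    rw [map_mul, norm_mul, pow_succ']
    exact mul_le_mul (one σ) a (norm_nonneg _) ((norm_nonneg _).trans (one σ))
  · have one : ∀ σ : k ≃ₐ[K0 r] k, V.valuation (σ g) ≤ z := fun σ => by
      rw [hg, map_prod, map_prod,
        ← Finset.mul_prod_erase _ _ (Finset.mem_univ (σ.restrictNormal K)⁻¹), ← mul_one z]
      refine mul_le_mul' (h (σ * ((σ.restrictNormal K)⁻¹).liftNormal k) fun t ht => ?_)
        (Finset.prod_le_one' fun τ _ => (V.valuation_le_one_iff _).2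
          (hG.mem_of_integral (integral_conj _ (integral_conj _ hi))))
      lift t to K using hK t ht
      have a1 := ((σ.restrictNormal K)⁻¹).liftNormal_commutes k t
      have a2 := σ.restrictNormal_commutes K ((σ.restrictNormal K)⁻¹ t)
      rw [← AlgEquiv.mul_apply, mul_inv_cancel, AlgEquiv.one_apply, ← a1] at a2
      exact a2.symm
    rw [e]
    refine LV2_root g (fun n x => V.valuation x ≤ z ^ n) (by simp)
      (fun n x a => by rwa [Valuation.map_neg]) fun n x σ a => ?_
    rw [map_mul, pow_succ']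
    exact mul_le_mul' (one σ) a

/-- With `e` from `Gen.pow_dvd`, `a`, `m` from `lv_norm` and `i` from `Gen.val`:
`v w ^ i ≤ v π ^ (J * m) ≤ v w ^ (J * m / e)`, so `J * m / e ≤ i ≤ c * (E * (N * m))`. -/
theorem lv [IsAlgClosed k] [CharZero k] [Algebra.IsAlgebraic (K0 r) k] {V : ValuationSubring k}
    {w : Zt r} (hG : Gen r V w) {π : k} (hπ : π ∈ V.nonunits) (T : Finset k) {B : ℝ}
    (hB : 1 ≤ B) :
    ∃ c : ℕ, ∀ (γ : k) (E J : ℕ), γ ≠ 0 → (jj r k).IsIntegralElem γ →
      (∀ φ : k →+* ℂ, AE r φ → ‖φ γ‖ ≤ B ^ E) →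
      (∀ τ : k ≃ₐ[K0 r] k, (∀ t ∈ T, τ t = t) → V.valuation (τ γ) ≤ V.valuation π ^ J) →
      J ≤ c * (E + 1) := by
  obtain ⟨e, he, h1⟩ := hG.pow_dvd hπ
  obtain ⟨c, hc⟩ := lv_base (k := k) hG.prime hB
  obtain ⟨N, hN⟩ := lv_norm hG T
  refine ⟨e * (c * N + 1), fun γ E J h0 hi ha hv => ?_⟩
  obtain ⟨a, m, a0, hm, b1, b2⟩ := hN γ h0 hi
  obtain ⟨i, d1, d2⟩ := hG.val a0
  have c1 := hc a (E * (N * m)) i a0 d1 fun φ hφ => by
    rw [pow_mul]
    exact b1 _ ha φ hφ
  have x0 : 0 < V.valuation (jj r k w) := (Valuation.pos_iff _).2 fun c =>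
    hG.prime.ne_zero (jj_injective (c.trans (map_zero _).symm))
  have x1 : V.valuation (jj r k w) < 1 := V.mem_nonunits_iff.1 ((hG.non w).2 dvd_rfl)
  have y1 : V.valuation π ≤ 1 := (V.mem_nonunits_iff.1 hπ).le
  have c2 : J * m / e ≤ i := by
    rw [← pow_le_pow_iff_right_of_lt_one₀ x0 x1, ← d2]
    refine (b2 _ hv).trans (le_trans ?_ (pow_le_pow_left' h1 _))
    rw [← pow_mul, ← pow_mul]
    exact pow_le_pow_right_of_le_one' y1 (Nat.mul_div_le _ _)
  have c3 : J * m < e * (J * m / e + 1) := Nat.lt_mul_div_succ _ he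
  have c4 : e * (J * m / e + 1) ≤ e * (c * N + 1) * (E + 1) * m := by
    rw [mul_assoc, mul_assoc]
    refine Nat.mul_le_mul_left _ ?_
    have : (c * N + 1) * ((E + 1) * m) = c * (E * (N * m)) + m + (c * N * m + E * m) := by ring
    omega
  exact (Nat.lt_of_mul_lt_mul_right (c3.trans_le c4)).le

end Pool.Agent.Work.MP_0a826e_ag.G
end

-- merged part: Pool.Agent.Work.MP_0a826e_ag.G.Asy
section
/-!
Determinants: divisibility, nonzero minors, and the choice of the constants.
-/

namespace Pool.Agent.Work.MP_0a826e_ag.G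

theorem Asy_grow (a b0 : ℕ) : ∃ k : ℕ, a * k + b0 ≤ 2 ^ k := by
  refine ⟨2 * (2 * a + b0), ?_⟩
  have h1 : 2 * a + b0 + 1 ≤ 2 ^ (2 * a + b0) := Nat.lt_two_pow_self
  have h2 : (2 * a + b0 + 1) * (2 * a + b0 + 1) ≤ 2 ^ (2 * (2 * a + b0)) := by
    rw [two_mul (2 * a + b0), pow_add]
    exact Nat.mul_le_mul h1 h1
  nlinarith [Nat.zero_le a, Nat.zero_le b0, Nat.zero_le (a * b0), Nat.zero_le (b0 * b0),
    Nat.zero_le (a * a)]

theorem Asy_b (c1 s L b : ℕ) (hs : 1 ≤ s) (hb : b * (s * L + 1) ≤ c1 * (s * L + 1) ^ s) :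
    b * (L + 1) ≤ (c1 * s ^ s + 1) * (L + 1) ^ s := by
  have h1 : L + 1 ≤ s * L + 1 := by nlinarith
  have h2 : s * L + 1 ≤ s * (L + 1) := by nlinarith
  have h3 : (s * L + 1) ^ s ≤ s ^ s * (L + 1) ^ s := by
    rw [← mul_pow]
    exact Nat.pow_le_pow_left h2 s
  calc b * (L + 1) ≤ b * (s * L + 1) := Nat.mul_le_mul_left _ h1
    _ ≤ c1 * (s * L + 1) ^ s := hb
    _ ≤ c1 * (s ^ s * (L + 1) ^ s) := Nat.mul_le_mul_left _ h3
    _ ≤ (c1 * s ^ s + 1) * (L + 1) ^ s := by
        rw [add_mul, one_mul, mul_assoc]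
        exact Nat.le_add_right _ _

theorem Asy_fin (c E A b P : ℕ) (hP : 1 ≤ P) (h1 : 2 * (A * b) ≤ P) (h2 : 2 * c * (E + 1) < A) :
    c * (P * E + 1) < A * (P - A * b) := by
  obtain ⟨R, hR⟩ : ∃ R, P = A * b + R := ⟨P - A * b, by omega⟩
  have hR2 : P ≤ 2 * R := by omega
  have e : P - A * b = R := by omega
  rw [e]
  have h3 : 2 * (c * (P * E + 1)) ≤ 2 * c * (E + 1) * P := by nlinarith [Nat.zero_le c]
  have h4 : 2 * c * (E + 1) * P < A * P := Nat.mul_lt_mul_of_pos_right h2 (by omega)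
  have h5 : A * P ≤ A * (2 * R) := Nat.mul_le_mul_left _ hR2
  nlinarith

/-- Put `c2 = c1 * s ^ s + 1`, so that `b * (L + 1) ≤ c2 * (L + 1) ^ s`; take `d ^ n0 ≥ 16 * c * c2
* s`, `A = (L + 1) / (2 * c2)`, `k = s * k'` where `L + 1 ≤ 2 ^ k'` and `k'` is small compared with
`L` (for instance `L + 1 = 2 ^ k'` with `k'` large).  Then `2 * (A * b) ≤ (L + 1) ^ s` and
`2 * c * (E + 1) < A` for `E = n * M + s * L / d ^ n0 + k`. -/
theorem asym (c c1 s d n : ℕ) (hd : 2 ≤ d) (hs : 1 ≤ s) :
    ∃ n0 : ℕ, ∀ M : ℕ, ∃ L : ℕ, ∀ b : ℕ, b * (s * L + 1) ≤ c1 * (s * L + 1) ^ s →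
      ∃ A k : ℕ, (L + 1) ^ s ≤ 2 ^ k ∧
        c * ((L + 1) ^ s * (n * M + s * L / d ^ n0 + k) + 1) < A * ((L + 1) ^ s - A * b) := by
  obtain ⟨c2, hc2⟩ : ∃ c2, c2 = c1 * s ^ s + 1 := ⟨_, rfl⟩
  have hc2p : 0 < c2 := by omega
  refine ⟨16 * c * c2 * s, fun M => ?_⟩
  obtain ⟨D, hD⟩ : ∃ D, D = d ^ (16 * c * c2 * s) := ⟨_, rfl⟩
  have hD1 : 16 * c * c2 * s ≤ D := by
    rw [hD]
    exact le_trans (Nat.lt_two_pow_self).le (Nat.pow_le_pow_left hd _)
  obtain ⟨k, hk⟩ := Asy_grow (8 * c * c2 * s) (8 * c * c2 * (n * M + 1) + 4 * c2)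
  obtain ⟨L, hL⟩ : ∃ L, 2 ^ k = L + 1 := ⟨2 ^ k - 1, by have := Nat.one_le_two_pow (n := k); omega⟩
  refine ⟨L, fun b hb => ⟨(L + 1) / (2 * c2), k * s, ?_, ?_⟩⟩
  · rw [pow_mul, hL]
  · rw [← hD]
    obtain ⟨A, hA⟩ : ∃ A, A = (L + 1) / (2 * c2) := ⟨_, rfl⟩
    rw [← hA]
    have hA1 : 2 * c2 * A ≤ L + 1 := by
      rw [hA]
      exact Nat.mul_div_le _ _
    have hA2 : L + 1 < 2 * c2 * (A + 1) := by
      rw [hA]
      exact Nat.lt_mul_div_succ _ (by omega)
    have hb2 := Asy_b c1 s L b hs hb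
    rw [← hc2] at hb2
    obtain ⟨P, hP⟩ : ∃ P, P = (L + 1) ^ s := ⟨_, rfl⟩
    rw [← hP] at hb2 ⊢
    have hP1 : 1 ≤ P := by
      rw [hP]
      exact Nat.one_le_pow _ _ (by omega)
    obtain ⟨q, hq⟩ : ∃ q, q = s * L / D := ⟨_, rfl⟩
    rw [← hq]
    have hq1 : D * q ≤ s * L := by
      rw [hq]
      exact Nat.mul_div_le _ _
    have hq2 : 16 * c * c2 * q ≤ L := by
      have h1 : s * (16 * c * c2 * q) ≤ s * L := by
        calc s * (16 * c * c2 * q) = 16 * c * c2 * s * q := by ring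
          _ ≤ D * q := Nat.mul_le_mul_right _ hD1
          _ ≤ s * L := hq1
      exact Nat.le_of_mul_le_mul_left h1 (by omega)
    apply Asy_fin c _ A b P hP1
    · have h1 : 2 * (A * b) * (L + 1) ≤ P * (L + 1) := by
        calc 2 * (A * b) * (L + 1) = 2 * A * (b * (L + 1)) := by ring
          _ ≤ 2 * A * (c2 * P) := Nat.mul_le_mul_left _ hb2
          _ = P * (2 * c2 * A) := by ring
          _ ≤ P * (L + 1) := Nat.mul_le_mul_left _ hA1
      exact Nat.le_of_mul_le_mul_right h1 (by omega)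
    · have h1 : 2 * c2 * (2 * c * (n * M + q + k * s + 1)) < 2 * c2 * A := by
        rw [hL] at hk
        have e1 : 2 * c2 * (2 * c * (n * M + q + k * s + 1)) * 4 =
            2 * (8 * c * c2 * s * k + 8 * c * c2 * (n * M + 1)) + 16 * c * c2 * q := by ring
        have e2 : 2 * c2 * (A + 1) = 2 * c2 * A + 2 * c2 := by ring
        omega
      exact Nat.lt_of_mul_lt_mul_left h1

end Pool.Agent.Work.MP_0a826e_ag.G
end

-- merged part: Pool.Agent.Work.MP_0a826e_ag.G.Core1
section
/-!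
The determinant vanishes; no dense set of points with finite orbit lies in a tube.
-/

namespace Pool.Agent.Work.MP_0a826e_ag.G

open MvPolynomial IsLocalRing
open Pool.Agent.Work.MP_0a826e_ag.R (K0 AE)

variable {n s t : ℕ}

/-- all determinants of the right size vanish -/
def Van {k : Type} [Field k] (D : Dat k n s t) : Prop :=
  ∃ n0 : ℕ, ∀ M : ℕ, ∃ L : ℕ, ∀ (μ α : (Fin s → Fin (L + 1)) → Fin n →₀ ℕ)
    (x : (Fin s → Fin (L + 1)) → Fin n → k),
    (∀ i, (∀ a, μ i a < M) ∧ (μ i).degree + D.d ^ n0 * (α i).degree ≤ s * L) →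
    (∀ l, D.Good (x l)) →
    (Matrix.of fun i l => eval (x l) (mon (μ i) (itr D.F n0) (α i))).det = 0

theorem Core1_map {R R' : Type} [CommRing R] [CommRing R'] (f : R →+* R') {ι : Type} [Fintype ι]
    [DecidableEq ι] (F : Fin n → Pn n R) (n0 : ℕ) (μ α : ι → Fin n →₀ ℕ) (x : ι → Fin n → R) :
    f (Matrix.of fun i l => eval (x l) (mon (μ i) (itr F n0) (α i))).det =
      (Matrix.of fun i l =>
        eval (f ∘ x l) (mon (μ i) (itr (fun j => map f (F j)) n0) (α i))).det := by
  rw [RingHom.map_det]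
  congr 1
  ext i l
  rw [RingHom.mapMatrix_apply, Matrix.map_apply, Matrix.of_apply, Matrix.of_apply, ← eval_map_comp,
    map_mon, funext (map_itr f F n0)]

theorem Core1_deg {M : ℕ} {μ : Fin n →₀ ℕ} (h : ∀ a, μ a < M) : μ.degree ≤ n * M := by
  rw [Finsupp.degree_eq_sum]
  exact (Finset.sum_le_card_nsmul _ _ M fun a _ => (h a).le).trans (by simp)

/-- `ρ`, `B` from `tame`, `T` from `Dat.exists_fix`, `c` from `lv`, constants from `asym` with
`c1 = M' ^ n * β0.degree`, `size` with `E1 = n * M + s * L / d ^ n0`.  For `τ` fixing `T`, the image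
of the determinant is the determinant at the good points `τ ∘ x l` (`eval_map_comp`, `map_mon`,
`map_itr`), which come from `V` (`Dat.Good.of_map`, `esc_sub`), so `Dat.gain` applies to the
polynomials `mon (μ i) (itr D.F n0) (α i)` over `V` (`totalDegree_mon_le`, `itr_hom`). -/
theorem core {r : ℕ} {k : Type} [Field k] [Algebra (K0 r) k] [IsAlgClosed k] [CharZero k]
    [Algebra.IsAlgebraic (K0 r) k] {V : ValuationSubring k} {w : Zt r} (hG : Gen r V w)
    {D : Dat V n s t} (hD : D.OK) (h0 : D.β0 ≠ 0) (hπ : (D.π : k) ∈ V.nonunits) :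
    Van (D.map V.subtype) := by
  have hs : 1 ≤ s := by
    rcases s with _ | s
    · exact absurd (Subsingleton.elim _ _) h0
    · omega
  have hD' := hD.map V.subtype
  obtain ⟨ρ, B, hρ, hB, h1, h2⟩ := tame (r := r) hD'.hd hD'.cF
  obtain ⟨T, hT⟩ := (D.map V.subtype).exists_fix
  obtain ⟨c, hc⟩ := lv hG hπ T (B := B) (by linarith)
  obtain ⟨n0, hn0⟩ := asym c (D.M' ^ n * D.β0.degree) s D.d n hD.hd hs
  refine ⟨n0, fun M => ?_⟩
  obtain ⟨L, hL⟩ := hn0 M
  refine ⟨L, fun μ α x hμ hx => ?_⟩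
  by_contra hΔ
  obtain ⟨b, hb, hg⟩ := Dat.gain hD h0 (s * L)
  obtain ⟨A, q, hq, hA⟩ := hL b hb
  have hcard : Fintype.card (Fin s → Fin (L + 1)) = (L + 1) ^ s := by simp
  have hd0 : 0 < D.d ^ n0 := pow_pos (by have := hD.hd; omega) _
  obtain ⟨i1, i2⟩ := size hB h1 h2 n0 (n * M + s * L / D.d ^ n0) q (hcard ▸ hq) μ α
    (fun i => add_le_add (Core1_deg (hμ i).1) ((Nat.le_div_iff_mul_le hd0).2 (by
      have : (μ i).degree + D.d ^ n0 * (α i).degree ≤ s * L := (hμ i).2
      rw [mul_comm]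
      omega))) x fun l => (hx l).pre
  have hj : jj r k ρ ≠ 0 := fun e => hρ (jj_injective (k := k) (e.trans (map_zero _).symm))
  have key := hc _ _ (A * (Fintype.card (Fin s → Fin (L + 1)) - A * b))
    (mul_ne_zero (pow_ne_zero _ hj) hΔ) i1 i2 fun τ hτ => by
      obtain ⟨t1, t2⟩ := hT (τ : k →+* k) hτ
      choose y y1 y2 using fun l => Dat.Good.of_map (D := D) V.subtype_injective
        (fun y hy => esc_sub V hD.hd hD.cF hy) (t2 _ (hx l))
      obtain ⟨u, hu⟩ := hg (Fin s → Fin (L + 1)) (fun i => mon (μ i) (itr D.F n0) (α i)) y A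
        (fun i => (totalDegree_mon_le _ (fun j => (itr_hom hD.hom n0 j).totalDegree_le) _).trans
          (hμ i).2) y1
      have e1 := Core1_map (τ : k →+* k) (D.map V.subtype).F n0 μ α x
      have e2 := Core1_map V.subtype D.F n0 μ α y
      simp only [funext t1, ← y2] at e1
      have e3 : τ _ = _ := e1.trans (e2.symm.trans (congrArg _ hu))
      rw [map_mul, map_pow, jj_fix, e3, map_mul, map_pow, map_mul, map_mul, map_pow, map_pow]
      exact (mul_le_of_le_one_left' (pow_le_one' (V.valuation_le_one ⟨_, hG.mem ρ⟩) _)).trans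
        (mul_le_of_le_one_right' (V.valuation_le_one u))
  rw [hcard] at key
  omega

end Pool.Agent.Work.MP_0a826e_ag.G
end

-- merged part: Pool.Agent.Work.MP_0a826e_ag.G.GP0
section
/-!
The base ring for the construction of a generic place, and height one primes.
-/

namespace Pool.Agent.Work.MP_0a826e_ag.G

open MvPolynomial IsLocalRing

/-- the ideal generated by the characteristic -/
noncomputable def rc (c : ℕ) : Ideal (Polynomial ℤ) := Ideal.span {(c : Polynomial ℤ)}

/-- zero or a prime number -/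
class ZP (c : ℕ) : Prop where
  out : c = 0 ∨ c.Prime

theorem mem_rc {c : ℕ} {b : Polynomial ℤ} : b ∈ rc c ↔ ∀ i, (c : ℤ) ∣ b.coeff i := by
  rw [rc, Ideal.mem_span_singleton, ← Polynomial.C_dvd_iff_dvd_coeff, Polynomial.C_eq_natCast]

instance rc_prime (c : ℕ) [ZP c] : (rc c).IsPrime := by
  rcases ZP.out (c := c) with h | h
  · subst h
    rw [rc, Nat.cast_zero, Ideal.span_singleton_zero]
    exact Ideal.isPrime_bot
  · have k : Prime (c : Polynomial ℤ) := by
      rw [← Polynomial.C_eq_natCast]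
      exact Polynomial.prime_C_iff.2 (Nat.prime_iff_prime_int.1 h)
    exact (Ideal.span_singleton_prime k.ne_zero).2 k

/-- the integer polynomials in one variable, localised at the characteristic -/
abbrev A0 (c : ℕ) [ZP c] := Localization.AtPrime (rc c)

/-- the maximal ideal is principal; `tfae_of_isNoetherianRing_of_isLocalRing_of_isDomain` -/
instance A0_pid (c : ℕ) [ZP c] : IsPrincipalIdealRing (A0 c) := by
  refine ((tfae_of_isNoetherianRing_of_isLocalRing_of_isDomain (A0 c)).out 0 4).2 ?_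
  rw [← Localization.AtPrime.map_eq_maximalIdeal]
  refine ⟨⟨algebraMap (Polynomial ℤ) (A0 c) c, ?_⟩⟩
  have k : Ideal.map (algebraMap (Polynomial ℤ) (A0 c)) (Ideal.span {(c : Polynomial ℤ)}) =
      Ideal.span {algebraMap (Polynomial ℤ) (A0 c) c} := by
    rw [Ideal.map_span, Set.image_singleton]
  exact k

instance A0_val (c : ℕ) [ZP c] : ValuationRing (A0 c) := by
  exact ((tfae_of_isNoetherianRing_of_isLocalRing_of_isDomain (A0 c)).out 0 1).1 (A0_pid c)

/-- the residues of the powers of the variable are distinct -/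
instance A0_inf (c : ℕ) [ZP c] : Infinite (ResidueField (A0 c)) := by
  refine Infinite.of_injective (fun k : ℕ =>
    residue (A0 c) (algebraMap (Polynomial ℤ) (A0 c) (Polynomial.X ^ k))) fun k l h => ?_
  by_contra hne
  have h1 : residue (A0 c) (algebraMap (Polynomial ℤ) (A0 c)
      (Polynomial.X ^ k - Polynomial.X ^ l)) = 0 := by
    rw [map_sub, map_sub]
    exact sub_eq_zero.2 h
  rw [residue_eq_zero_iff, IsLocalization.AtPrime.to_map_mem_maximal_iff (A0 c) (rc c)] at h1
  have h2 := mem_rc.1 h1 k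
  rw [Polynomial.coeff_sub, Polynomial.coeff_X_pow, Polynomial.coeff_X_pow, if_pos rfl,
    if_neg hne, sub_zero] at h2
  have h3 : c = 1 := Nat.dvd_one.1 (by exact_mod_cast h2)
  rcases ZP.out (c := c) with h | h
  · omega
  · exact h.ne_one h3

/-- `LocalSubring.ofPrime`, `LocalSubring.exists_le_valuationSubring` -/
theorem exists_dom {K : Type} [Field K] (R : Subring K) (q : Ideal R) [q.IsPrime] :
    ∃ V : ValuationSubring K, (∀ x : R, (x : K) ∈ V) ∧ ∀ x : R, (x : K) ∈ V.nonunits ↔ x ∈ q := by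
  obtain ⟨V, hle, hloc⟩ := (LocalSubring.ofPrime R q).exists_le_valuationSubring
  have hm : ∀ x : R, (x : K) ∈ V := fun x => hle (LocalSubring.le_ofPrime R q x.2)
  refine ⟨V, hm, fun x => ?_⟩
  have k1 : (x : K) ∈ V.nonunits ↔ ¬ IsUnit (⟨x, hm x⟩ : V) :=
    ValuationSubring.coe_mem_nonunits_iff (A := V) (a := ⟨(x : K), hm x⟩)
  have k2 := IsLocalization.AtPrime.isUnit_to_map_iff (LocalSubring.ofPrime R q).toSubring q x
  have k3 : IsUnit (Subring.inclusion hle (algebraMap R (LocalSubring.ofPrime R q).toSubring x)) ↔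
      IsUnit (algebraMap R (LocalSubring.ofPrime R q).toSubring x) := isUnit_map_iff _ _
  have k4 : IsUnit (⟨x, hm x⟩ : V) ↔ x ∈ q.primeCompl := k3.trans k2
  rw [k1, k4]
  exact not_not

theorem GP0_poly (B : Type) [CommRing B] [Countable B] : Countable (Polynomial B) := by
  rw [← Cardinal.mk_le_aleph0_iff]
  exact Polynomial.cardinalMk_le_max.trans (max_le Cardinal.mk_le_aleph0 le_rfl)

theorem GP0_trans {B : Type} [CommRing B] [Countable B] {f : B →+* ℂ}
    (hf : Function.Injective f) : ∃ ξ : ℂ, ∀ q : Polynomial B, q.eval₂ f ξ = 0 → q = 0 := by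
  by_contra hc
  push Not at hc
  have := GP0_poly B
  refine not_countable_complex ((Set.countable_iUnion fun q : Polynomial B =>
    ((q.map f).roots.toFinset.finite_toSet).countable).mono fun ξ _ => ?_)
  obtain ⟨q, h1, h2⟩ := hc ξ
  refine Set.mem_iUnion.2 ⟨q, ?_⟩
  rw [Finset.mem_coe, Multiset.mem_toFinset,
    Polynomial.mem_roots ((Polynomial.map_ne_zero_iff hf).2 h2), Polynomial.IsRoot.def,
    Polynomial.eval_map]
  exact h1

/-- The complex numbers are not algebraic over a countable subring.  The two conditions say that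
`σ` is transcendental over `ℤ[y]` and `ξ` over `ℤ[y, σ]`. -/
theorem exists_two {m : ℕ} (y : Fin m → ℂ) :
    ∃ σ ξ : ℂ, ∀ q : Polynomial (Polynomial (Algebra.adjoin ℤ (Set.range y))),
      q.eval₂ (Polynomial.eval₂RingHom (Algebra.adjoin ℤ (Set.range y)).val.toRingHom σ) ξ = 0 →
        q = 0 := by
  have c0 : Countable (MvPolynomial (Fin m) ℤ) := by
    rw [← Cardinal.mk_le_aleph0_iff]
    exact MvPolynomial.cardinalMk_le_max.trans
      (max_le (max_le Cardinal.mk_le_aleph0 Cardinal.mk_le_aleph0) le_rfl)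
  have c1 : Countable (Algebra.adjoin ℤ (Set.range y)) := by
    rw [Algebra.adjoin_range_eq_range_aeval]
    exact (Set.countable_range (aeval y : MvPolynomial (Fin m) ℤ →ₐ[ℤ] ℂ)).to_subtype
  obtain ⟨σ, hσ⟩ := GP0_trans (f := (Algebra.adjoin ℤ (Set.range y)).val.toRingHom)
    Subtype.val_injective
  have c2 := GP0_poly (Algebra.adjoin ℤ (Set.range y))
  obtain ⟨ξ, hξ⟩ := GP0_trans
    (f := Polynomial.eval₂RingHom (Algebra.adjoin ℤ (Set.range y)).val.toRingHom σ)
    ((injective_iff_map_eq_zero _).2 hσ)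
  exact ⟨σ, ξ, hξ⟩

end Pool.Agent.Work.MP_0a826e_ag.G
end

-- merged part: Pool.Agent.Work.MP_0a826e_ag.G.GP2a
section
/-!
A generic place with prescribed finitely many integrality conditions.
-/

namespace Pool.Agent.Work.MP_0a826e_ag.G

open MvPolynomial IsLocalRing

variable {m : ℕ}

/-- the two independent transcendental numbers -/
def Two (y : Fin m → ℂ) (σ ξ : ℂ) : Prop :=
  ∀ q : Polynomial (Polynomial (Algebra.adjoin ℤ (Set.range y))),
    q.eval₂ (Polynomial.eval₂RingHom (Algebra.adjoin ℤ (Set.range y)).val.toRingHom σ) ξ = 0 →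
      q = 0

/-- evaluation at `σ` -/
noncomputable def GP2a_ph (y : Fin m → ℂ) (σ : ℂ) :
    Polynomial (Algebra.adjoin ℤ (Set.range y)) →+* ℂ :=
  Polynomial.eval₂RingHom (Algebra.adjoin ℤ (Set.range y)).val.toRingHom σ

/-- evaluation at `y` -/
noncomputable def GP2a_ps (y : Fin m → ℂ) :
    Pn m (Polynomial ℤ) →+* Polynomial (Algebra.adjoin ℤ (Set.range y)) :=
  eval₂Hom (Polynomial.mapRingHom (Int.castRingHom _)) fun i =>
    Polynomial.C ⟨y i, Algebra.subset_adjoin ⟨i, rfl⟩⟩

theorem GP2a_inj {y : Fin m → ℂ} {σ ξ : ℂ} (h : Two y σ ξ) : Function.Injective (GP2a_ph y σ) :=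
  (injective_iff_map_eq_zero _).2 fun p hp => Polynomial.C_eq_zero.1 (h (Polynomial.C p) (by
    rw [Polynomial.eval₂_C]
    exact hp))

theorem GP2a_int (y : Fin m → ℂ) (σ : ℂ) (b : Polynomial ℤ) :
    GP2a_ph y σ (b.map (Int.castRingHom _)) = b.eval₂ (Int.castRingHom ℂ) σ := by
  rw [GP2a_ph, Polynomial.coe_eval₂RingHom, Polynomial.eval₂_map]
  exact congrArg (fun f => b.eval₂ f σ) (RingHom.ext_int _ _)

theorem GP2a_val (c : ℕ) [ZP c] (y : Fin m → ℂ) {σ : ℂ} (a : A0 c →+* ℂ)
    (ha : ∀ b : Polynomial ℤ, a (algebraMap _ (A0 c) b) = b.eval₂ (Int.castRingHom ℂ) σ)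
    (g : Pn m (Polynomial ℤ)) :
    GP2a_ph y σ (GP2a_ps y g) = eval₂ a y (map (algebraMap _ (A0 c)) g) := by
  induction g using MvPolynomial.induction_on with
  | C b =>
    rw [map_C, eval₂_C, ha, GP2a_ps, eval₂Hom_C]
    exact GP2a_int y σ b
  | add p q hp hq => rw [map_add, map_add, map_add, eval₂_add, hp, hq]
  | mul_X p i hp =>
    rw [map_mul, map_mul, map_mul, eval₂_mul, hp, map_X, eval₂_X, GP2a_ps, eval₂Hom_X', GP2a_ph,
      Polynomial.coe_eval₂RingHom, Polynomial.eval₂_C]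
    rfl

theorem GP2a_den (c : ℕ) [ZP c] (g : Pn m (A0 c)) : ∃ b ∉ rc c, ∃ g' : Pn m (Polynomial ℤ),
    map (algebraMap _ (A0 c)) g' = C (algebraMap _ (A0 c) b) * g := by
  have hp : (rc c).IsPrime := inferInstance
  induction g using MvPolynomial.induction_on with
  | C x =>
    obtain ⟨⟨r, b⟩, e⟩ := IsLocalization.surj (rc c).primeCompl x
    exact ⟨b, b.2, C r, by rw [map_C, ← e, ← C_mul, mul_comm]⟩
  | add p q h1 h2 =>
    obtain ⟨b, hb, p', e⟩ := h1
    obtain ⟨b', hb', q', e'⟩ := h2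
    refine ⟨b * b', fun k => (hp.mem_or_mem k).elim hb hb', C b' * p' + C b * q', ?_⟩
    rw [map_add, map_mul, map_mul, e, e', map_C, map_C, map_mul, map_mul]
    ring
  | mul_X p i h1 =>
    obtain ⟨b, hb, p', e⟩ := h1
    exact ⟨b, hb, p' * X i, by rw [map_mul, e, map_X, mul_assoc]⟩

/-- `IsLocalization.lift`: a nonzero integer polynomial does not vanish at `σ` -/
theorem exists_base (c : ℕ) [ZP c] {y : Fin m → ℂ} {σ ξ : ℂ} (h : Two y σ ξ) :
    ∃ a : A0 c →+* ℂ, Function.Injective a ∧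
      ∀ b : Polynomial ℤ, a (algebraMap _ (A0 c) b) = b.eval₂ (Int.castRingHom ℂ) σ := by
  let f : Polynomial ℤ →+* ℂ := Polynomial.eval₂RingHom (Int.castRingHom ℂ) σ
  have hf : Function.Injective f := fun b b' e => Polynomial.map_injective _
    (RingHom.injective_int _) (GP2a_inj h ((GP2a_int y σ b).trans (e.trans (GP2a_int y σ b').symm)))
  have hu : ∀ b : (rc c).primeCompl, IsUnit (f b) := fun b => IsUnit.mk0 _ fun e =>
    b.2 (hf (e.trans (map_zero f).symm) ▸ (rc c).zero_mem)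
  refine ⟨IsLocalization.lift hu, (IsLocalization.lift_injective_iff hu).2 fun b b' => ?_,
    fun b => IsLocalization.lift_eq hu b⟩
  rw [hf.eq_iff, (IsLocalization.injective (A0 c) (rc c).primeCompl_le_nonZeroDivisors).eq_iff]

/-- Clear denominators (`IsLocalization.exist_integer_multiples`); the value is
`∑ e, (component e of g)(y) * ξ ^ e`. -/
theorem ker_hom (c : ℕ) [ZP c] {y : Fin m → ℂ} {σ ξ : ℂ} (h : Two y σ ξ) (a : A0 c →+* ℂ)
    (ha : ∀ b : Polynomial ℤ, a (algebraMap _ (A0 c) b) = b.eval₂ (Int.castRingHom ℂ) σ)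
    {g : Pn m (A0 c)} (hg : eval₂ a (fun i => y i * ξ) g = 0) (e : ℕ) :
    eval₂ a y (homogeneousComponent e g) = 0 := by
  obtain ⟨b, hb, g', e'⟩ := GP2a_den c g
  have hu : a (algebraMap _ (A0 c) b) ≠ 0 :=
    ((IsLocalization.map_units (A0 c) (⟨b, hb⟩ : (rc c).primeCompl)).map a).ne_zero
  have k : ∀ j, GP2a_ph y σ (GP2a_ps y (homogeneousComponent j g')) * ξ ^ j =
      eval₂ a (fun i => y i * ξ) (map (algebraMap _ (A0 c)) (homogeneousComponent j g')) := by
    intro j
    have t := eval_smul_hom (((homogeneousComponent_isHomogeneous j g').map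
      (algebraMap _ (A0 c))).map a) ξ y
    rw [eval_map, eval_map] at t
    rw [GP2a_val c y a ha, mul_comm, ← t]
    exact congrArg (fun v => eval₂ a v _) (funext fun i => mul_comm _ _)
  have q := h (∑ j ∈ Finset.range (g'.totalDegree + 1),
      Polynomial.monomial j (GP2a_ps y (homogeneousComponent j g'))) (by
    rw [Polynomial.eval₂_finsetSum]
    simp only [Polynomial.eval₂_monomial]
    refine (Finset.sum_congr rfl fun j _ => k j).trans ?_
    rw [← eval₂_sum, ← map_sum, sum_homogeneousComponent, e', eval₂_mul, hg, mul_zero])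
  have z : GP2a_ps y (homogeneousComponent e g') = 0 := by
    by_cases l : e ∈ Finset.range (g'.totalDegree + 1)
    · have := congrArg (Polynomial.coeff · e) q
      simp only [Polynomial.finsetSum_coeff, Polynomial.coeff_monomial, Finset.sum_ite_eq',
        if_pos l, Polynomial.coeff_zero] at this
      exact this
    · rw [homogeneousComponent_eq_zero _ _ (by simpa using l), map_zero]
  have v := GP2a_val c y a ha (homogeneousComponent e g')
  rw [z, map_zero, ← hc_map, e', homogeneousComponent_C_mul, eval₂_mul, eval₂_C] at v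
  exact (mul_eq_zero.1 v.symm).resolve_left hu

/-- If `y i0 * g(y) = 1`, clear denominators to get `y i0 * g'(σ, y) = b(σ)` with `b ∉ rc c`, and
compare the coefficients of the powers of `σ`: an integer not divisible by `c` is a unit of `O`. -/
theorem not_unit (O : ValuationSubring ℂ) (c : ℕ) [ZP c] [CharP (ResidueField O) c]
    {y : Fin m → ℂ} (hy : ∀ i, y i ∈ O) {i0 : Fin m} (h0 : y i0 ∈ O.nonunits) {σ ξ : ℂ}
    (h : Two y σ ξ) (a : A0 c →+* ℂ)
    (ha : ∀ b : Polynomial ℤ, a (algebraMap _ (A0 c) b) = b.eval₂ (Int.castRingHom ℂ) σ)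
    (g : Pn m (A0 c)) : y i0 * eval₂ a y g ≠ 1 := by
  intro e
  obtain ⟨b, hb, g', e'⟩ := GP2a_den c g
  let y0 : Algebra.adjoin ℤ (Set.range y) := ⟨y i0, Algebra.subset_adjoin ⟨i0, rfl⟩⟩
  have k : Polynomial.C y0 * GP2a_ps y g' = b.map (Int.castRingHom _) := GP2a_inj h (by
    rw [map_mul, GP2a_val c y a ha, GP2a_int, e', eval₂_mul, eval₂_C, ha, GP2a_ph,
      Polynomial.coe_eval₂RingHom, Polynomial.eval₂_C, mul_left_comm]
    exact (congrArg _ e).trans (mul_one _))
  have hS : ∀ x : Algebra.adjoin ℤ (Set.range y), (x : ℂ) ∈ O := fun x =>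
    (Algebra.adjoin_le (S := subalgebraOfSubring O.toSubring) (by
      rintro _ ⟨i, rfl⟩
      exact hy i)) x.2
  refine hb (mem_rc.2 fun i => ?_)
  have t := congrArg (fun p => ((Polynomial.coeff p i : Algebra.adjoin ℤ (Set.range y)) : ℂ)) k
  simp only [Polynomial.coeff_C_mul, Polynomial.coeff_map, eq_intCast, MulMemClass.coe_mul,
    SubringClass.coe_intCast] at t
  have u : (⟨y i0, hy i0⟩ : O) * ⟨_, hS ((GP2a_ps y g').coeff i)⟩ = (b.coeff i : O) :=
    Subtype.ext (t.trans (SubringClass.coe_intCast O _).symm)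
  have w : ((b.coeff i : ℤ) : O) ∈ maximalIdeal O :=
    u ▸ Ideal.mul_mem_right _ _ (ValuationSubring.coe_mem_nonunits_iff.1 h0)
  rw [← residue_eq_zero_iff, map_intCast] at w
  exact (CharP.intCast_eq_zero_iff _ c _).1 w

end Pool.Agent.Work.MP_0a826e_ag.G
end

-- merged part: Pool.Agent.Work.MP_0a826e_ag.G.GP1
section
/-!
The base ring for the construction of a generic place, and height one primes.
-/

namespace Pool.Agent.Work.MP_0a826e_ag.G

open MvPolynomial IsLocalRing

/-- Take a prime element `w` in the contraction.  If the contraction is larger than `span {w}`,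
going down gives a prime `q' < q` over `span {w} ≠ ⊥`, so `⊥ < q' < q`. -/
theorem pd {B R : Type} [CommRing B] [IsDomain B] [UniqueFactorizationMonoid B] [CommRing R]
    [IsDomain R] [Algebra B R] [Algebra.HasGoingDown B R] (q : Ideal R) [q.IsPrime]
    (hinj : Function.Injective (algebraMap B R)) (hq : q.height ≤ 1)
    (h0 : q.comap (algebraMap B R) ≠ ⊥) :
    ∃ w : B, Prime w ∧ q.comap (algebraMap B R) = Ideal.span {w} := by
  have hp : (q.comap (algebraMap B R)).IsPrime := Ideal.comap_isPrime _ _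
  obtain ⟨w, hwm, hw⟩ := hp.exists_mem_prime_of_ne_bot h0
  refine ⟨w, hw, ?_⟩
  have hle : Ideal.span {w} ≤ q.comap (algebraMap B R) :=
    (Ideal.span_singleton_le_iff_mem _).mpr hwm
  by_contra hne
  have hlt : Ideal.span {w} < q.under B := lt_of_le_of_ne hle (fun h => hne h.symm)
  have hwp : (Ideal.span {w}).IsPrime := (Ideal.span_singleton_prime hw.ne_zero).mpr hw
  obtain ⟨P, hPq, hP, hPo⟩ :=
    Ideal.exists_ideal_lt_liesOver_of_lt (p := Ideal.span {w}) (q := q.under B) q hlt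
  have hwP : algebraMap B R w ∈ P := by
    have : w ∈ P.under B := by
      rw [← hPo.over]
      exact Ideal.mem_span_singleton_self w
    exact this
  have hP0 : P ≠ ⊥ := by
    intro h
    rw [h, Ideal.mem_bot] at hwP
    exact hw.ne_zero (hinj (by rw [hwP, map_zero]))
  have h1 : P.height + 1 ≤ q.height := Ideal.height_add_one_le_of_lt_of_isPrime hPq
  have h2 : P.height ≠ 0 := fun h => hP0 (Ideal.height_eq_zero_iff_eq_bot.mp h)
  have h3 : (1 : ℕ∞) ≤ P.height := Order.one_le_iff_ne_zero.mpr h2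
  have h4 : (1 : ℕ∞) + 1 ≤ 1 := le_trans (add_le_add h3 le_rfl) (h1.trans hq)
  exact absurd h4 (by decide)

/-- The general form: `C` is a localisation of the factorial ring `B`, normal and Noetherian, and
`R` is a finite injective `C`-algebra. -/
theorem GP1_gen {B C R : Type} [CommRing B] [IsDomain B] [UniqueFactorizationMonoid B]
    [CommRing C] [IsDomain C] [IsIntegrallyClosed C] [IsNoetherianRing C] [CommRing R] [IsDomain R]
    [Algebra B C] (M : Submonoid B) [IsLocalization M C] (hM : M ≤ nonZeroDivisors B)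
    (θ : C →+* R) (hinj : Function.Injective θ) (hfin : θ.Finite)
    (N : Ideal R) [N.IsPrime] {x : R} (hx : x ∈ N) (h0 : x ≠ 0) :
    ∃ (q : Ideal R) (w : B), q.IsPrime ∧ q ≤ N ∧ x ∈ q ∧
      Prime w ∧ ∀ a, θ (algebraMap B C a) ∈ q ↔ w ∣ a := by
  let : Algebra C R := θ.toAlgebra
  let : Algebra B R := (θ.comp (algebraMap B C)).toAlgebra
  have : IsScalarTower B C R := IsScalarTower.of_algebraMap_eq (fun _ => rfl)
  have : Module.Finite C R := hfin
  have : FaithfulSMul C R := (faithfulSMul_iff_algebraMap_injective C R).mpr hinj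
  have : Module.Flat B C := IsLocalization.flat C M
  have : Algebra.HasGoingDown B R := Algebra.HasGoingDown.trans B C R
  have : IsNoetherianRing R := IsNoetherianRing.of_finite C R
  obtain ⟨q, hqmin, hqN⟩ := Ideal.exists_minimalPrimes_le
    ((Ideal.span_singleton_le_iff_mem N).mpr hx)
  have hq : q.IsPrime := hqmin.1.1
  have hxq : x ∈ q := hqmin.1.2 (Ideal.mem_span_singleton_self x)
  have hh : q.height ≤ 1 := Ideal.height_le_one_of_isPrincipal_of_mem_minimalPrimes _ q hqmin
  have hBC : Function.Injective (algebraMap B C) := IsLocalization.injective C hM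
  have hBR : Function.Injective (algebraMap B R) := hinj.comp hBC
  have hC : q.comap (algebraMap C R) ≠ ⊥ :=
    Ideal.comap_ne_bot_of_integral_mem h0 hxq (Algebra.IsIntegral.isIntegral x)
  have hB : q.comap (algebraMap B R) ≠ ⊥ := by
    obtain ⟨y, hy, hy0⟩ := (Submodule.ne_bot_iff _).mp hC
    obtain ⟨⟨a, m⟩, hm⟩ := IsLocalization.surj M y
    refine (Submodule.ne_bot_iff _).mpr ⟨a, ?_, ?_⟩
    · have h1 : algebraMap B C a ∈ q.comap (algebraMap C R) := by
        rw [← hm]
        exact Ideal.mul_mem_right _ _ hy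
      exact h1
    · rintro rfl
      have h2 : algebraMap B C (m : B) ≠ 0 := by
        intro h
        exact nonZeroDivisors.ne_zero (hM m.2) (hBC (by rw [h, map_zero]))
      rw [map_zero] at hm
      exact (mul_ne_zero hy0 h2) hm
  obtain ⟨w, hw, he⟩ := pd q hBR hh hB
  refine ⟨q, w, hq, hqN, hxq, hw, fun a => ?_⟩
  rw [← Ideal.mem_span_singleton, ← he]
  exact Iff.rfl

/-- Let `C = MvPolynomial (Fin s) (A0 c)`, a localisation of `B = MvPolynomial (Fin s) ℤ[X]`
(`MvPolynomial.isLocalization`, flat, so going down holds), integrally closed as it is factorial;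
going down holds for the integral extension `C → R` (RingTheory/IntegralClosure/GoingDown).
Take `q` minimal over `x` inside `N` (`Ideal.exists_minimalPrimes_le`), Krull
(`Ideal.height_le_one_of_isPrincipal_of_mem_minimalPrimes`); its contraction to `C` is nonzero
(`Ideal.comap_ne_bot_of_integral_mem`), hence also the contraction to `B`; apply `pd`. -/
theorem exists_divisor (c s : ℕ) [ZP c] {R : Type} [CommRing R] [IsDomain R]
    (θ : Pn s (A0 c) →+* R) (hinj : Function.Injective θ)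
    (hfin : RingHom.Finite (A := Pn s (A0 c)) θ)
    (N : Ideal R) [N.IsPrime] {x : R} (hx : x ∈ N) (h0 : x ≠ 0) :
    ∃ (q : Ideal R) (w : Pn s (Polynomial ℤ)), q.IsPrime ∧ q ≤ N ∧ x ∈ q ∧
      Prime w ∧ ∀ a, θ (map (algebraMap (Polynomial ℤ) (A0 c)) a) ∈ q ↔ w ∣ a := by
  let : Algebra (Pn s (Polynomial ℤ)) (Pn s (A0 c)) := MvPolynomial.algebraMvPolynomial
  have : IsLocalization ((rc c).primeCompl.map (C (σ := Fin s))) (Pn s (A0 c)) :=
    MvPolynomial.isLocalization _ _
  have hM : (rc c).primeCompl.map (C (σ := Fin s)) ≤ nonZeroDivisors (Pn s (Polynomial ℤ)) := by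
    rintro _ ⟨a, ha, rfl⟩
    refine mem_nonZeroDivisors_of_ne_zero ?_
    intro h
    have h1 : a = 0 := C_injective (Fin s) _ (by rw [h, map_zero])
    exact ha (h1 ▸ (rc c).zero_mem)
  exact GP1_gen _ hM θ hinj hfin N hx h0

end Pool.Agent.Work.MP_0a826e_ag.G
end

-- merged part: Pool.Agent.Work.MP_0a826e_ag.G.GN1
section
/-!
Graded Noether normalisation by linear forms over a valuation ring with infinite residue field.
-/

namespace Pool.Agent.Work.MP_0a826e_ag.G

open MvPolynomial IsLocalRing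

variable {n s : ℕ}

/-- One step.  Let `p ≠ 0` be a form of degree `δ ≥ 1` with `aeval l p ∈ I`.  Choose `c` with
`eval c p ≠ 0` (`MvPolynomial.funext`, infinite field) and `j0` with `c j0 ≠ 0`; scale so that
`c j0 = 1`.  Put `l' j = l (j0.succAbove j) - C (c (j0.succAbove j)) * l j0`.  Modulo the `l' j`
one has `l j = C (c j) * l j0`, so `aeval l p = C (eval c p) * l j0 ^ δ`, and `l j0`, hence every
`l j`, lies in the radical of `span (range l') ⊔ I`. -/
theorem gn_step {K : Type} [Field K] [Infinite K] (I : Ideal (Pn n K))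
    (l : Fin (s + 1) → Pn n K) (hl : ∀ j, (l j).IsHomogeneous 1) {p : Pn (s + 1) K} {δ : ℕ}
    (hδ : 1 ≤ δ) (hp : p.IsHomogeneous δ) (h0 : p ≠ 0) (hpI : aeval l p ∈ I) :
    ∃ l' : Fin s → Pn n K, (∀ j, (l' j).IsHomogeneous 1) ∧
      (Ideal.span (Set.range l) ⊔ I).radical ≤ (Ideal.span (Set.range l') ⊔ I).radical := by
  obtain ⟨c, j0, c1, hc⟩ : ∃ (c : Fin (s + 1) → K) (j0 : Fin (s + 1)), c j0 = 1 ∧ eval c p ≠ 0 := by
    obtain ⟨c, hc⟩ : ∃ c : Fin (s + 1) → K, eval c p ≠ 0 := by
      by_contra! k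
      exact h0 (MvPolynomial.funext fun x => by rw [k x, map_zero])
    obtain ⟨j0, hj⟩ : ∃ j0, c j0 ≠ 0 := by
      by_contra! k
      have e := eval_smul_hom hp 0 c
      rw [zero_smul, zero_pow (by omega), zero_mul, ← (_root_.funext k : c = 0)] at e
      exact hc e
    refine ⟨(c j0)⁻¹ • c, j0, by simp [hj], ?_⟩
    rw [eval_smul_hom hp]
    exact mul_ne_zero (pow_ne_zero _ (inv_ne_zero hj)) hc
  refine ⟨fun j => l (j0.succAbove j) - C (c (j0.succAbove j)) * l j0,
    fun j => (hl _).sub ((hl j0).C_mul _), ?_⟩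
  generalize hJ : Ideal.span (Set.range fun j =>
    l (j0.succAbove j) - C (c (j0.succAbove j)) * l j0) ⊔ I = J
  have hIJ : I ≤ J := hJ ▸ le_sup_right
  have m : ∀ j, l j - C (c j) * l j0 ∈ J := fun j => by
    refine Fin.succAboveCases j0 ?_ (fun i => ?_) j
    · rw [c1, map_one, one_mul, sub_self]
      exact J.zero_mem
    · exact hJ ▸ Ideal.mem_sup_left (Ideal.subset_span ⟨i, rfl⟩)
  have e1 : (fun j => Ideal.Quotient.mkₐ K J (l j)) =
      Ideal.Quotient.mkₐ K J (l j0) • (algebraMap K (Pn n K ⧸ J) ∘ c) := by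
    funext j
    rw [Pi.smul_apply, smul_eq_mul, mul_comm, Function.comp_apply,
      ← (Ideal.Quotient.mkₐ K J).commutes, ← map_mul]
    exact Ideal.Quotient.eq.2 (m j)
  have e2 : Ideal.Quotient.mkₐ K J (aeval l p) = 0 := Ideal.Quotient.eq_zero_iff_mem.2 (hIJ hpI)
  rw [← AlgHom.comp_apply, comp_aeval, e1, aeval_def, ← eval_map, eval_smul_hom (hp.map _),
    eval_map_comp, ((IsUnit.mk0 _ hc).map _).mul_left_eq_zero, ← map_pow] at e2
  have r0 : l j0 ∈ J.radical := ⟨δ, Ideal.Quotient.eq_zero_iff_mem.1 e2⟩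
  refine J.radical_isRadical.radical_le_iff.2 (sup_le (Ideal.span_le.2 ?_)
    (hIJ.trans Ideal.le_radical))
  rintro _ ⟨j, rfl⟩
  have := J.radical.add_mem (Ideal.le_radical (m j)) (J.radical.mul_mem_left (C (c j)) r0)
  rwa [sub_add_cancel] at this

/-- Take `s` minimal (`Nat.find`, start from `l = X`).  If `aeval l p ∈ I` with `p ≠ 0`, a nonzero
component of `p` has the same property (`hc_aeval` with `q = 1`); degree zero gives a unit in `I`,
positive degree forces `s ≥ 1` and `gn_step` contradicts minimality. -/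
theorem gn_field {K : Type} [Field K] [Infinite K] (I : Ideal (Pn n K)) (hI : HomI I)
    (h0 : I ≠ ⊤) :
    ∃ (s : ℕ) (l : Fin s → Pn n K), (∀ j, (l j).IsHomogeneous 1) ∧
      (∀ i, X i ∈ (Ideal.span (Set.range l) ⊔ I).radical) ∧
      ∀ p : Pn s K, aeval l p ∈ I → p = 0 := by
  classical
  have ex : ∃ s : ℕ, ∃ l : Fin s → Pn n K, (∀ j, (l j).IsHomogeneous 1) ∧
      ∀ i, X i ∈ (Ideal.span (Set.range l) ⊔ I).radical :=
    ⟨n, X, fun j => isHomogeneous_X K j, fun i =>
      Ideal.le_radical (Ideal.mem_sup_left (Ideal.subset_span ⟨i, rfl⟩))⟩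
  obtain ⟨l, hl, hX⟩ := Nat.find_spec ex
  have hmin := fun m => Nat.find_min ex (m := m)
  generalize Nat.find ex = s at l hl hX hmin
  refine ⟨s, l, hl, hX, fun p hp => by_contra fun p0 => ?_⟩
  obtain ⟨e, he⟩ : ∃ e, homogeneousComponent e p ≠ 0 := by
    by_contra! k
    exact p0 ((sum_homogeneousComponent p).symm.trans (Finset.sum_eq_zero fun e _ => k e))
  have h1 := hI _ hp (1 * e)
  rw [hc_aeval le_rfl hl] at h1
  rcases Nat.eq_zero_or_pos e with rfl | e0
  · rw [homogeneousComponent_zero] at he h1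
    rw [aeval_C] at h1
    exact h0 (Ideal.eq_top_of_isUnit_mem _ h1
      ((IsUnit.mk0 _ fun z => he (by rw [z, map_zero])).map _))
  · have hh := homogeneousComponent_isHomogeneous e p
    cases s with
    | zero =>
      obtain ⟨d, hd⟩ := exists_coeff_ne_zero he
      have := hh hd
      rw [Subsingleton.elim d 0, map_zero] at this
      omega
    | succ s =>
      obtain ⟨l', a1, a2⟩ := gn_step I l hl e0 hh he h1
      exact hmin s (Nat.lt_succ_self s) ⟨l', a1, fun i => a2 (hX i)⟩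

end Pool.Agent.Work.MP_0a826e_ag.G
end

-- merged part: Pool.Agent.Work.MP_0a826e_ag.G.NK
section
/-!
Certificates over a local ring, by Nakayama.
-/

namespace Pool.Agent.Work.MP_0a826e_ag.G

open MvPolynomial IsLocalRing

variable {n s : ℕ}

theorem NK_hc_mul {O : Type} [CommRing O] {g : Pn n O} {e : ℕ} (hg : g.IsHomogeneous e) (d : ℕ)
    (H : Pn n O) : homogeneousComponent (d + e) (H * g) = g * homogeneousComponent d H := by
  have h1 : ∀ i, homogeneousComponent (d + e) (homogeneousComponent i H * g) =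
      g * homogeneousComponent d (homogeneousComponent i H) := fun i => by
    rw [homogeneousComponent_of_mem ((homogeneousComponent_isHomogeneous i H).mul hg),
      homogeneousComponent_of_mem (homogeneousComponent_isHomogeneous i H)]
    by_cases k : d = i
    · rw [if_pos k, if_pos (by rw [k]), mul_comm]
    · rw [if_neg k, if_neg (by omega), mul_zero]
  conv_lhs => rw [← sum_homogeneousComponent H, Finset.sum_mul, map_sum]
  conv_rhs => rw [← sum_homogeneousComponent H, map_sum, Finset.mul_sum]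
  exact Finset.sum_congr rfl fun i _ => h1 i

theorem NK_sum {O : Type} [CommRing O] {p : Pn n O} {M : ℕ} (hp : p.IsHomogeneous M)
    (N : Submodule O (Pn n O))
    (h : ∀ μ : Fin n →₀ ℕ, μ.degree = M → coeff μ p • monomial μ (1 : O) ∈ N) : p ∈ N := by
  rw [p.as_sum]
  refine N.sum_mem fun μ hμ => ?_
  have := h μ (by_contra fun k => (mem_support_iff.1 hμ) (hp.coeff_eq_zero k))
  rwa [smul_monomial, smul_eq_mul, mul_one] at this

theorem NK_mon {R : Type} [CommRing R] {J : Ideal (Pn n R)} (h : ∀ i, (X i : Pn n R) ∈ J.radical)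
    (e : ℕ) : ∃ d, 1 ≤ d ∧ ∀ μ : Fin n →₀ ℕ, μ.degree = d + e → monomial μ (1 : R) ∈ J := by
  choose k hk using h
  refine ⟨∑ i, k i + 1, by omega, fun μ hμ => ?_⟩
  have : ∃ i, k i ≤ μ i := by
    by_contra c
    have : ∑ i, μ i ≤ ∑ i, k i :=
      Finset.sum_le_sum fun i _ => (not_le.1 fun c' => c ⟨i, c'⟩).le
    rw [Finsupp.degree_eq_sum] at hμ
    omega
  obtain ⟨i, hi⟩ := this
  have e1 : μ = Finsupp.single i (k i) + (μ - Finsupp.single i (k i)) :=
    (add_tsub_cancel_of_le (Finsupp.single_le_iff.2 hi)).symm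
  rw [e1, monomial_single_add]
  exact J.mul_mem_right _ (hk i)

/-- Take `M ≥ e` such that every monomial of degree `M` lies in the reduced ideal.  Lift, so that
the monomial is `∑ g j * H j + Q + err` with `map (residue O) err = 0`, and take the component of
degree `M`.  Then `homogeneousSubmodule (Fin n) O M`, which is finitely generated, is contained in
`N ⊔ maximalIdeal • itself`, where `N` is the submodule of all `∑ g j * H j + Q` with `H j`
homogeneous of degree `M - e` and `Q ∈ I`; use `Submodule.le_of_le_smul_of_le_jacobson_bot`. -/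
theorem nk {O : Type} [CommRing O] [IsLocalRing O] (I : Ideal (Pn n O)) (hI : HomI I)
    (g : Fin s → Pn n O) {e : ℕ} (hg : ∀ j, (g j).IsHomogeneous e)
    (h : ∀ i, (X i : Pn n (ResidueField O)) ∈
      (Ideal.span (Set.range fun j => map (residue O) (g j)) ⊔
        I.map (map (residue O) : Pn n O →+* Pn n (ResidueField O))).radical) :
    ∃ M H Q, Cert g e M H Q ∧ ∀ i, Q i ∈ I := by
  obtain ⟨d, hd, hm⟩ := NK_mon h e
  let N : Submodule O (Pn n O) :=
    { carrier := {p | ∃ (H : Fin s → Pn n O) (Q : Pn n O), (∀ j, (H j).IsHomogeneous d) ∧ Q ∈ I ∧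
        p = ∑ j, g j * H j + Q}
      zero_mem' := ⟨0, 0, fun _ => isHomogeneous_zero _ _ _, I.zero_mem, by simp⟩
      add_mem' := by
        rintro _ _ ⟨H, Q, h1, h2, rfl⟩ ⟨H', Q', h3, h4, rfl⟩
        refine ⟨H + H', Q + Q', fun j => (h1 j).add (h3 j), I.add_mem h2 h4, ?_⟩
        simp only [Pi.add_apply, mul_add, Finset.sum_add_distrib]
        ring
      smul_mem' := by
        rintro c _ ⟨H, Q, h1, h2, rfl⟩
        refine ⟨fun j => C c * H j, C c * Q, fun j => (h1 j).C_mul c, I.mul_mem_left _ h2, ?_⟩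
        rw [smul_eq_C_mul, mul_add, Finset.mul_sum]
        exact congrArg (· + _) (Finset.sum_congr rfl fun j _ => by ring) }
  have hJ : Ideal.span (Set.range fun j => map (residue O) (g j)) ⊔
      I.map (map (residue O) : Pn n O →+* Pn n (ResidueField O)) =
      (Ideal.span (Set.range g) ⊔ I).map (map (residue O) : Pn n O →+* Pn n (ResidueField O)) := by
    rw [Ideal.map_sup, Ideal.map_span, ← Set.range_comp]
    rfl
  have key : homogeneousSubmodule (Fin n) O (d + e) ≤ N := by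
    refine Submodule.le_of_le_smul_of_le_jacobson_bot (homogeneousSubmodule_fg _ _ _)
      (maximalIdeal_le_jacobson ⊥) fun p hp => NK_sum hp _ fun μ hμ => Submodule.smul_mem _ _ ?_
    have h1 := hm μ hμ
    rw [hJ, Ideal.mem_map_iff_of_surjective _ (map_surjective _ residue_surjective)] at h1
    obtain ⟨x, hx, ex⟩ := h1
    obtain ⟨y, hy, Q, hQ, rfl⟩ := Submodule.mem_sup.1 hx
    obtain ⟨H, rfl⟩ := Ideal.mem_span_range_iff_exists_fun.1 hy
    obtain ⟨r, hr⟩ : ∃ r, r = monomial μ (1 : O) - (∑ j, H j * g j + Q) := ⟨_, rfl⟩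
    have r0 : map (residue O) r = 0 := by rw [hr, map_sub, ex, map_monomial, map_one, sub_self]
    have e1 : monomial μ (1 : O) = (∑ j, g j * homogeneousComponent d (H j) +
        homogeneousComponent (d + e) Q) + homogeneousComponent (d + e) r := by
      rw [hr, map_sub, map_add, map_sum,
        homogeneousComponent_eq_self (isHomogeneous_monomial 1 hμ)]
      simp only [NK_hc_mul (hg _)]
      ring
    rw [e1]
    refine Submodule.add_mem_sup
      ⟨_, _, fun j => homogeneousComponent_isHomogeneous _ _, hI Q hQ _, rfl⟩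
      (NK_sum (homogeneousComponent_isHomogeneous _ _) _ fun ν hν =>
        Submodule.smul_mem_smul ?_ (isHomogeneous_monomial 1 hν))
    rw [← residue_eq_zero_iff, ← coeff_map, ← hc_map, r0, map_zero, coeff_zero]
  choose H Q h1 h2 h3 using fun i : Fin n => key (isHomogeneous_X_pow i (d + e))
  exact ⟨d + e, H, Q, ⟨by omega, fun i j => Nat.add_le_add_right (h1 i j).totalDegree_le e, h3⟩,
    h2⟩

/-- `vanishingIdeal_zeroLocus_eq_radical` over the residue field and `nk` with `I = ⊥` -/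
theorem nk_good {O : Type} [CommRing O] [IsLocalRing O] [IsAlgClosed (ResidueField O)]
    (g : Fin n → Pn n O) {e : ℕ} (hg : ∀ j, (g j).IsHomogeneous e)
    (h : ∀ v, v ≠ 0 → emap (fun j => map (residue O) (g j)) v ≠ 0) :
    ∃ M H, Cert g e M H 0 := by
  obtain ⟨M, H, Q, h1, h2⟩ := nk ⊥ (fun g hg e => by
    rw [Ideal.mem_bot.1 hg, map_zero]; exact Ideal.zero_mem _) g hg fun i => by
    rw [← vanishingIdeal_zeroLocus_eq_radical (K := ResidueField O), mem_vanishingIdeal_iff]
    intro x hx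
    have : x = 0 := by
      by_contra c
      refine h x c (funext fun j => ?_)
      exact hx _ (Ideal.mem_sup_left (Ideal.subset_span ⟨j, rfl⟩))
    rw [this, aeval_X]
    rfl
  obtain rfl : Q = 0 := funext fun i => Ideal.mem_bot.1 (h2 i)
  exact ⟨M, H, h1⟩

/-- `nk_good` for the iterates (`itr_hom`, `map_itr`, `emap_itr`, `iterate_ne_zero`) -/
theorem nk_itr {O : Type} [CommRing O] [IsLocalRing O] [IsAlgClosed (ResidueField O)]
    (g : Fin n → Pn n O) {e : ℕ} (hg : ∀ j, (g j).IsHomogeneous e)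
    (h : ∀ v, v ≠ 0 → emap (fun j => map (residue O) (g j)) v ≠ 0) {R : Type} [CommRing R]
    (f : O →+* R) (j : ℕ) : ∃ M H, Cert (itr (fun i => map f (g i)) j) (e ^ j) M H 0 := by
  obtain ⟨M, H, h1⟩ := nk_good (itr g j) (itr_hom hg j) fun v hv => by
    rw [funext (map_itr (residue O) g j), emap_itr]
    exact iterate_ne_zero h j hv
  have h2 := h1.map f
  rw [funext (map_itr f g j), show (fun i => map f ((0 : Fin n → Pn n O) i)) = 0 from
    funext fun i => map_zero _] at h2
  exact ⟨M, _, h2⟩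

/-- a monic polynomial over the residue field lifts to a monic polynomial over `O`
(`Polynomial.lifts_and_natDegree_eq_and_monic`), which has a root in `K`, integral over `O` -/
theorem resAC {K : Type} [Field K] [IsAlgClosed K] (O : ValuationSubring K) :
    IsAlgClosed (ResidueField O) := by
  refine IsAlgClosed.of_exists_root _ fun p hp hi => ?_
  obtain ⟨q, h1, h2, h3⟩ := Polynomial.lifts_and_natDegree_eq_and_monic
    ((Polynomial.mem_lifts p).2 (Polynomial.map_surjective _ residue_surjective p)) hp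
  have h4 : q.degree ≠ 0 := fun c => by
    have := hi.natDegree_pos
    rw [← h2, Polynomial.natDegree_eq_zero_iff_degree_le_zero.2 c.le] at this
    exact lt_irrefl _ this
  have inj : Function.Injective (algebraMap O K) := Subtype.val_injective
  obtain ⟨x, hx⟩ := IsAlgClosed.exists_eval₂_eq_zero_of_injective _ inj q h4
  obtain ⟨y, rfl⟩ := IsIntegrallyClosed.isIntegral_iff.1 (⟨q, h3, hx⟩ : IsIntegral O x)
  rw [Polynomial.eval₂_at_apply, map_eq_zero_iff _ inj] at hx
  refine ⟨residue O y, ?_⟩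
  rw [← h1, Polynomial.eval_map, Polynomial.eval₂_at_apply, hx, map_zero]

end Pool.Agent.Work.MP_0a826e_ag.G
end

-- merged part: Pool.Agent.Work.MP_0a826e_ag.G.GN
section
/-!
Graded Noether normalisation by linear forms over a valuation ring with infinite residue field.
-/

namespace Pool.Agent.Work.MP_0a826e_ag.G

open MvPolynomial IsLocalRing

variable {n s : ℕ}

theorem GN_min {O ι : Type} [CommRing O] [IsDomain O] [ValuationRing O] (f : ι → O)
    {S : Finset ι} (hS : S.Nonempty) : ∃ a ∈ S, ∀ b ∈ S, f a ∣ f b := by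
  induction hS using Finset.Nonempty.cons_induction with
  | singleton a => exact ⟨a, by simp, by simp⟩
  | cons a S ha _ ih =>
    obtain ⟨b, hb, h⟩ := ih
    rcases ValuationRing.dvd_total (f a) (f b) with h1 | h1
    · refine ⟨a, by simp, fun c hc => ?_⟩
      rcases Finset.mem_cons.1 hc with rfl | hc
      · exact dvd_rfl
      · exact h1.trans (h c hc)
    · refine ⟨b, by simp [hb], fun c hc => ?_⟩
      rcases Finset.mem_cons.1 hc with rfl | hc
      · exact h1
      · exact h c hc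

theorem GN_lift {K : Type} [Field K] (O : ValuationSubring K) {q : Pn s K}
    (h : ∀ m, coeff m q ∈ O) : ∃ p' : Pn s O, map O.subtype p' = q := by
  refine ⟨∑ m ∈ q.support, monomial m ⟨coeff m q, h m⟩, ?_⟩
  rw [map_sum]
  simp only [map_monomial]
  exact support_sum_monomial_coeff q

theorem GN_ne {O : Type} [CommRing O] [IsLocalRing O] {p : Pn s O} {m : Fin s →₀ ℕ}
    (h : coeff m p = 1) : map (residue O) p ≠ 0 := by
  intro h0
  have := congrArg (coeff m) h0
  rw [coeff_map, h, map_one, coeff_zero] at this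
  exact one_ne_zero this

/-- divide by a coefficient that divides all the others -/
theorem exists_prim {O : Type} [CommRing O] [IsDomain O] [ValuationRing O] {p : Pn s O}
    (hp : p ≠ 0) : ∃ (c : O) (p' : Pn s O), c ≠ 0 ∧ p = C c * p' ∧ map (residue O) p' ≠ 0 := by
  obtain ⟨m, hm, h⟩ := GN_min (fun m => coeff m p) (support_nonempty.2 hp)
  have hc : coeff m p ≠ 0 := mem_support_iff.1 hm
  obtain ⟨p', hp'⟩ : C (coeff m p) ∣ p := by
    refine (C_dvd_iff_dvd_coeff _ _).2 fun i => ?_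
    by_cases hi : i ∈ p.support
    · exact h i hi
    · rw [notMem_support_iff.1 hi]
      exact dvd_zero _
  refine ⟨coeff m p, p', hc, hp', GN_ne (m := m) ?_⟩
  have := congrArg (coeff m) hp'
  rw [coeff_C_mul] at this
  exact mul_left_cancel₀ hc (this.symm.trans (mul_one _).symm)

/-- scale by the inverse of a coefficient of maximal valuation -/
theorem exists_prim_field {K : Type} [Field K] (O : ValuationSubring K) {p : Pn s K}
    (hp : p ≠ 0) : ∃ (c : K) (p' : Pn s O), c ≠ 0 ∧ p = C c * map O.subtype p' ∧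
      map (residue O) p' ≠ 0 := by
  obtain ⟨m, hm, h⟩ := Finset.exists_max_image p.support (fun m => O.valuation (coeff m p))
    (support_nonempty.2 hp)
  have hc : coeff m p ≠ 0 := mem_support_iff.1 hm
  have hv : O.valuation (coeff m p) ≠ 0 := (Valuation.ne_zero_iff _).2 hc
  obtain ⟨p', hp'⟩ := GN_lift O (q := C (coeff m p)⁻¹ * p) fun i => by
    rw [coeff_C_mul]
    by_cases hi : i ∈ p.support
    · rw [← O.valuation_le_one_iff, map_mul, map_inv₀, inv_mul_le_iff₀ (zero_lt_iff.2 hv), mul_one]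
      exact h i hi
    · rw [notMem_support_iff.1 hi, mul_zero]
      exact O.zero_mem
  refine ⟨coeff m p, p', hc, ?_, GN_ne (m := m) ?_⟩
  · rw [hp', ← mul_assoc, ← C_mul, mul_inv_cancel₀ hc, C_1, one_mul]
  · have := congrArg (coeff m) hp'
    rw [coeff_map, coeff_C_mul, inv_mul_cancel₀ hc] at this
    exact Subtype.ext this

/-- `gn_field` for the reduced ideal (`HomI.map_map`; it is proper as its elements have no
constant term), lift the forms (take the component of degree one of any lift), `nk`,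
`exists_prim`. -/
theorem gn {O : Type} [CommRing O] [IsDomain O] [ValuationRing O] [Infinite (ResidueField O)]
    (I : Ideal (Pn n O)) (hI : HomI I) (hsat : ∀ (c : O) (g : Pn n O), c ≠ 0 → C c * g ∈ I → g ∈ I)
    (h0 : ∀ g ∈ I, constantCoeff g = 0) :
    ∃ (s : ℕ) (l : Fin s → Pn n O) (M : ℕ) (H : Fin n → Fin s → Pn n O) (Q : Fin n → Pn n O),
      (∀ j, (l j).IsHomogeneous 1) ∧ Cert l 1 M H Q ∧ (∀ i, Q i ∈ I) ∧
      ∀ p : Pn s O, aeval l p ∈ I → p = 0 := by
  have hsurj : Function.Surjective (residue O) := residue_surjective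
  have hne : I.map (map (residue O) : Pn n O →+* Pn n (ResidueField O)) ≠ ⊤ := by
    intro htop
    have hle : I.map (map (residue O) : Pn n O →+* Pn n (ResidueField O)) ≤
        RingHom.ker (constantCoeff : Pn n (ResidueField O) →+* ResidueField O) := by
      refine Ideal.map_le_iff_le_comap.2 fun g hg => ?_
      rw [Ideal.mem_comap, RingHom.mem_ker, constantCoeff_map, h0 g hg, map_zero]
    have h1 := hle (htop ▸ Submodule.mem_top : (1 : Pn n (ResidueField O)) ∈ _)
    rw [RingHom.mem_ker, map_one] at h1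
    exact one_ne_zero h1
  obtain ⟨s, lb, hlb, hrad, hind⟩ := gn_field _ (hI.map_map hsurj) hne
  choose l0 hl0 using fun j => map_surjective (residue O) hsurj (lb j)
  have hl : ∀ j, map (residue O) (homogeneousComponent 1 (l0 j)) = lb j := by
    intro j
    rw [← hc_map, hl0, homogeneousComponent_of_mem (hlb j), if_pos rfl]
  have hfun : (fun j => map (residue O) (homogeneousComponent 1 (l0 j))) = lb := funext hl
  obtain ⟨M, H, Q, hC, hQ⟩ := nk I hI (fun j => homogeneousComponent 1 (l0 j))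
    (fun j => homogeneousComponent_isHomogeneous 1 (l0 j)) (by rw [hfun]; exact hrad)
  refine ⟨s, _, M, H, Q, fun j => homogeneousComponent_isHomogeneous 1 (l0 j), hC, hQ,
    fun p hp => ?_⟩
  by_contra hp0
  obtain ⟨c, p', hc, rfl, hp'⟩ := exists_prim hp0
  rw [map_mul, aeval_C, algebraMap_eq] at hp
  refine hp' (hind _ ?_)
  rw [← hfun, ← map_aeval']
  exact Ideal.mem_map_of_mem _ (hsat c _ hc hp)

end Pool.Agent.Work.MP_0a826e_ag.G
end

-- merged part: Pool.Agent.Work.MP_0a826e_ag.G.GP2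
section
/-!
A generic place with prescribed finitely many integrality conditions.
-/

namespace Pool.Agent.Work.MP_0a826e_ag.G

open MvPolynomial IsLocalRing

variable {m : ℕ}

theorem GP2_alg {B C R K : Type} [CommRing B] [IsDomain B] [CommRing C] [IsDomain C] [CommRing R]
    [Field K] [Algebra B C] [Algebra.IsAlgebraic B C] (θ : C →+* R) (hf : θ.Finite) (ι : R →+* K)
    (x z : R) : ∃ q : Polynomial B, q ≠ 0 ∧
      q.eval₂ (ι.comp (θ.comp (algebraMap B C))) (ι x * (ι z)⁻¹) = 0 := by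
  let := (ι.comp θ).toAlgebra
  let := (ι.comp (θ.comp (algebraMap B C))).toAlgebra
  have : IsScalarTower B C K := .of_algebraMap_eq' rfl
  have k : ∀ x, IsAlgebraic B (ι x) := fun x => by
    refine IsIntegral.trans_isAlgebraic (S := C) B ?_
    obtain ⟨p, hp, e⟩ := hf.to_isIntegral x
    exact ⟨p, hp, by rw [RingHom.algebraMap_toAlgebra, ← Polynomial.hom_eval₂, e, map_zero]⟩
  exact (k x).mul (k z).inv

theorem GP2_xi {y : Fin m → ℂ} {σ ξ : ℂ} (h : Two y σ ξ) : ξ ≠ 0 := fun e =>
  Polynomial.X_ne_zero (h Polynomial.X (by rw [Polynomial.eval₂_X, e]))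

/-- Let `c = ringChar (ResidueField O)`, `Ψ = eval₂Hom a (fun i => y i * ξ)`, `I = ker Ψ`
(homogeneous by `ker_hom` and homogeneity of the components), `R = Ψ.range`.  `gn` and
`finite_of_cert` give `θ`.  With `Ψ1 = eval₂Hom a y`, whose kernel contains `I`, let `N1` be a
maximal ideal of `Ψ1.range` containing `y i0` (`not_unit`) and `N` the image in `R` of its
preimage; it contains `y i0 * ξ` and not `ξ = y i1 * ξ`.  Apply `exists_divisor`, `exists_dom`.
As `ξ` is a unit of `V`, `y i = (y i * ξ) / ξ ∈ V`.  Elements of `R` are integral over the image of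
`θ`, hence algebraic over the image of `j`. -/
theorem gp_aux (O : ValuationSubring ℂ) (y : Fin m → ℂ) (hy : ∀ i, y i ∈ O) {i0 i1 : Fin m}
    (h0 : y i0 ∈ O.nonunits) (hne : y i0 ≠ 0) (h1 : y i1 = 1) :
    ∃ (s : ℕ) (j : MvPolynomial (Fin s) (Polynomial ℤ) →+* ℂ) (V : ValuationSubring ℂ)
      (w : MvPolynomial (Fin s) (Polynomial ℤ)), Function.Injective j ∧ Prime w ∧
      (∀ a, j a ∈ V) ∧ (∀ a, j a ∈ V.nonunits ↔ w ∣ a) ∧ (∀ i, y i ∈ V) ∧ y i0 ∈ V.nonunits ∧
      ∀ i, ∃ q : Polynomial (MvPolynomial (Fin s) (Polynomial ℤ)), q ≠ 0 ∧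
        q.eval₂ j (y i) = 0 := by
  have : ZP (ringChar (ResidueField O)) :=
    ⟨(CharP.char_is_prime_or_zero (ResidueField O) _).symm⟩
  set c := ringChar (ResidueField O)
  obtain ⟨σ, ξ, h⟩ := exists_two y
  obtain ⟨a, ainj, ha⟩ := exists_base c h
  have hξ := GP2_xi h
  set Ψ : Pn m (A0 c) →+* ℂ := eval₂Hom a fun i => y i * ξ
  have hΨ : ∀ i, Ψ (X i) = y i * ξ := fun i => eval₂_X _ _ _
  have kh : ∀ g, Ψ g = 0 → ∀ e, eval₂ a y (homogeneousComponent e g) = 0 :=
    fun g hg => ker_hom c h a ha hg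
  obtain ⟨s, l, M, H, Q, -, hc, hQ, hind⟩ := gn (RingHom.ker Ψ)
    (fun g hg e => by
      have k := eval_smul_hom ((homogeneousComponent_isHomogeneous e g).map a) ξ y
      rw [← eval₂_eq_eval_map, ← eval₂_eq_eval_map, kh g hg e, mul_zero] at k
      exact (congrArg (fun v => eval₂ a v _) (funext fun i => mul_comm _ _)).trans k)
    (fun u g hu hg => by
      rw [RingHom.mem_ker, map_mul, mul_eq_zero] at hg
      exact hg.resolve_left fun e => hu (ainj (((eval₂_C _ _ _).symm.trans e).trans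
        (map_zero a).symm)))
    (fun g hg => by
      have k := kh g hg 0
      rw [homogeneousComponent_zero, eval₂_C] at k
      exact ainj (k.trans (map_zero a).symm))
  have sur := Ψ.rangeRestrict_surjective
  have fin := finite_of_cert le_rfl hc Ψ.rangeRestrict sur fun i => Subtype.ext (hQ i)
  set θ := Ψ.rangeRestrict.comp (aeval l : Pn s (A0 c) →ₐ[A0 c] Pn m (A0 c)).toRingHom
  have inj : Function.Injective θ :=
    (injective_iff_map_eq_zero θ).2 fun p hp => hind p (congrArg Subtype.val hp)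
  obtain ⟨J, hJ, le⟩ := Ideal.exists_le_maximal
    (RingHom.ker (eval₂Hom a y) ⊔ Ideal.span {X i0}) fun e => by
      obtain ⟨u, hu, v, hv, k⟩ := Submodule.mem_sup.1 ((Ideal.eq_top_iff_one _).1 e)
      obtain ⟨g, rfl⟩ := Ideal.mem_span_singleton.1 hv
      have := congrArg (eval₂Hom a y) k
      rw [map_add, RingHom.mem_ker.1 hu, zero_add, map_mul, map_one, eval₂Hom_X'] at this
      exact not_unit O c hy h0 h a ha g this
  have kJ : RingHom.ker Ψ.rangeRestrict ≤ J := fun g hg => le (Ideal.mem_sup_left (by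
    rw [RingHom.mem_ker, ← sum_homogeneousComponent g, map_sum]
    exact Finset.sum_eq_zero fun e _ => kh g (congrArg Subtype.val hg) e))
  have := Ideal.map_isPrime_of_surjective sur kJ
  obtain ⟨q, w, hq, qN, xq, hw, dv⟩ := exists_divisor c s θ inj fin (J.map Ψ.rangeRestrict)
    (Ideal.mem_map_of_mem _ (le (Ideal.mem_sup_right (Ideal.mem_span_singleton_self _))))
    fun e => mul_ne_zero hne hξ ((hΨ i0).symm.trans (congrArg Subtype.val e))
  obtain ⟨V, v1, v2⟩ := exists_dom Ψ.range q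
  have e1 : Ψ (X i1) = ξ := by rw [hΨ, h1, one_mul]
  have n1 : ξ ∉ V.nonunits := fun e => by
    obtain ⟨g, g1, g2⟩ := (Ideal.mem_map_iff_of_surjective _ sur).1
      (qN ((v2 (Ψ.rangeRestrict (X i1))).1 (show Ψ (X i1) ∈ _ from e1.symm ▸ e)))
    have g3 : g - X i1 ∈ J := kJ (by rw [RingHom.mem_ker, map_sub, g2, sub_self])
    have g4 : (X i1 - 1 : Pn m (A0 c)) ∈ J := le (Ideal.mem_sup_left (by
      rw [RingHom.mem_ker, map_sub, eval₂Hom_X', h1, map_one, sub_self]))
    refine hJ.ne_top ((Ideal.eq_top_iff_one _).2 ?_)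
    have g5 := J.add_mem g1 (J.mul_mem_left (-1) (J.add_mem g3 g4))
    rwa [show g + -1 * (g - X i1 + (X i1 - 1)) = 1 by ring] at g5
  have v3 : ∀ i, y i * ξ ∈ V := fun i => hΨ i ▸ v1 (Ψ.rangeRestrict (X i))
  have val : ∀ i, V.valuation (y i * ξ) = V.valuation (y i) := fun i => by
    have := (V.valuation_le_one_iff _).2 (v3 i1)
    rw [h1, one_mul] at this
    rw [map_mul, le_antisymm this (not_lt.1 fun e => n1 (V.mem_nonunits_iff.2 e)), mul_one]
  let : Algebra (Pn s (Polynomial ℤ)) (Pn s (A0 c)) := algebraMvPolynomial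
  have : Algebra.IsAlgebraic (Pn s (Polynomial ℤ)) (Pn s (A0 c)) :=
    IsLocalization.isAlgebraic _ ((rc c).primeCompl.map (C (σ := Fin s)))
  refine ⟨s, Ψ.range.subtype.comp (θ.comp (map (algebraMap _ (A0 c)))), V, w,
    Subtype.val_injective.comp (inj.comp (map_injective _
      (IsLocalization.injective (A0 c) (rc c).primeCompl_le_nonZeroDivisors))), hw,
    fun b => v1 _, fun b => (v2 _).trans (dv b), fun i => ?_, ?_, fun i => ?_⟩
  · rw [← V.valuation_le_one_iff, ← val, V.valuation_le_one_iff]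
    exact v3 i
  · rw [V.mem_nonunits_iff, ← val, ← V.mem_nonunits_iff, ← hΨ]
    exact (v2 _).2 xq
  · obtain ⟨p, p0, k⟩ := GP2_alg (B := Pn s (Polynomial ℤ)) θ fin Ψ.range.subtype
      (Ψ.rangeRestrict (X i)) (Ψ.rangeRestrict (X i1))
    have e2 : Ψ (X i) * (Ψ (X i1))⁻¹ = y i := by rw [e1, hΨ, mul_inv_cancel_right₀ hξ]
    exact ⟨p, p0, e2 ▸ k⟩

/-- enumerate `insert 1 (insert π T)`; transport along `optionEquivRight` and `renameEquiv` -/
theorem gp (O : ValuationSubring ℂ) (T : Finset ℂ) (hT : ∀ t ∈ T, t ∈ O) {π : ℂ} (hπT : π ∈ T)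
    (hπ : π ∈ O.nonunits) (h0 : π ≠ 0) :
    ∃ (r : ℕ) (j : MvPolynomial (Fin r) ℤ →+* ℂ) (V : ValuationSubring ℂ)
      (w : MvPolynomial (Fin r) ℤ), Function.Injective j ∧ Prime w ∧ (∀ a, j a ∈ V) ∧
      (∀ a, j a ∈ V.nonunits ↔ w ∣ a) ∧ (∀ t ∈ T, t ∈ V) ∧ π ∈ V.nonunits ∧
      ∀ t ∈ T, ∃ q : Polynomial (MvPolynomial (Fin r) ℤ), q ≠ 0 ∧ q.eval₂ j t = 0 := by
  classical
  have e := (insert 1 T).equivFin
  obtain ⟨s, j, V, w, inj, hw, h1, h2, h3, h4, h5⟩ := gp_aux O (fun i => (e.symm i : ℂ))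
    (fun i => (Finset.mem_insert.1 (e.symm i).2).elim (fun k => by rw [k]; exact O.one_mem) (hT _))
    (i0 := e ⟨π, Finset.mem_insert_of_mem hπT⟩) (i1 := e ⟨1, Finset.mem_insert_self _ _⟩)
    (by simpa using hπ) (by simpa using h0) (by simp)
  have f : MvPolynomial (Fin (s + 1)) ℤ ≃+* MvPolynomial (Fin s) (Polynomial ℤ) :=
    ((renameEquiv ℤ (_root_.finSuccEquiv s)).trans (optionEquivRight ℤ (Fin s))).toRingEquiv
  refine ⟨s + 1, j.comp f.toRingHom, V, f.symm w, inj.comp f.injective,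
    (MulEquiv.prime_iff f.symm).2 hw, fun a => h1 _, fun a => (h2 _).trans ?_, fun t ht => ?_,
    by simpa using h4, fun t ht => ?_⟩
  · rw [← map_dvd_iff f, f.apply_symm_apply]
    rfl
  · simpa using h3 (e ⟨t, Finset.mem_insert_of_mem ht⟩)
  · obtain ⟨q, q0, k⟩ := h5 (e ⟨t, Finset.mem_insert_of_mem ht⟩)
    refine ⟨q.map f.symm.toRingHom, (Polynomial.map_ne_zero_iff f.symm.injective).2 q0, ?_⟩
    rw [Polynomial.eval₂_map, RingHom.comp_assoc, f.toRingHom_comp_symm_toRingHom,
      RingHom.comp_id]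
    simpa using k

end Pool.Agent.Work.MP_0a826e_ag.G
end

-- merged part: Pool.Agent.Work.MP_0a826e_ag.G.Core2
section
/-!
The determinant vanishes; no dense set of points with finite orbit lies in a tube.
-/

namespace Pool.Agent.Work.MP_0a826e_ag.G

open MvPolynomial IsLocalRing
open Pool.Agent.Work.MP_0a826e_ag.R (K0 AE)

variable {n s t : ℕ}

/-- `Dat.Good.of_map` with `esc_alg`; the determinant is the image of the determinant over `k` -/
theorem Van.map {k E : Type} [Field k] [IsAlgClosed k] [Field E] (ι : k →+* E) {D : Dat k n s t}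
    (hD : D.OK) (h : Van D) : Van (D.map ι) := by
  obtain ⟨n0, h⟩ := h
  refine ⟨n0, fun M => ?_⟩
  obtain ⟨L, h⟩ := h M
  refine ⟨L, fun μ α x hμ hx => ?_⟩
  choose y hy e using fun l => Dat.Good.of_map (D := D) ι.injective
    (fun y hy => esc_alg ι hD.hd hD.cF hy) (hx l)
  have h1 := congrArg ι (h μ α y hμ hy)
  rw [map_zero, RingHom.map_det] at h1
  refine Eq.trans (congrArg Matrix.det ?_) h1
  ext i l
  simp only [RingHom.mapMatrix_apply, Matrix.map_apply, Matrix.of_apply]
  rw [← eval_map_comp, e, map_mon]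
  simp only [map_itr]
  rfl

/-- `T` from `Dat.exists_coeffs`, `gp`; make `ℂ` an algebra over `K0 r` by `IsFractionRing.lift`,
let `k = algebraicClosure (K0 r) ℂ` and `V' = V.comap k.val`.  Descend the data to `V'` along the
injective map `V' → k → ℂ` (`Dat.OK.of_map`, `Dat.map_map`), apply `core` and `Van.map`. -/
theorem coreC (O : ValuationSubring ℂ) {D : Dat O n s t} (hD : D.OK) (h0 : D.β0 ≠ 0)
    (hπ : D.π ∈ maximalIdeal O) (hπ0 : D.π ≠ 0) : Van (D.map O.subtype) := by
  classical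
  obtain ⟨T, hT, H⟩ := D.exists_coeffs
  obtain ⟨r, j, V, w, inj, hw, h1, h2, h3, h4, h5⟩ := gp O (T.image O.subtype)
    (fun t ht => by
      obtain ⟨a, -, rfl⟩ := Finset.mem_image.1 ht
      exact a.2) (π := D.π) (Finset.mem_image_of_mem _ hT)
    (ValuationSubring.coe_mem_nonunits_iff.2 hπ) (fun e => hπ0 (Subtype.ext e))
  let _ : Algebra (K0 r) ℂ := (IsFractionRing.lift (K := K0 r) inj).toAlgebra
  have ej : ∀ a, algebraMap (K0 r) ℂ (algebraMap (Zt r) (K0 r) a) = j a :=
    fun a => IsFractionRing.lift_algebraMap inj a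
  let k := algebraicClosure (K0 r) ℂ
  have : IsAlgClosed k := (algebraicClosure.isAlgClosure (K0 r) ℂ).isAlgClosed
  let ι : k →+* ℂ := k.val.toRingHom
  let V' : ValuationSubring k := V.comap ι
  have ek : ∀ a, ι (jj r k a) = j a := ej
  have nu : ∀ z : k, z ∈ V'.nonunits ↔ ι z ∈ V.nonunits := fun z => by
    rw [ValuationSubring.mem_nonunits_iff_or, ValuationSubring.mem_nonunits_iff_or,
      ValuationSubring.mem_comap, map_inv₀, map_eq_zero]
  have hG : Gen r V' w := ⟨hw, fun a => ValuationSubring.mem_comap.2 (ek a ▸ h1 a),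
    fun a => by rw [nu, ek, h2]⟩
  obtain ⟨D', e⟩ := H V' ℂ O.subtype (ι.comp V'.subtype) fun a ha => by
    have m := Finset.mem_image_of_mem O.subtype ha
    obtain ⟨q, q0, hq⟩ := h5 _ m
    have al : IsAlgebraic (K0 r) (O.subtype a) := by
      refine ⟨q.map (algebraMap (Zt r) (K0 r)), (Polynomial.map_ne_zero_iff
        (IsFractionRing.injective (Zt r) (K0 r))).2 q0, ?_⟩
      have ej' : (algebraMap (K0 r) ℂ).comp (algebraMap (Zt r) (K0 r)) = j := RingHom.ext ej
      rw [Polynomial.aeval_def, Polynomial.eval₂_map, ej']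
      exact hq
    exact ⟨⟨⟨_, mem_algebraicClosure_iff.2 al⟩, h3 _ m⟩, rfl⟩
  have ok : D'.OK := Dat.OK.of_map (ι.injective.comp Subtype.val_injective)
    (f := ι.comp V'.subtype) (e ▸ hD.map O.subtype)
  have eπ : ι D'.π = D.π := congrArg Dat.π e
  have eβ : D'.β0 = D.β0 := congrArg Dat.β0 e
  have := Van.map ι (ok.map V'.subtype) (core hG ok (eβ ▸ h0) ((nu _).2 (eπ ▸ h4)))
  rwa [Dat.map_map, e] at this

end Pool.Agent.Work.MP_0a826e_ag.G
end

-- merged part: Pool.Agent.Work.MP_0a826e_ag.G.Core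
section
/-!
The determinant vanishes; no dense set of points with finite orbit lies in a tube.
-/

namespace Pool.Agent.Work.MP_0a826e_ag.G

open MvPolynomial IsLocalRing
open Pool.Agent.Work.MP_0a826e_ag.R (K0 AE)

variable {n s t : ℕ}

/-- the exponent vector of a bounded function -/
noncomputable def Core_ex {L : ℕ} (β : Fin s → Fin (L + 1)) : Fin s →₀ ℕ :=
  Finsupp.equivFunOnFinite.symm fun j => (β j : ℕ)

theorem Core_ex_apply {L : ℕ} (β : Fin s → Fin (L + 1)) (j : Fin s) :
    Core_ex β j = (β j : ℕ) := by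
  simp [Core_ex]

theorem Core_ex_inj {L : ℕ} {β γ : Fin s → Fin (L + 1)} (h : Core_ex β = Core_ex γ) : β = γ := by
  funext j
  apply Fin.ext
  rw [← Core_ex_apply, ← Core_ex_apply, h]

/-- evaluation at the points of a set, as a linear map -/
noncomputable def Core_ev {k : Type} [Field k] (S : (Fin n → k) → Prop) :
    Pn n k →ₗ[k] ({x // S x} → k) where
  toFun φ := fun x => eval x.1 φ
  map_add' φ ψ := by
    funext x
    simp
  map_smul' c φ := by
    funext x
    simp [smul_eq_C_mul]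

theorem Core_ev_apply {k : Type} [Field k] (S : (Fin n → k) → Prop) (φ : Pn n k)
    (x : {x // S x}) : Core_ev S φ x = eval x.1 φ := rfl

theorem Core_indep {k : Type} [Field k] (S : (Fin n → k) → Prop) (l : Fin s → Pn n k)
    (hind : ∀ q : Pn s k, (∀ x, S x → eval x (aeval l q) = 0) → q = 0) (L : ℕ) :
    LinearIndependent k fun β : Fin s → Fin (L + 1) =>
      Core_ev S (∏ j, l j ^ (β j : ℕ)) := by
  classical
  rw [Fintype.linearIndependent_iff]
  intro c hc β
  have hq : (∑ γ : Fin s → Fin (L + 1), monomial (Core_ex γ) (c γ) : Pn s k) = 0 := by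
    apply hind
    intro x hx
    have h1 := congrFun hc ⟨x, hx⟩
    rw [Finset.sum_apply] at h1
    rw [map_sum, map_sum]
    refine Eq.trans (Finset.sum_congr rfl fun γ _ => ?_) h1
    rw [Pi.smul_apply, Core_ev_apply, aeval_monomial, Finsupp.prod_fintype _ _ (by simp),
      map_mul, smul_eq_mul]
    simp [Core_ex_apply]
  have h2 := congrArg (coeff (Core_ex β)) hq
  rw [coeff_sum, Finset.sum_eq_single β] at h2
  · simpa using h2
  · intro γ _ hγ
    rw [coeff_monomial, if_neg]
    exact fun h => hγ (Core_ex_inj h)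
  · simp

theorem Core_deg {k : Type} [Field k] {l : Fin s → Pn n k} (hl : ∀ j, (l j).totalDegree ≤ 1)
    {L : ℕ} (β : Fin s → Fin (L + 1)) : (∏ j, l j ^ (β j : ℕ)).totalDegree ≤ s * L := by
  refine (totalDegree_finsetProd _ _).trans ?_
  have h : ∀ j ∈ (Finset.univ : Finset (Fin s)), (l j ^ (β j : ℕ)).totalDegree ≤ L := by
    intro j _
    refine (totalDegree_pow _ _).trans ?_
    have h1 : (β j : ℕ) ≤ L := Nat.lt_succ_iff.mp (β j).2
    calc (β j : ℕ) * (l j).totalDegree ≤ L * 1 := Nat.mul_le_mul h1 (hl j)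
      _ = L := mul_one L
  have h2 := Finset.sum_le_card_nsmul _ _ L h
  simpa using h2

/-- The functions `x ↦ ∏ j, l j (x) ^ β j` on the good points, `β : Fin s → Fin (L + 1)`, are
linearly independent by `hind`, and lie in the span of the functions `mon μ (itr F n0) α` by
`expand` (degree at most `s * L`); `exists_minor`. -/
theorem not_van {k : Type} [Field k] {D : Dat k n s t} (hd : 1 ≤ D.d)
    (hcert : ∀ j, ∃ M H, Cert (itr D.F j) (D.d ^ j) M H 0) (hl : ∀ j, (D.l j).totalDegree ≤ 1)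
    (hind : ∀ q : Pn s k, (∀ x, D.Good x → eval x (aeval D.l q) = 0) → q = 0) : ¬ Van D := by
  classical
  rintro ⟨n0, hV⟩
  obtain ⟨M, H, hc⟩ := hcert n0
  obtain ⟨L, hL⟩ := hV M
  have he : 1 ≤ D.d ^ n0 := Nat.one_le_pow _ _ hd
  let κ : Type := {a : (Fin n →₀ ℕ) × (Fin n →₀ ℕ) //
    (∀ i, a.1 i < M) ∧ a.1.degree + D.d ^ n0 * a.2.degree ≤ s * L}
  let f : κ → {x // D.Good x} → k := fun a => Core_ev D.Good (mon a.1.1 (itr D.F n0) a.1.2)
  have hs : ∀ β : Fin s → Fin (L + 1),
      Core_ev D.Good (∏ j, D.l j ^ (β j : ℕ)) ∈ Submodule.span k (Set.range f) := by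
    intro β
    have h1 := expand he hc (s * L) _ (Core_deg hl β)
    have h2 : Submodule.span k {ψ | ∃ (μ : Fin n →₀ ℕ) (β : Fin n →₀ ℕ), (∀ i, μ i < M) ∧
          μ.degree + D.d ^ n0 * β.degree ≤ s * L ∧ ψ = mon μ (itr D.F n0) β} ⊔
        (Ideal.span (Set.range (0 : Fin n → Pn n k))).restrictScalars k ≤
        (Submodule.span k (Set.range f)).comap (Core_ev D.Good) := by
      refine sup_le ?_ ?_
      · rw [Submodule.span_le]
        rintro ψ ⟨μ, α, h1, h2, rfl⟩
        exact Submodule.subset_span ⟨⟨(μ, α), h1, h2⟩, rfl⟩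
      · intro ψ hψ
        have h3 : Ideal.span (Set.range (0 : Fin n → Pn n k)) ≤ ⊥ := by
          rw [Ideal.span_le]
          rintro _ ⟨i, rfl⟩
          simp
        have h4 : ψ = 0 := by simpa using h3 hψ
        rw [h4]
        exact Submodule.zero_mem _
    exact h2 h1
  obtain ⟨e, x, hne⟩ := exists_minor f _ (Core_indep D.Good D.l hind L) hs
  exact hne (hL (fun i => (e i).1.1) (fun i => (e i).1.2) (fun l => (x l).1)
    (fun i => (e i).2) (fun l => (x l).2))

/-- Good points come from `O` (`Dat.Good.of_map`, `esc_sub`), so `Dat.tube` applies.  If `π = 0`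
then `hind` gives `p = 0`, against `Lead`.  If `β0 = 0` then `p = 1` (`Lead.eq_one`), there is no
good point and `hind` gives `1 = 0`.  Otherwise `coreC` and `not_van`. -/
theorem no_tube (O : ValuationSubring ℂ) {D : Dat O n s t} (hD : D.OK)
    (hπ : D.π ∈ maximalIdeal O)
    (hcert : ∀ j, ∃ M H, Cert (itr (D.map O.subtype).F j) (D.d ^ j) M H 0)
    (hl : ∀ j, (D.l j).totalDegree ≤ 1)
    (hind : ∀ q : Pn s ℂ, (∀ x, (D.map O.subtype).Good x →
      eval x (aeval (D.map O.subtype).l q) = 0) → q = 0) : False := by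
  have key : ∀ x, (D.map O.subtype).Good x → ∃ z : O, D.π ∣ z ∧
      eval x (aeval (D.map O.subtype).l (map O.subtype D.p)) = O.subtype z := by
    intro x hx
    obtain ⟨x', hx', rfl⟩ := Dat.Good.of_map (D := D) (f := O.subtype) Subtype.val_injective
      (fun y hy => esc_sub O hD.hd hD.cF hy) hx
    refine ⟨eval x' (aeval D.l D.p), Dat.tube hD hx', ?_⟩
    rw [← eval_map_comp, map_aeval']
    rfl
  by_cases hπ0 : D.π = 0
  · have h1 : map O.subtype D.p = 0 := by
      apply hind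
      intro x hx
      obtain ⟨z, hz, h⟩ := key x hx
      rw [hπ0, zero_dvd_iff] at hz
      rw [h, hz, map_zero]
    have h2 := congrArg (coeff D.β0) h1
    rw [coeff_map, hD.lead.1, map_one, coeff_zero] at h2
    exact one_ne_zero h2
  by_cases h0 : D.β0 = 0
  · have hp : D.p = 1 := Lead.eq_one (h0 ▸ hD.lead)
    have h1 : (1 : Pn s ℂ) = 0 := by
      apply hind
      intro x hx
      exfalso
      obtain ⟨z, hz, h⟩ := key x hx
      rw [hp, map_one, map_one, map_one] at h
      have hz1 : z = 1 := Subtype.val_injective (by simpa using h.symm)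
      rw [hz1] at hz
      exact (mem_maximalIdeal _).mp hπ (isUnit_of_dvd_one hz)
    exact one_ne_zero h1
  have hd : 1 ≤ (D.map O.subtype).d := le_trans (by norm_num) hD.hd
  exact not_van hd hcert (fun j => (totalDegree_map_le _ _).trans (hl j)) hind
    (coreC O hD h0 hπ hπ0)

end Pool.Agent.Work.MP_0a826e_ag.G
end

-- merged part: Pool.Agent.Work.MP_0a826e_ag.G.Setup
section
/-!
Construction of the tube from a relation on the reduction.
-/

namespace Pool.Agent.Work.MP_0a826e_ag.G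

open MvPolynomial IsLocalRing

variable {n s : ℕ} {K : Type} [Field K]

theorem Setup_dvd (O : ValuationSubring K) (T : Finset O) (hT : ∀ a ∈ T, a ∈ maximalIdeal O) :
    ∃ c ∈ maximalIdeal O, ∀ a ∈ T, c ∣ a := by
  classical
  induction T using Finset.induction_on with
  | empty => exact ⟨0, zero_mem _, by simp⟩
  | insert a T _ ih =>
    obtain ⟨c, hc, h⟩ := ih fun b hb => hT b (Finset.mem_insert_of_mem hb)
    rcases ValuationRing.dvd_total c a with h1 | h1
    · refine ⟨c, hc, fun b hb => ?_⟩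
      rcases Finset.mem_insert.1 hb with rfl | hb
      exacts [h1, h b hb]
    · refine ⟨a, hT a (Finset.mem_insert_self _ _), fun b hb => ?_⟩
      rcases Finset.mem_insert.1 hb with rfl | hb
      exacts [dvd_rfl, h1.trans (h b hb)]

theorem Setup_root [IsAlgClosed K] (O : ValuationSubring K) {c : O} (hc : c ∈ maximalIdeal O)
    {e : ℕ} (he : 1 ≤ e) : ∃ π ∈ maximalIdeal O, π ^ e = c := by
  obtain ⟨z, hz⟩ := IsAlgClosed.exists_pow_nat_eq (c : K) he
  have h1 : O.valuation z < 1 := by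
    have h2 := (O.valuation_lt_one_iff c).1 hc
    rw [← hz, map_pow] at h2
    by_contra h3
    exact absurd h2 (not_lt.2 (one_le_pow₀ (not_lt.1 h3)))
  refine ⟨⟨z, (O.valuation_le_one_iff z).1 h1.le⟩, (O.valuation_lt_one_iff _).2 h1, ?_⟩
  exact Subtype.ext (by simpa using hz)

/-- Among the finitely many coefficients, all in the maximal ideal, one divides all the others;
take an `e`-th root of it in `K`. -/
theorem exists_pi [IsAlgClosed K] (O : ValuationSubring K) {ι : Type} [Finite ι]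
    (g : ι → Pn n O) (hg : ∀ i, map (residue O) (g i) = 0) {e : ℕ} (he : 1 ≤ e) :
    ∃ π ∈ maximalIdeal O, ∀ i, ∃ W : Pn n O, g i = C (π ^ e) * W := by
  classical
  have := Fintype.ofFinite ι
  obtain ⟨c, hc, h⟩ := Setup_dvd O (Finset.univ.biUnion fun i => (g i).support.image
    fun m => coeff m (g i)) (by
      intro a ha
      obtain ⟨i, -, ha⟩ := Finset.mem_biUnion.1 ha
      obtain ⟨m, -, rfl⟩ := Finset.mem_image.1 ha
      have h1 := congrArg (coeff m) (hg i)
      rw [coeff_map, coeff_zero] at h1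
      exact (residue_eq_zero_iff _).1 h1)
  obtain ⟨π, hπ, rfl⟩ := Setup_root O hc he
  refine ⟨π, hπ, fun i => (C_dvd_iff_dvd_coeff _ _).2 fun m => ?_⟩
  by_cases hm : m ∈ (g i).support
  · exact h _ (Finset.mem_biUnion.2 ⟨i, Finset.mem_univ _, Finset.mem_image_of_mem _ hm⟩)
  · rw [notMem_support_iff.1 hm]
    exact dvd_zero _

/-- Nullstellensatz over the residue field (`resAC`, `vanishingIdeal_zeroLocus_eq_radical`) for
the image of `a`, which consists of the reductions (`Ideal.mem_map_iff_of_surjective`) -/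
theorem exists_pow [IsAlgClosed K] (O : ValuationSubring K) (a : Ideal (Pn n O)) {t : ℕ}
    (g : Fin t → Pn n O)
    (hg : ∀ i v, (∀ u ∈ a, eval v (map (residue O) u) = 0) → eval v (map (residue O) (g i)) = 0) :
    ∃ (e : ℕ) (A : Fin t → Pn n O), 1 ≤ e ∧ ∀ i, A i ∈ a ∧ map (residue O) (g i ^ e - A i) = 0 := by
  have := resAC O
  have hs : Function.Surjective (map (residue O) : Pn n O →+* Pn n (ResidueField O)) :=
    map_surjective _ residue_surjective
  have h1 : ∀ i, ∃ e : ℕ, map (residue O) (g i) ^ e ∈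
      a.map (map (residue O) : Pn n O →+* Pn n (ResidueField O)) := by
    intro i
    have h2 : map (residue O) (g i) ∈
        (a.map (map (residue O) : Pn n O →+* Pn n (ResidueField O))).radical := by
      rw [← vanishingIdeal_zeroLocus_eq_radical (K := ResidueField O)]
      intro v hv
      refine hg i v fun u hu => ?_
      exact hv _ (Ideal.mem_map_of_mem _ hu)
    exact h2
  choose e he using h1
  have h3 : ∀ i, ∃ A ∈ a, map (residue O) (g i ^ (∑ j, e j + 1) - A) = 0 := by
    intro i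
    have h4 : e i ≤ ∑ j, e j + 1 :=
      (Finset.single_le_sum (fun j _ => Nat.zero_le (e j)) (Finset.mem_univ i)).trans
        (Nat.le_succ _)
    obtain ⟨A, hA, h5⟩ := (Ideal.mem_map_iff_of_surjective _ hs).1
      (Ideal.pow_mem_of_pow_mem _ (he i) h4)
    exact ⟨A, hA, by rw [map_sub, map_pow, h5, sub_self]⟩
  choose A hA using h3
  exact ⟨_, A, Nat.le_add_left _ _, hA⟩

/-- lift finitely many generators of `van Z` and the cofactors -/
theorem exists_gens {O : Type} [CommRing O] [IsLocalRing O] (Z : Set (Fin n → ResidueField O)) :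
    ∃ (t : ℕ) (P : Fin t → Pn n O), (∀ i, map (residue O) (P i) ∈ van Z) ∧
      ∀ g : Pn n O, map (residue O) g ∈ van Z →
        ∃ H : Fin t → Pn n O, map (residue O) (g - ∑ j, H j * P j) = 0 := by
  have hs : Function.Surjective (map (residue O) : Pn n O →+* Pn n (ResidueField O)) :=
    map_surjective _ residue_surjective
  obtain ⟨t, p, hp⟩ := Submodule.fg_iff_exists_fin_generating_family.1
    (IsNoetherian.noetherian (van Z))
  choose P hP using fun i => hs (p i)
  refine ⟨t, P, fun i => ?_, fun g hg => ?_⟩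
  · rw [hP, ← hp]
    exact Submodule.subset_span ⟨i, rfl⟩
  · rw [← hp] at hg
    obtain ⟨c, hc⟩ := (Submodule.mem_span_range_iff_exists_fun _).1 hg
    choose H hH using fun i => hs (c i)
    refine ⟨H, ?_⟩
    rw [map_sub, map_sum, ← hc, sub_eq_zero]
    exact Finset.sum_congr rfl fun j _ => by rw [map_mul, hH, hP, smul_eq_mul]

/-- Let `Z` be the union over `m0 ≤ j` of the `j`-th images of the zero set of the reductions of
`a`.  Use `exists_gens`, `exists_pow` for `aeval (itr G m0) (P i)`, `exists_lead`, and `exists_pi`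
for all the error terms at once (`π ^ e = π * π ^ (e - 1)`). -/
theorem exists_dat [IsAlgClosed K] (O : ValuationSubring K) {d M M' : ℕ} (hd : 2 ≤ d)
    {G : Fin n → Pn n O} (hom : ∀ i, (G i).IsHomogeneous d) {h : Fin n → Fin n → Pn n O}
    (cF : Cert G d M h 0) {l : Fin s → Pn n O} {H : Fin n → Fin s → Pn n O} {Q : Fin n → Pn n O}
    (cl : Cert l 1 M' H Q) (a : Ideal (Pn n O)) (m0 : ℕ) {q : Pn s (ResidueField O)} (hq : q ≠ 0)
    (hv : ∀ j v, m0 ≤ j → (∀ u ∈ a, eval v (map (residue O) u) = 0) →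
      eval ((emap fun i => map (residue O) (G i))^[j] v)
        (aeval (fun i => map (residue O) (l i)) q) = 0) :
    ∃ (t : ℕ) (D : Dat O n s t), D.OK ∧ D.π ∈ maximalIdeal O ∧ D.d = d ∧ D.F = G ∧ D.l = l ∧
      D.Q = Q ∧ D.m0 = m0 ∧ ∀ i, D.A i ∈ a := by
  obtain ⟨t, P, hP, hgen⟩ := exists_gens (O := O) {x | ∃ j v, m0 ≤ j ∧
    (∀ u ∈ a, eval v (map (residue O) u) = 0) ∧ x = (emap fun i => map (residue O) (G i))^[j] v}
  obtain ⟨e, A, he, hA⟩ := exists_pow O a (fun i => aeval (itr G m0) (P i)) (by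
    intro i v hv'
    rw [map_aeval']
    simp only [map_itr]
    rw [eval_aeval_itr]
    exact mem_van.1 (hP i) _ ⟨m0, v, le_rfl, hv', rfl⟩)
  obtain ⟨p, β0, c, hp, hc⟩ := exists_lead (f := residue O) residue_surjective hq
  have hb : ∀ i, ∃ Hb : Fin t → Pn n O,
      map (residue O) (aeval G (P i) - ∑ j, Hb j * P j) = 0 := by
    intro i
    refine hgen _ (mem_van.2 ?_)
    rintro x ⟨j, v, hj, hv', rfl⟩
    rw [map_aeval', eval_aeval]
    exact mem_van.1 (hP i) _ ⟨j + 1, v, hj.trans (Nat.le_succ j), hv',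
      (Function.iterate_succ_apply' (emap fun i => map (residue O) (G i)) j v).symm⟩
  choose Hb hb using hb
  obtain ⟨Hc, hc'⟩ := hgen (aeval l p) (mem_van.2 (by
    rintro x ⟨j, v, hj, hv', rfl⟩
    rw [map_aeval', hc, map_mul, map_mul, hv j v hj hv', mul_zero]))
  obtain ⟨π, hπ, hW⟩ := exists_pi O (ι := Option (Fin t ⊕ Fin t))
    (fun o => o.elim (aeval l p - ∑ j, Hc j * P j) (Sum.elim
      (fun i => aeval (itr G m0) (P i) ^ e - A i) fun i => aeval G (P i) - ∑ j, Hb i j * P j))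
    (by
      rintro (_ | i | i)
      exacts [hc', (hA i).2, hb i]) he
  choose W hW using hW
  have hpe : (C (π ^ e) : Pn n O) = C π * C (π ^ (e - 1)) := by
    rw [← map_mul, ← pow_succ', Nat.sub_add_cancel he]
  refine ⟨t, ⟨d, M, M', m0, e, π, G, h, l, H, Q, p, β0, P, A, fun i => W (some (.inl i)), Hb,
    fun i => C (π ^ (e - 1)) * W (some (.inr i)), Hc, C (π ^ (e - 1)) * W none⟩,
    ⟨hd, he, hom, cF, cl, hp, fun i => ?_, fun i => ?_, ?_⟩, hπ, rfl, rfl, rfl, rfl, rfl,
    fun i => (hA i).1⟩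
  · exact eq_add_of_sub_eq' (hW (some (.inl i)))
  · refine eq_add_of_sub_eq' ((hW (some (.inr i))).trans ?_)
    rw [hpe, mul_assoc]
  · refine eq_add_of_sub_eq' ((hW none).trans ?_)
    rw [hpe, mul_assoc]

end Pool.Agent.Work.MP_0a826e_ag.G
end

-- merged part: Pool.Agent.Work.MP_0a826e_ag.G.End
section
/-!
The case where the dimension does not grow.
-/

namespace Pool.Agent.Work.MP_0a826e_ag.G

open MvPolynomial

variable {n s : ℕ} {K : Type} [Field K]

/-- `Algebra.IsAlgebraic.isTranscendenceBasis_of_le_trdeg_of_finite`, with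
`AlgebraicIndependent.cardinalMk_le_trdeg` for `b` -/
theorem inj_of_integral {D : Type} [CommRing D] [IsDomain D] [Algebra K D] (a b : Fin s → D)
    (ha : (aeval a : Pn s K →ₐ[K] D).toRingHom.IsIntegral)
    (hb : ∀ p : Pn s K, aeval b p = 0 → p = 0) (p : Pn s K) (hp : aeval a p = 0) : p = 0 := by
  have h1 : AlgebraicIndependent K b := algebraicIndependent_iff.2 hb
  have hm : ∀ x : Pn s K, (aeval a : Pn s K →ₐ[K] D).toRingHom x ∈
      Algebra.adjoin K (Set.range a) := fun x => by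
    rw [Algebra.adjoin_range_eq_range_aeval]
    exact ⟨x, rfl⟩
  have h2 : (algebraMap (Algebra.adjoin K (Set.range a)) D).IsIntegral :=
    RingHom.IsIntegral.tower_top
      ((aeval a : Pn s K →ₐ[K] D).toRingHom.codRestrict (Algebra.adjoin K (Set.range a)) hm) _ ha
  have : Algebra.IsIntegral (Algebra.adjoin K (Set.range a)) D := ⟨h2⟩
  have : Algebra.IsAlgebraic (Algebra.adjoin K (Set.range a)) D := Algebra.IsIntegral.isAlgebraic
  have h3 := Algebra.IsAlgebraic.isTranscendenceBasis_of_le_trdeg_of_finite K a h1.cardinalMk_le_trdeg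
  exact algebraicIndependent_iff.1 h3.1 p hp

/-- incomparability (`Ideal.comap_lt_comap_of_integral_mem_sdiff`) in the quotient by the span of
the `Q i`, which is finite over the polynomials in `l` by `finite_of_cert` -/
theorem mem_minimalPrimes {l : Fin s → Pn n K} {M : ℕ} {H : Fin n → Fin s → Pn n K}
    {Q : Fin n → Pn n K} (hl : Cert l 1 M H Q) (q : Ideal (Pn n K)) [q.IsPrime]
    (hQ : ∀ i, Q i ∈ q) (hind : ∀ p : Pn s K, aeval l p ∈ q → p = 0) :
    q ∈ (Ideal.span (Set.range Q)).minimalPrimes := by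
  refine ⟨⟨inferInstance, Ideal.span_le.2 (Set.range_subset_iff.2 hQ)⟩, ?_⟩
  rintro q' ⟨h1, h2⟩ h3 x hx
  by_contra c
  have hf := (finite_of_cert le_rfl hl (Ideal.Quotient.mk q') Ideal.Quotient.mk_surjective
    fun i => Ideal.Quotient.eq_zero_iff_mem.2 (h2 (Ideal.subset_span ⟨i, rfl⟩))).to_isIntegral
  obtain ⟨p, p1, p2⟩ := hf (Ideal.Quotient.mk q' x)
  refine Ideal.comap_ne_bot_of_root_mem (I := q.map (Ideal.Quotient.mk q'))
    (fun e => c (Ideal.Quotient.eq_zero_iff_mem.1 e)) (Ideal.mem_map_of_mem _ hx) p1.ne_zero p2 ?_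
  refine eq_bot_iff.2 fun r hr => ?_
  exact hind r ((Ideal.mem_quotient_iff_mem h3).1 hr)

/-- Let `D` be the quotient by `p0` and `θ j = mk ∘ aeval (itr F j)`.  For `m0 ≤ j` the ring `D` is
finite over the range of `θ j`, which is finite over the polynomials in `θ j (l ·)`
(`finite_of_cert` twice).  So `inj_of_integral` and `mem_minimalPrimes` apply to the kernel of
`θ j`; there are finitely many minimal primes. -/
theorem endgame (p0 : Ideal (Pn n K)) [p0.IsPrime] (F : Fin n → Pn n K) (m0 : ℕ)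
    (hF : ∀ j, ∃ e M H, 1 ≤ e ∧ Cert (itr F j) e M H 0) {l : Fin s → Pn n K} {M : ℕ}
    {H : Fin n → Fin s → Pn n K} {Q : Fin n → Pn n K} (hl : Cert l 1 M H Q)
    (hQ : ∀ i j, m0 ≤ j → aeval (itr F j) (Q i) ∈ p0) (j0 : ℕ)
    (hind : ∀ p : Pn s K, aeval (itr F j0) (aeval l p) ∈ p0 → p = 0) :
    ∃ m k, 1 ≤ k ∧ ∀ g : Pn n K, aeval (itr F (m + k)) g ∈ p0 ↔ aeval (itr F m) g ∈ p0 := by
  let θ : ℕ → (Pn n K →ₐ[K] Pn n K ⧸ p0) := fun j =>
    (Ideal.Quotient.mkₐ K p0).comp (aeval (itr F j))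
  have hθ : ∀ j g, g ∈ RingHom.ker (θ j).toRingHom ↔ aeval (itr F j) g ∈ p0 := fun j g =>
    Ideal.Quotient.eq_zero_iff_mem
  have hl' : ∀ j (p : Pn s K), aeval (fun i => θ j (l i)) p = θ j (aeval l p) := fun j p => by
    rw [← comp_aeval]
    rfl
  have key : ∀ j, RingHom.ker (θ (m0 + j)).toRingHom ∈ (Ideal.span (Set.range Q)).minimalPrimes := by
    intro j
    have hq : ∀ i, Q i ∈ RingHom.ker (θ (m0 + j)).toRingHom := fun i =>
      (hθ _ _).2 (hQ i _ (Nat.le_add_right _ _))
    have := RingHom.ker_isPrime (θ (m0 + j)).toRingHom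
    refine mem_minimalPrimes hl _ hq fun p hp => ?_
    obtain ⟨e, M', H', he, hc⟩ := hF (m0 + j)
    have i1 : (θ (m0 + j)).toRingHom.IsIntegral :=
      (finite_of_cert he hc (Ideal.Quotient.mk p0) Ideal.Quotient.mk_surjective
        fun _ => map_zero _).to_isIntegral
    have i2 : (RingHom.kerLift (θ (m0 + j)).toRingHom).IsIntegral :=
      RingHom.IsIntegral.tower_top (Ideal.Quotient.mk _) _ i1
    have i3 := (finite_of_cert le_rfl hl (Ideal.Quotient.mk (RingHom.ker (θ (m0 + j)).toRingHom))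
      Ideal.Quotient.mk_surjective fun i => Ideal.Quotient.eq_zero_iff_mem.2 (hq i)).to_isIntegral
    have i4 := RingHom.IsIntegral.trans _ _ i3 i2
    refine inj_of_integral (fun i => θ (m0 + j) (l i)) (fun i => θ j0 (l i)) ?_
      (fun r hr => hind r ((hθ j0 _).1 ((hl' j0 r).symm.trans hr))) p ((hl' _ p).trans hp)
    have e1 : (aeval fun i => θ (m0 + j) (l i) : Pn s K →ₐ[K] Pn n K ⧸ p0).toRingHom =
        (RingHom.kerLift (θ (m0 + j)).toRingHom).comp
          ((Ideal.Quotient.mk _).comp (aeval l : Pn s K →ₐ[K] Pn n K).toRingHom) :=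
      RingHom.ext fun r => hl' _ r
    rw [e1]
    exact i4
  obtain ⟨a, b, hab, e⟩ := (Ideal.finite_minimalPrimes_of_isNoetherianRing _
    (Ideal.span (Set.range Q))).exists_lt_map_eq_of_forall_mem key
  obtain ⟨k, rfl⟩ := Nat.exists_eq_add_of_lt hab
  refine ⟨m0 + a, k + 1, Nat.le_add_left _ _, fun g => ?_⟩
  rw [← hθ, ← hθ, e, add_assoc m0, add_assoc a]

end Pool.Agent.Work.MP_0a826e_ag.G
end

-- merged part: Pool.Agent.Work.MP_0a826e_ag.G.Aff
section
/-!
The affine form of the reduction principle.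
-/

namespace Pool.Agent.Work.MP_0a826e_ag.G

open MvPolynomial IsLocalRing

variable {n s : ℕ}

/-- strong induction: an image of order `j ≥ n1` is an image of order `j - n1 + m0` -/
theorem orbit_fin {X : Type} {φ : X → X} {Z : Set X} {m0 n1 : ℕ} (hlt : m0 < n1)
    (h : ∀ v ∈ Z, ∃ v' ∈ Z, φ^[n1] v = φ^[m0] v') {j : ℕ} (hj : m0 ≤ j) {v : X} (hv : v ∈ Z) :
    ∃ j' v', m0 ≤ j' ∧ j' < n1 ∧ v' ∈ Z ∧ φ^[j] v = φ^[j'] v' := by
  induction j using Nat.strong_induction_on generalizing v with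
  | _ j ih =>
    by_cases hjn : j < n1
    · exact ⟨j, v, hj, hjn, hv, rfl⟩
    · obtain ⟨v', hv', e⟩ := h v hv
      obtain ⟨j', v'', h1, h2, h3, h4⟩ := ih (j - n1 + m0) (by omega) (by omega) hv'
      refine ⟨j', v'', h1, h2, h3, ?_⟩
      have e1 : j = (j - n1) + n1 := by omega
      rw [← h4, e1, Function.iterate_add_apply, e, ← Function.iterate_add_apply]
      congr 2
      omega

/-- either every order in `[m0, n1)` has a relation, and the product works for all orders, or
some order has none -/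
theorem dichotomy {κ : Type} [Field κ] {φ : (Fin n → κ) → Fin n → κ} {Z : Set (Fin n → κ)}
    {m0 n1 : ℕ} (hlt : m0 < n1) (h : ∀ v ∈ Z, ∃ v' ∈ Z, φ^[n1] v = φ^[m0] v')
    (l : Fin s → Pn n κ) :
    (∃ q : Pn s κ, q ≠ 0 ∧ ∀ j v, m0 ≤ j → v ∈ Z → eval (φ^[j] v) (aeval l q) = 0) ∨
    ∃ j0, ∀ q : Pn s κ, (∀ v ∈ Z, eval (φ^[j0] v) (aeval l q) = 0) → q = 0 := by
  by_cases h2 : ∃ j0, ∀ q : Pn s κ, (∀ v ∈ Z, eval (φ^[j0] v) (aeval l q) = 0) → q = 0
  · exact Or.inr h2
  · left
    have h3 : ∀ j0, ∃ q : Pn s κ, (∀ v ∈ Z, eval (φ^[j0] v) (aeval l q) = 0) ∧ q ≠ 0 := by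
      intro j0
      by_contra hc
      exact h2 ⟨j0, fun q hq => by_contra fun hq0 => hc ⟨q, hq, hq0⟩⟩
    choose q hq hq0 using h3
    refine ⟨∏ j ∈ Finset.range n1, q j, Finset.prod_ne_zero_iff.2 fun j _ => hq0 j, ?_⟩
    intro j v hj hv
    obtain ⟨j', v', -, h2', h3', h4'⟩ := orbit_fin hlt h hj hv
    rw [h4', map_prod, map_prod]
    exact Finset.prod_eq_zero (Finset.mem_range.2 h2') (hq j' v' h3')

/-- the ideal of all images of order at least `m0`, over `O` -/
noncomputable def bigI (O : ValuationSubring ℂ) (G : Fin n → Pn n O) (p0 : Ideal (Pn n ℂ))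
    (m0 : ℕ) : Ideal (Pn n O) :=
  ⨅ j : {j : ℕ // m0 ≤ j}, (p0.comap (aeval (itr (fun i => map O.subtype (G i)) j.1) :
    Pn n ℂ →ₐ[ℂ] Pn n ℂ)).comap (map O.subtype : Pn n O →+* Pn n ℂ)

theorem mem_bigI {O : ValuationSubring ℂ} {G : Fin n → Pn n O} {p0 : Ideal (Pn n ℂ)} {m0 : ℕ}
    {g : Pn n O} : g ∈ bigI O G p0 m0 ↔
      ∀ j, m0 ≤ j → aeval (itr (fun i => map O.subtype (G i)) j) (map O.subtype g) ∈ p0 := by
  unfold bigI
  rw [Ideal.mem_iInf]
  constructor
  · intro h j hj
    exact h ⟨j, hj⟩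
  · intro h j
    exact h j.1 j.2

theorem Aff_cancel {p0 : Ideal (Pn n ℂ)} {c : ℂ} (hc : c ≠ 0) {g : Pn n ℂ} (h : C c * g ∈ p0) :
    g ∈ p0 := by
  have e : g = C c⁻¹ * (C c * g) := by
    rw [← mul_assoc, ← map_mul, inv_mul_cancel₀ hc, map_one, one_mul]
  rw [e]
  exact p0.mul_mem_left _ h

theorem Aff_aeval_C {t : ℕ} (g : Fin t → Pn n ℂ) (c : ℂ) (u : Pn t ℂ) :
    aeval g (C c * u) = C c * aeval g u := by
  rw [map_mul, aeval_C, algebraMap_eq]

/-- `gn` for `bigI` (`HomI.comap_aeval`, `HomI.comap_map`, `iterate_zero`; the residue field is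
algebraically closed by `resAC`, so infinite), and `exists_prim_field` -/
theorem exists_forms (O : ValuationSubring ℂ) {d : ℕ} (hd : 1 ≤ d) {G : Fin n → Pn n O}
    (hom : ∀ i, (G i).IsHomogeneous d) {p0 : Ideal (Pn n ℂ)} (hp : HomI p0)
    (h0 : ∀ g ∈ p0, eval 0 g = 0) (m0 : ℕ) :
    ∃ (s : ℕ) (l : Fin s → Pn n O) (M : ℕ) (H : Fin n → Fin s → Pn n O) (Q : Fin n → Pn n O),
      (∀ j, (l j).IsHomogeneous 1) ∧ Cert l 1 M H Q ∧ (∀ i, Q i ∈ bigI O G p0 m0) ∧
      ∀ q : Pn s ℂ, (∀ j, m0 ≤ j → aeval (itr (fun i => map O.subtype (G i)) j)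
        (aeval (fun i => map O.subtype (l i)) q) ∈ p0) → q = 0 := by
  haveI := resAC O
  have homF : ∀ i, (map O.subtype (G i)).IsHomogeneous d := fun i => (hom i).map _
  have hI : HomI (bigI O G p0 m0) := by
    intro g hg e
    rw [mem_bigI] at hg ⊢
    intro j hj
    exact ((hp.comap_aeval (Nat.one_le_pow j d hd) (itr_hom homF j)).comap_map O.subtype) g
      (hg j hj) e
  have hsat : ∀ (c : O) (g : Pn n O), c ≠ 0 → C c * g ∈ bigI O G p0 m0 → g ∈ bigI O G p0 m0 := by
    intro c g hc hg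
    rw [mem_bigI] at hg ⊢
    intro j hj
    have h1 := hg j hj
    rw [map_mul, map_C, Aff_aeval_C] at h1
    exact Aff_cancel (fun h => hc (O.subtype_injective (by rw [h, map_zero]))) h1
  have hz : ∀ g ∈ bigI O G p0 m0, constantCoeff g = 0 := by
    intro g hg
    have h1 := h0 _ (mem_bigI.1 hg m0 le_rfl)
    rw [eval_aeval_itr, iterate_zero hd homF, eval_zero, constantCoeff_map] at h1
    exact O.subtype_injective (by rw [h1, map_zero])
  obtain ⟨s, l, M, H, Q, hl, hc, hQ, hind⟩ := gn (bigI O G p0 m0) hI hsat hz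
  refine ⟨s, l, M, H, Q, hl, hc, hQ, fun q hq => ?_⟩
  by_contra hq0
  obtain ⟨c, p', hc0, e, hp'⟩ := exists_prim_field O hq0
  apply hp'
  have : p' = 0 := by
    apply hind
    rw [mem_bigI]
    intro j hj
    have h1 := hq j hj
    rw [e, Aff_aeval_C, Aff_aeval_C] at h1
    rw [map_aeval']
    exact Aff_cancel hc0 h1
  rw [this, map_zero]

/-- `exists_forms`, `dichotomy` for `Z = redCone O p0`.  First case: `nk_good`, `exists_dat` with
`a = p0.comap (map O.subtype)`, `no_tube` (the images of order at least `m0` of the points of `S`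
are good; `nk_itr`).  Second case: `exists_prim_field` gives the independence needed in
`endgame`. -/
theorem affine_main (O : ValuationSubring ℂ) {d : ℕ} (hd : 2 ≤ d) {G : Fin n → Pn n O}
    (hom : ∀ i, (G i).IsHomogeneous d)
    (hG : ∀ v, v ≠ 0 → emap (fun i => map (residue O) (G i)) v ≠ 0) (S : Set (Fin n → ℂ))
    (hprime : (van S).IsPrime) (hp : HomI (van S)) (h0 : ∀ g ∈ van S, eval 0 g = 0)
    (hpre : ∀ y ∈ S, Pre (emap fun i => map O.subtype (G i)) y) {m0 n1 : ℕ} (hlt : m0 < n1)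
    (hred : ∀ v ∈ redCone O (van S), ∃ v' ∈ redCone O (van S),
      (emap fun i => map (residue O) (G i))^[n1] v = (emap fun i => map (residue O) (G i))^[m0] v') :
    ∃ m k, 1 ≤ k ∧ ∀ g : Pn n ℂ,
      aeval (itr (fun i => map O.subtype (G i)) (m + k)) g ∈ van S ↔
        aeval (itr (fun i => map O.subtype (G i)) m) g ∈ van S := by
  haveI := resAC O
  haveI := hprime
  have hd1 : 1 ≤ d := by omega
  obtain ⟨s, l, M', H, Q, hl, cl, hQ, hind⟩ := exists_forms O hd1 hom hp h0 m0
  rcases dichotomy hlt hred (fun i => map (residue O) (l i)) with ⟨q, hq, hv⟩ | ⟨j0, hj0⟩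
  · exfalso
    obtain ⟨M, h, cF⟩ := nk_good G hom hG
    obtain ⟨t, D, hD, hπ, e1, e2, e3, e4, e5, hA⟩ := exists_dat O hd hom cF cl
      ((van S).comap (map O.subtype : Pn n O →+* Pn n ℂ)) m0 hq
      (fun j v hj hu => hv j v hj fun g hg => hu g hg)
    subst e1 e2 e3 e4 e5
    refine no_tube O hD hπ (fun j => nk_itr D.F hom hG O.subtype j)
      (fun j => (hl j).totalDegree_le) fun q' hq' => hind q' fun j hj => ?_
    rw [mem_van]
    intro y hy
    rw [eval_aeval_itr]
    refine hq' _ ⟨fun i => ?_, y, j, hj, hpre y hy, fun i => ?_, rfl⟩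
    · have h1 := mem_van.1 (mem_bigI.1 (hQ i) j hj) y hy
      rw [eval_aeval_itr] at h1
      exact h1
    · exact mem_van.1 (hA i) y hy
  · refine endgame (van S) _ m0 (fun j => ?_) (cl.map O.subtype)
      (fun i j hj => mem_bigI.1 (hQ i) j hj) j0 fun p hp0 => ?_
    · obtain ⟨M, h, hc⟩ := nk_itr G hom hG O.subtype j
      exact ⟨d ^ j, M, h, Nat.one_le_pow j d hd1, hc⟩
    · by_contra hq0
      obtain ⟨c, p', hc0, e, hp'⟩ := exists_prim_field O hq0
      apply hp'
      apply hj0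
      intro v hv
      rw [e, Aff_aeval_C, Aff_aeval_C] at hp0
      have h1 : map O.subtype (aeval (itr G j0) (aeval l p')) ∈ van S := by
        rw [map_aeval', map_aeval']
        simp only [map_itr]
        exact Aff_cancel hc0 hp0
      have h2 := hv _ h1
      rw [map_aeval', map_aeval'] at h2
      simp only [map_itr] at h2
      rw [eval_aeval_itr] at h2
      exact h2

end Pool.Agent.Work.MP_0a826e_ag.G
end

-- merged part: Pool.Agent.Work.MP_0a826e_ag.G.Proj1
section
/-!
Passage between projective space and the affine cone.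
-/

namespace Pool.Agent.Work.MP_0a826e_ag.G

open MvPolynomial IsLocalRing
open scoped LinearAlgebra.Projectivization

variable {n d : ℕ}

theorem Proj1_step {K : Type} [Field K] {F : Fin n → Pn n K}
    (hF : ∀ v, v ≠ 0 → emap F v ≠ 0) (hom : ∀ i, (F i).IsHomogeneous d) (w : Fin n → K)
    (hw : w ≠ 0) : pmap F hF (Projectivization.mk K w hw) =
      Projectivization.mk K (emap F w) (hF w hw) := by
  obtain ⟨a, ha⟩ := Projectivization.exists_smul_eq_mk_rep K w hw
  unfold pmap
  refine (Projectivization.mk_eq_mk_iff' K _ _ _ _).2 ⟨(a : K) ^ d, ?_⟩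
  rw [← ha]
  funext i
  exact (eval_smul_hom (hom i) (a : K) w).symm

theorem pmap_iterate {K : Type} [Field K] {F : Fin n → Pn n K}
    (hF : ∀ v, v ≠ 0 → emap F v ≠ 0) (hom : ∀ i, (F i).IsHomogeneous d) (j : ℕ) (v : Fin n → K)
    (hv : v ≠ 0) : (pmap F hF)^[j] (Projectivization.mk K v hv) =
      Projectivization.mk K ((emap F)^[j] v) (iterate_ne_zero hF j hv) := by
  induction j with
  | zero => rfl
  | succ j ih =>
    rw [Function.iterate_succ_apply', ih, Proj1_step hF hom]
    simp only [Function.iterate_succ_apply']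

theorem mem_idealOf {Y : Set (ℙ ℂ (Fin n → ℂ))} {g : Pn n ℂ} :
    g ∈ idealOf Y ↔ ∀ p ∈ Y, ∀ c : ℂ, eval (c • p.rep) g = 0 := by
  refine (mem_van (Z := {v : Fin n → ℂ | ∃ p ∈ Y, v ∈ p.submodule})).trans ⟨?_, ?_⟩
  · intro h p hp c
    refine h _ ⟨p, hp, ?_⟩
    rw [Projectivization.submodule_eq]
    exact Submodule.mem_span_singleton.2 ⟨c, rfl⟩
  · rintro h x ⟨p, hp, hx⟩
    rw [Projectivization.submodule_eq] at hx
    obtain ⟨c, rfl⟩ := Submodule.mem_span_singleton.1 hx
    exact h p hp c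

/-- `eval_hc_eq_zero`, `eval_smul_hom` -/
theorem homI_idealOf (Y : Set (ℙ ℂ (Fin n → ℂ))) : HomI (idealOf Y) := by
  intro g hg e
  refine mem_idealOf.2 fun p hp c => ?_
  rw [eval_smul_hom (homogeneousComponent_isHomogeneous e g), eval_hc_eq_zero, mul_zero]
  exact Set.infinite_univ.mono fun c _ => mem_idealOf.1 hg p hp c

/-- if `Y` is empty the ideal is the whole ring -/
theorem eval_zero_idealOf {Y : Set (ℙ ℂ (Fin n → ℂ))} (h : (idealOf Y).IsPrime) {g : Pn n ℂ}
    (hg : g ∈ idealOf Y) : eval 0 g = 0 := by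
  rcases Y.eq_empty_or_nonempty with rfl | ⟨p, hp⟩
  · exact absurd ((Ideal.eq_top_iff_one _).2 (mem_idealOf.2 fun p hp => absurd hp id)) h.ne_top
  · simpa using mem_idealOf.1 hg p hp 0

theorem Proj1_pre {X : Type} {φ : X → X} {x : X} {a b : ℕ} (hab : a < b)
    (h : φ^[a] x = φ^[b] x) : Pre φ x := by
  refine ((Set.finite_lt_nat b).image fun j : ℕ => φ^[j] x).subset ?_
  rintro _ ⟨j, rfl⟩
  induction j using Nat.strong_induction_on with
  | _ j ih =>
    by_cases hj : j < b
    · exact ⟨j, hj, rfl⟩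
    · have e : φ^[j] x = φ^[j - b + a] x := by
        rw [Function.iterate_add_apply, h, ← Function.iterate_add_apply,
          Nat.sub_add_cancel (not_lt.1 hj)]
      have := ih (j - b + a) (by omega)
      simp only at this ⊢
      rw [e]
      exact this

theorem Proj1_root {F : Fin n → Pn n ℂ} (hom : ∀ i, (F i).IsHomogeneous d) {z : ℂ}
    (hz : IsOfFinOrder z) {w : Fin n → ℂ} (hw : Pre (emap F) w) : Pre (emap F) (z • w) := by
  refine (Set.Finite.image2 (fun (c : ℂ) (v : Fin n → ℂ) => c • v) hz.finite_powers hw).subset ?_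
  rintro _ ⟨j, rfl⟩
  exact ⟨z ^ d ^ j, ⟨_, rfl⟩, _, ⟨j, rfl⟩, (iterate_smul hom j z w).symm⟩

/-- If `f ^ a p = f ^ b p` with `a < b` then `F ^ b v = lam • F ^ a v`; for
`c ^ (d ^ b - d ^ a) * lam = 1` the vector `c • v` satisfies `F ^ b = F ^ a`.  A root of unity times
a vector with finite orbit has finite orbit (`iterate_smul`), and there are infinitely many roots
of unity. -/
theorem infinite_lifts {F : Fin n → Pn n ℂ} (hF : ∀ v, v ≠ 0 → emap F v ≠ 0) (hd : 2 ≤ d)
    (hom : ∀ i, (F i).IsHomogeneous d) {p : ℙ ℂ (Fin n → ℂ)} (hp : Pre (pmap F hF) p) :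
    {c : ℂ | Pre (emap F) (c • p.rep)}.Infinite := by
  obtain ⟨a, b, hab, he⟩ := Set.Finite.exists_lt_map_eq_of_forall_mem
    (f := fun j : ℕ => (pmap F hF)^[j] p) (fun j => Set.mem_range_self j) hp
  have e : p = Projectivization.mk ℂ p.rep p.rep_nonzero := p.mk_rep.symm
  rw [e, pmap_iterate hF hom, pmap_iterate hF hom] at he
  obtain ⟨lam, hl⟩ := (Projectivization.mk_eq_mk_iff ℂ _ _ _ _).1 he
  have hlt : d ^ a < d ^ b := Nat.pow_lt_pow_right (by omega) hab
  obtain ⟨c, hc⟩ := IsAlgClosed.exists_pow_nat_eq (lam : ℂ) (n := d ^ b - d ^ a) (by omega)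
  have hc0 : c ≠ 0 := by
    rintro rfl
    rw [zero_pow (by omega)] at hc
    exact lam.ne_zero hc.symm
  have hw : Pre (emap F) (c • p.rep) := by
    refine Proj1_pre hab ?_
    rw [iterate_smul hom, iterate_smul hom, ← hl, Units.smul_def, smul_smul, ← hc, ← pow_add,
      Nat.add_sub_cancel' hlt.le]
  refine Set.infinite_of_injective_forall_mem
    (f := fun m : ℕ => Complex.exp (2 * Real.pi * Complex.I / (m + 1 : ℕ)) * c) ?_ ?_
  · intro m m' h
    have h1 := Complex.isPrimitiveRoot_exp (m + 1) (Nat.succ_ne_zero m)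
    have h2 := Complex.isPrimitiveRoot_exp (m' + 1) (Nat.succ_ne_zero m')
    have h3 := mul_right_cancel₀ hc0 h
    rw [h3] at h1
    exact Nat.succ_injective (h1.unique h2)
  · intro m
    have h1 := Complex.isPrimitiveRoot_exp (m + 1) (Nat.succ_ne_zero m)
    have h2 := h1.isOfFinOrder (Nat.succ_ne_zero m)
    change Pre (emap F) ((_ * c) • p.rep)
    rw [mul_smul]
    exact Proj1_root hom h2 hw

/-- `infinite_lifts`, `eval_smul_eq_zero` -/
theorem van_lifts {F : Fin n → Pn n ℂ} (hF : ∀ v, v ≠ 0 → emap F v ≠ 0) (hd : 2 ≤ d)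
    (hom : ∀ i, (F i).IsHomogeneous d) {S : Set (ℙ ℂ (Fin n → ℂ))}
    (hS : ∀ p ∈ S, Pre (pmap F hF) p) :
    van {y | (∃ p ∈ S, ∃ c : ℂ, y = c • p.rep) ∧ Pre (emap F) y} = idealOf S := by
  ext g
  rw [mem_van, mem_idealOf]
  constructor
  · intro h p hp c
    exact eval_smul_eq_zero ((infinite_lifts hF hd hom (hS p hp)).mono fun c hc =>
      h _ ⟨⟨p, hp, c, rfl⟩, hc⟩) c
  · rintro h _ ⟨⟨p, hp, c, rfl⟩, -⟩
    exact h p hp c

end Pool.Agent.Work.MP_0a826e_ag.G
end

-- merged part: Pool.Agent.Work.MP_0a826e_ag.G.Proj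
section
/-!
Passage between projective space and the affine cone.
-/

namespace Pool.Agent.Work.MP_0a826e_ag.G

open MvPolynomial IsLocalRing
open scoped LinearAlgebra.Projectivization

variable {n d : ℕ}

theorem Proj_smul {R : Type} [CommRing R] {g : Pn n R} {v : Fin n → R}
    (h : ∀ e, eval v (homogeneousComponent e g) = 0) (c : R) : eval (c • v) g = 0 := by
  rw [← sum_homogeneousComponent g, map_sum]
  exact Finset.sum_eq_zero fun e _ => by
    rw [eval_smul_hom (homogeneousComponent_isHomogeneous e g), h, mul_zero]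

/-- `homI_idealOf`, `hc_map`, `eval_smul_hom`: write `g` as the sum of its components -/
theorem redCone_smul (O : ValuationSubring ℂ) (Y : Set (ℙ ℂ (Fin n → ℂ)))
    {v : Fin n → ResidueField O} (hv : v ∈ redCone O (idealOf Y)) (c : ResidueField O) :
    c • v ∈ redCone O (idealOf Y) := by
  intro g hg
  refine Proj_smul (fun e => ?_) c
  rw [hc_map]
  exact hv _ (hc_map O.subtype e g ▸ homI_idealOf Y _ hg e)

/-- For `v = 0` take `v' = 0` (`iterate_zero`).  Otherwise use `pmap_iterate`, `redCone_smul` and a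
`d ^ m`-th root of the scalar (`resAC`). -/
theorem red_cone (O : ValuationSubring ℂ) (hd : 1 ≤ d) {G : Fin n → Pn n (ResidueField O)}
    (hG : ∀ v, v ≠ 0 → emap G v ≠ 0) (hom : ∀ i, (G i).IsHomogeneous d)
    (Y : Set (ℙ ℂ (Fin n → ℂ))) {m k : ℕ}
    (h : (pmap G hG)^[m + k] '' redSet O Y = (pmap G hG)^[m] '' redSet O Y) :
    ∀ v ∈ redCone O (idealOf Y), ∃ v' ∈ redCone O (idealOf Y),
      (emap G)^[m + k] v = (emap G)^[m] v' := by
  intro v hv
  by_cases h0 : v = 0
  · subst h0
    exact ⟨0, hv, by rw [iterate_zero hd hom, iterate_zero hd hom]⟩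
  have := resAC O
  obtain ⟨a, ha⟩ := Projectivization.exists_smul_eq_mk_rep (ResidueField O) v h0
  have h1 : Projectivization.mk (ResidueField O) v h0 ∈ redSet O Y := by
    have := redCone_smul O Y hv a
    rwa [← Units.smul_def, ha] at this
  obtain ⟨q, hq, e⟩ : (pmap G hG)^[m + k] (Projectivization.mk (ResidueField O) v h0) ∈
      (pmap G hG)^[m] '' redSet O Y := h ▸ ⟨_, h1, rfl⟩
  rw [← q.mk_rep, pmap_iterate hG hom, pmap_iterate hG hom, eq_comm,
    Projectivization.mk_eq_mk_iff] at e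
  obtain ⟨b, hb⟩ := e
  obtain ⟨c, hc⟩ := IsAlgClosed.exists_pow_nat_eq (b : ResidueField O) (pow_pos hd m)
  exact ⟨c • q.rep, redCone_smul O Y hq c, by rw [iterate_smul hom, hc, ← hb, Units.smul_def]⟩

/-- `closed_image` for `itr F j` and the cone over `Y` together with the origin -/
theorem mem_image_iff {F : Fin n → Pn n ℂ} (hF : ∀ v, v ≠ 0 → emap F v ≠ 0) (hd : 1 ≤ d)
    (hom : ∀ i, (F i).IsHomogeneous d) {Y : Set (ℙ ℂ (Fin n → ℂ))}
    (hY : ∀ p : ℙ ℂ (Fin n → ℂ), (∀ g ∈ idealOf Y, eval p.rep g = 0) → p ∈ Y) (j : ℕ)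
    (p : ℙ ℂ (Fin n → ℂ)) : p ∈ (pmap F hF)^[j] '' Y ↔
      ∀ g : Pn n ℂ, aeval (itr F j) g ∈ idealOf Y → eval p.rep g = 0 := by
  constructor
  · rintro ⟨q, hq, rfl⟩ g hg
    rw [← q.mk_rep, pmap_iterate hF hom]
    obtain ⟨a, ha⟩ := Projectivization.exists_smul_eq_mk_rep ℂ _
      (iterate_ne_zero hF j q.rep_nonzero)
    obtain ⟨c, hc⟩ := IsAlgClosed.exists_pow_nat_eq (a : ℂ) (pow_pos hd j)
    rw [← ha, Units.smul_def, ← hc, ← iterate_smul hom, ← eval_aeval_itr]
    exact mem_idealOf.1 hg q hq c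
  · intro h
    obtain ⟨y, hy, e⟩ := closed_image (itr F j) (d ^ j) (pow_pos hd j) (itr_hom hom j)
      (fun v hv => by
        by_contra h0
        exact iterate_ne_zero hF j h0 (emap_itr F j v ▸ funext hv))
      {y | y = 0 ∨ ∃ q ∈ Y, ∃ c : ℂ, y = c • q.rep} (fun y hy => by
        by_cases h0 : y = 0
        · exact Or.inl h0
        have h1 : ∀ g ∈ idealOf Y, eval y g = 0 := fun g hg => by
          obtain ⟨i, hi⟩ := Function.ne_iff.1 h0
          have := hy (X i * g) (mem_van.2 (by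
            rintro _ (rfl | ⟨q, hq, c, rfl⟩)
            · simp
            · rw [map_mul, mem_idealOf.1 hg q hq c, mul_zero]))
          rw [map_mul, eval_X] at this
          exact (mul_eq_zero.1 this).resolve_left hi
        obtain ⟨a, ha⟩ := Projectivization.exists_smul_eq_mk_rep ℂ y h0
        refine Or.inr ⟨_, hY (Projectivization.mk ℂ y h0) fun g hg => ?_, (a⁻¹ : ℂˣ), ?_⟩
        · rw [← ha, Units.smul_def]
          exact Proj_smul (fun e => h1 _ (homI_idealOf Y g hg e)) _
        · rw [← ha, ← Units.smul_def, inv_smul_smul]) p.rep (fun g hg => h g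
      (mem_idealOf.2 fun q hq c => by
        rw [eval_aeval]
        exact hg _ (Or.inr ⟨q, hq, c, rfl⟩)))
    have e' : (emap F)^[j] y = p.rep := (emap_itr F j y).symm.trans e
    have h0 : y ≠ 0 := by
      rintro rfl
      exact p.rep_nonzero (e'.symm.trans (iterate_zero hd hom j))
    obtain ⟨q, hq, c, hc⟩ := hy.resolve_left h0
    have h1 : Projectivization.mk ℂ y h0 = q := by
      rw [← q.mk_rep, Projectivization.mk_eq_mk_iff']
      exact ⟨c, hc.symm⟩
    refine ⟨q, hq, ?_⟩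
    rw [← h1, pmap_iterate hF hom]
    simp only [e', Projectivization.mk_rep]

end Pool.Agent.Work.MP_0a826e_ag.G
end

-- merged part: Pool.Agent.Work.MP_0a826e_ag.G.Frob1
section
/-!
Lifts of Frobenius: passage to a valuation subring with algebraic residue field.
-/

namespace Pool.Agent.Work.MP_0a826e_ag.G

open MvPolynomial IsLocalRing

variable {n : ℕ} {K : Type} [Field K]

/-- Zorn: the intersection of a chain of valuation subrings is a valuation subring -/
theorem exists_minimal (O : ValuationSubring K) :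
    ∃ W : ValuationSubring K, W ≤ O ∧ ∀ W' : ValuationSubring K, W' ≤ W → W' = W := by
  have key : ∀ c : Set (ValuationSubring K), IsChain (· ≤ ·) c →
      ∃ lb : ValuationSubring K, ∀ z ∈ c, lb ≤ z := by
    intro c hc
    refine ⟨ValuationSubring.ofSubring (⨅ V : c, V.1.toSubring) fun x => ?_, fun z hz x hx => ?_⟩
    · by_contra hn
      rw [not_or, Subring.mem_iInf, Subring.mem_iInf, not_forall, not_forall] at hn
      obtain ⟨⟨V, hV⟩, ⟨V', hV'⟩⟩ := hn
      rcases hc.total V.2 V'.2 with e | e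
      · exact hV' (e ((V.1.mem_or_inv_mem x).resolve_left hV))
      · exact hV (e ((V'.1.mem_or_inv_mem x).resolve_right hV'))
    · rw [ValuationSubring.mem_ofSubring, Subring.mem_iInf] at hx
      exact hx ⟨z, hz⟩
  obtain ⟨m, h1, h2⟩ := @zorn_le_nonempty₀ (ValuationSubring K)ᵒᵈ _ Set.univ
    (fun c _ hc _ _ => by
      obtain ⟨lb, h⟩ := key c hc.symm
      exact ⟨lb, trivial, h⟩) O trivial
  exact ⟨m, h1, fun W' h => le_antisymm h (h2.2 (y := W') trivial h)⟩

/-- the preimage of `U` in `W` is a valuation subring of `K` -/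
theorem top_of_minimal {W : ValuationSubring K} (hW : ∀ W' : ValuationSubring K, W' ≤ W → W' = W)
    (U : ValuationSubring (ResidueField W)) : U = ⊤ := by
  let S : Subring K := (U.toSubring.comap (residue W)).map W.subtype
  have key : ∀ a : W, (a : K) ∈ S ∨ (a : K)⁻¹ ∈ S := by
    intro a
    by_cases h : residue W a ∈ U
    · exact Or.inl ⟨a, h, rfl⟩
    · have h0 : residue W a ≠ 0 := fun e => h (e ▸ U.zero_mem)
      obtain ⟨b, hb⟩ := ((residue_ne_zero_iff_isUnit a).1 h0).exists_right_inv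
      refine Or.inr ⟨b, ?_, ?_⟩
      · have e : residue W b = (residue W a)⁻¹ :=
          eq_inv_of_mul_eq_one_right (by rw [← map_mul, hb, map_one])
        change residue W b ∈ U
        rw [e]
        exact (U.mem_or_inv_mem _).resolve_left h
      · exact eq_inv_of_mul_eq_one_right (congrArg Subtype.val hb)
  have hS : ∀ x : K, x ∈ S ∨ x⁻¹ ∈ S := by
    intro x
    rcases W.mem_or_inv_mem x with h | h
    · exact key ⟨x, h⟩
    · have := key ⟨x⁻¹, h⟩
      rw [inv_inv] at this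
      exact this.symm
  have e := hW (ValuationSubring.ofSubring S hS) (by
    rintro _ ⟨a, -, rfl⟩
    exact a.2)
  refine top_unique fun u _ => ?_
  obtain ⟨a, rfl⟩ := residue_surjective u
  have ha : (a : K) ∈ ValuationSubring.ofSubring S hS := by
    rw [e]
    exact a.2
  obtain ⟨b, h1, h2⟩ := ha
  obtain rfl : b = a := Subtype.ext h2
  exact h1

/-- The integral closure of the prime ring is an intersection of valuation subrings
(`Subring.exists_le_valuationSubring_of_isIntegrallyClosedIn`), so `x` is a root of a monic integer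
polynomial; all `x ^ p ^ j` are roots of it, and the Frobenius map is injective. -/
theorem frob_periodic {κ : Type} [Field κ] (h : ∀ U : ValuationSubring κ, U = ⊤) {p : ℕ}
    (hp : p.Prime) (hc : (p : κ) = 0) (x : κ) : ∃ r, 1 ≤ r ∧ x ^ p ^ r = x := by
  have hx : IsIntegral ℤ x := by
    by_contra hn
    obtain ⟨V, -, hV⟩ := Subring.exists_le_valuationSubring_of_isIntegrallyClosedIn
      (R := (integralClosure ℤ κ).toSubring) (x := x) hn
    exact hV (by rw [h V]; exact ValuationSubring.mem_top x)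
  obtain ⟨q, hq, hqx⟩ := hx
  have : CharP κ p := (CharP.charP_iff_prime_eq_zero hp).2 hc
  have : ExpChar κ p := ExpChar.prime hp
  have hr : ∀ j : ℕ, x ^ p ^ j ∈ q.rootSet κ := fun j => by
    rw [hq.mem_rootSet]
    have e := Polynomial.aeval_algHom_apply (iterateFrobenius κ p j).toIntAlgHom x q
    rw [show Polynomial.aeval x q = 0 from hqx, map_zero] at e
    exact e
  obtain ⟨i, j, hij, e⟩ := Set.Finite.exists_lt_map_eq_of_forall_mem hr (q.rootSet_finite κ)
  obtain ⟨r, rfl⟩ := Nat.exists_eq_add_of_lt hij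
  refine ⟨r + 1, Nat.le_add_left 1 r, (iterateFrobenius κ p i).injective ?_⟩
  rw [iterateFrobenius_def, iterateFrobenius_def, ← pow_mul, ← pow_add, e]
  congr 2
  omega

end Pool.Agent.Work.MP_0a826e_ag.G
end

-- merged part: Pool.Agent.Work.MP_0a826e_ag.G.Frob
section
/-!
Lifts of Frobenius: passage to a valuation subring with algebraic residue field.
-/

namespace Pool.Agent.Work.MP_0a826e_ag.G

open MvPolynomial IsLocalRing

variable {n : ℕ} {K : Type} [Field K]

theorem Frob_mul {κ : Type} [Field κ] {p r : ℕ} {x : κ} (h : x ^ p ^ r = x) (m : ℕ) :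
    x ^ p ^ (r * m) = x := by
  induction m with
  | zero => simp
  | succ m ih => rw [Nat.mul_succ, pow_add, pow_mul, ih, h]

theorem Frob_common {κ : Type} [Field κ] {p : ℕ} (h : ∀ x : κ, ∃ r, 1 ≤ r ∧ x ^ p ^ r = x)
    (T : Finset κ) : ∃ r, 1 ≤ r ∧ ∀ x ∈ T, x ^ p ^ r = x := by
  classical
  induction T using Finset.induction_on with
  | empty => exact ⟨1, le_rfl, by simp⟩
  | insert y T _ ih =>
    obtain ⟨r, hr, h1⟩ := ih
    obtain ⟨t, ht, h2⟩ := h y
    refine ⟨r * t, Nat.mul_pos hr ht, fun x hx => ?_⟩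
    rcases Finset.mem_insert.1 hx with rfl | hx
    · rw [mul_comm]; exact Frob_mul h2 r
    · exact Frob_mul (h1 x hx) t

theorem Frob_iter {κ : Type} [Field κ] (d r : ℕ) (v : Fin n → κ) :
    (emap fun i => (X i : Pn n κ) ^ d)^[r] v = fun i => v i ^ d ^ r := by
  induction r with
  | zero => simp
  | succ r ih =>
    rw [Function.iterate_succ_apply', ih]
    funext i
    simp [emap, pow_succ, pow_mul]

/-- take finitely many generators of `b` and a common period `r` of their coefficients; then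
`g (v ^ p ^ (a * r)) = g (v) ^ p ^ (a * r)` for the generators (`iterateFrobenius`) -/
theorem frob_cone {κ : Type} [Field κ] {p : ℕ} (hp : p.Prime) (hc : (p : κ) = 0)
    (h : ∀ x : κ, ∃ r, 1 ≤ r ∧ x ^ p ^ r = x) (a : ℕ) (b : Ideal (Pn n κ)) :
    ∃ r, 1 ≤ r ∧ ∀ v : Fin n → κ, (∀ g ∈ b, eval v g = 0) →
      ∀ g ∈ b, eval ((emap fun i => (X i : Pn n κ) ^ p ^ a)^[r] v) g = 0 := by
  classical
  obtain ⟨S, rfl⟩ := IsNoetherian.noetherian b
  obtain ⟨r, hr, hT⟩ := Frob_common h (S.biUnion fun g => g.coeffs)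
  have : CharP κ p := (CharP.charP_iff_prime_eq_zero hp).2 hc
  have : ExpChar κ p := ExpChar.prime hp
  refine ⟨r, hr, fun v hv g hg => ?_⟩
  rw [Frob_iter, ← pow_mul]
  refine (Ideal.span_le (I := RingHom.ker (eval fun i => v i ^ p ^ (a * r)))).2
    (fun g hg => ?_) hg
  have e : map (iterateFrobenius κ p (a * r)) g = g := by
    ext m
    rw [coeff_map, iterateFrobenius_def]
    by_cases hm : m ∈ g.support
    · rw [mul_comm]
      exact Frob_mul (hT _ (Finset.mem_biUnion.2 ⟨g, hg, mem_coeffs_iff.2 ⟨m, hm, rfl⟩⟩)) a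
    · rw [notMem_support_iff.1 hm, zero_pow (pow_pos hp.pos _).ne']
  have k := eval_map_comp (iterateFrobenius κ p (a * r)) v g
  rw [e, hv g (Ideal.subset_span hg), map_zero] at k
  exact k

/-- The coefficients of `G i - X i ^ d` are nonunits of `O`, so nonunits of `W`
(`ValuationSubring.nonunits_le_nonunits`). -/
theorem frob_change {O W : ValuationSubring K} (hW : W ≤ O) {d : ℕ} {G : Fin n → Pn n O}
    (hom : ∀ i, (G i).IsHomogeneous d) (hG : ∀ i, map (residue O) (G i) = X i ^ d) {p : ℕ}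
    (hc : (p : ResidueField O) = 0) :
    (p : ResidueField W) = 0 ∧ ∃ G' : Fin n → Pn n W, (∀ i, (G' i).IsHomogeneous d) ∧
      (∀ i, map (residue W) (G' i) = X i ^ d) ∧
      ∀ i, map W.subtype (G' i) = map O.subtype (G i) := by
  have hn : O.nonunits ≤ W.nonunits := ValuationSubring.nonunits_le_nonunits.2 hW
  have key : ∀ (x : O) (y : W), (y : K) = x → residue O x = 0 → residue W y = 0 :=
    fun x y e hx => by
      rw [residue_eq_zero_iff, ← ValuationSubring.coe_mem_nonunits_iff] at hx ⊢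
      exact e ▸ hn hx
  have hE : ∀ i m, residue O (coeff m (G i - X i ^ d)) = 0 := fun i m => by
    rw [← coeff_map, map_sub, hG, map_pow, map_X, sub_self, coeff_zero]
  have ex : ∀ i, ∃ E : Pn n W, map W.subtype E = map O.subtype (G i - X i ^ d) := fun i => by
    refine mem_range_map_iff_coeffs_subset.2 fun c hc => ?_
    obtain ⟨m, -, rfl⟩ := mem_coeffs_iff.1 hc
    have := hE i m
    rw [residue_eq_zero_iff, ← ValuationSubring.coe_mem_nonunits_iff] at this
    rw [coeff_map]
    exact ⟨⟨_, ValuationSubring.nonunits_subset (hn this)⟩, rfl⟩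
  choose E hE' using ex
  have h3 : ∀ i, map W.subtype (E i + X i ^ d) = map O.subtype (G i) := fun i => by
    rw [map_add, hE', map_sub, map_pow, map_pow, map_X, map_X, sub_add_cancel]
  refine ⟨?_, fun i => E i + X i ^ d, fun i m hm => ?_, fun i => ?_, h3⟩
  · rw [← map_natCast (residue W)]
    exact key p p (by simp) (by rwa [map_natCast])
  · refine hom i fun e => hm ?_
    have := congrArg (coeff m) (h3 i)
    rw [coeff_map, coeff_map, e, map_zero] at this
    exact Subtype.ext this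
  · have : map (residue W) (E i) = 0 := by
      ext m
      have := congrArg (coeff m) (hE' i)
      rw [coeff_map, coeff_map] at this
      rw [coeff_map, coeff_zero]
      exact key _ _ this (hE i m)
    rw [map_add, this, zero_add, map_pow, map_X]

/-- `exists_minimal`, `top_of_minimal`, `frob_periodic`, `frob_change`, and `frob_cone` for the
image of `p0.comap (map W.subtype)` in the polynomials over the residue field -/
theorem frob_red (O : ValuationSubring ℂ) {p a : ℕ} (hp : p.Prime) (hc : (p : ResidueField O) = 0)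
    {G : Fin n → Pn n O} (hom : ∀ i, (G i).IsHomogeneous (p ^ a))
    (hG : ∀ i, map (residue O) (G i) = X i ^ p ^ a) (p0 : Ideal (Pn n ℂ)) :
    ∃ (W : ValuationSubring ℂ) (G' : Fin n → Pn n W) (r : ℕ), 1 ≤ r ∧
      (∀ i, (G' i).IsHomogeneous (p ^ a)) ∧
      (∀ v, v ≠ 0 → emap (fun i => map (residue W) (G' i)) v ≠ 0) ∧
      (∀ i, map W.subtype (G' i) = map O.subtype (G i)) ∧
      ∀ v ∈ redCone W p0, (emap fun i => map (residue W) (G' i))^[r] v ∈ redCone W p0 := by
  obtain ⟨W, hW, hmin⟩ := exists_minimal O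
  obtain ⟨hc', G', h1, h2, h3⟩ := frob_change hW hom hG hc
  obtain ⟨r, hr, h4⟩ := frob_cone hp hc' (frob_periodic (top_of_minimal hmin) hp hc') a
    ((p0.comap (map W.subtype : Pn n W →+* Pn n ℂ)).map
      (map (residue W) : Pn n W →+* Pn n (ResidueField W)))
  have e : (fun i => map (residue W) (G' i)) = fun i => X i ^ p ^ a := funext h2
  refine ⟨W, G', r, hr, h1, fun v hv k => hv (funext fun i => ?_), h3, fun v hv g hg => ?_⟩
  · have := congrFun k i
    rw [e] at this
    simp only [emap, map_pow, eval_X, Pi.zero_apply] at this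
    exact pow_eq_zero_iff (pow_pos hp.pos a).ne' |>.1 this
  · rw [e]
    refine h4 v (fun g hg => ?_) _ (Ideal.mem_map_of_mem _ hg)
    exact (Ideal.map_le_iff_le_comap (K := RingHom.ker (eval v))).2 (fun g hg => hv g hg) hg

end Pool.Agent.Work.MP_0a826e_ag.G
end

-- merged part: Pool.Agent.Work.MP_0a826e_ag.G.Main
section
/-!
The reduction principle.
-/

namespace Pool.Agent.Work.MP_0a826e_ag.G

open MvPolynomial IsLocalRing
open scoped LinearAlgebra.Projectivization

theorem main {n d : ℕ} (hd : 2 ≤ d) (O : ValuationSubring ℂ) (G : Fin n → MvPolynomial (Fin n) O)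
    (hom : ∀ i, (G i).IsHomogeneous d)
    (hF : ∀ v, v ≠ 0 → emap (fun i => map O.subtype (G i)) v ≠ 0)
    (hG : ∀ v, v ≠ 0 → emap (fun i => map (residue O) (G i)) v ≠ 0)
    (Y S : Set (ℙ ℂ (Fin n → ℂ)))
    (hY : ∀ p : ℙ ℂ (Fin n → ℂ), (∀ g ∈ idealOf Y, eval p.rep g = 0) → p ∈ Y)
    (hirr : (idealOf Y).IsPrime) (hdense : idealOf S = idealOf Y)
    (hpre : ∀ x ∈ S, (Set.range fun j : ℕ => (pmap _ hF)^[j] x).Finite)
    (hred : (∃ p a : ℕ, p.Prime ∧ d = p ^ a ∧ (p : ResidueField O) = 0 ∧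
        ∀ i, map (residue O) (G i) = X i ^ d) ∨
      ∃ m k : ℕ, 1 ≤ k ∧ (pmap _ hG)^[m + k] '' redSet O Y = (pmap _ hG)^[m] '' redSet O Y) :
    ∃ m k : ℕ, 1 ≤ k ∧ (pmap _ hF)^[m + k] '' Y = (pmap _ hF)^[m] '' Y := by
  have homF : ∀ i, (map O.subtype (G i)).IsHomogeneous d := fun i => (hom i).map _
  set S' : Set (Fin n → ℂ) := {y | (∃ p ∈ S, ∃ c : ℂ, y = c • p.rep) ∧
    Pre (emap fun i => map O.subtype (G i)) y} with hS'
  have hv : van S' = idealOf Y := (van_lifts hF hd homF hpre).trans hdense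
  have key : ∃ m k, 1 ≤ k ∧ ∀ g : Pn n ℂ,
      aeval (itr (fun i => map O.subtype (G i)) (m + k)) g ∈ van S' ↔
        aeval (itr (fun i => map O.subtype (G i)) m) g ∈ van S' := by
    have a1 : (van S').IsPrime := hv ▸ hirr
    have a2 : HomI (van S') := hv ▸ homI_idealOf Y
    have a3 : ∀ g ∈ van S', eval 0 g = 0 := fun g hg => eval_zero_idealOf hirr (hv ▸ hg)
    rcases hred with ⟨p, a, hp, rfl, hc, hfr⟩ | ⟨m, k, hk, h⟩
    · obtain ⟨W, G', r, hr, hom', hG', he, hper⟩ := frob_red O hp hc hom hfr (van S')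
      have he' : (fun i => map W.subtype (G' i)) = fun i => map O.subtype (G i) := funext he
      have := affine_main W hd hom' hG' S' a1 a2 a3 (by
        rw [he']
        exact fun y hy => hy.2) (m0 := 0) (n1 := r) hr fun v hv' => ⟨_, hper v hv', rfl⟩
      rwa [he'] at this
    · refine affine_main O hd hom hG S' a1 a2 a3 (fun y hy => hy.2) (m0 := m) (n1 := m + k)
        (by omega) ?_
      rw [hv]
      exact red_cone O (by omega) hG (fun i => (hom i).map _) Y h
  obtain ⟨m, k, hk, h⟩ := key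
  refine ⟨m, k, hk, Set.ext fun p => ?_⟩
  rw [mem_image_iff hF (by omega) homF hY, mem_image_iff hF (by omega) homF hY, ← hv]
  exact forall_congr' fun g => by rw [h g]

end Pool.Agent.Work.MP_0a826e_ag.G
end
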